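import Pool.Agent.Lib.H34V.N01
import Pool.Agent.Lib.H34Z.M02

/-!
# N02: the blocks of the projectors (port of H34Z/M02)
-/

set_option autoImplicit false
set_option linter.unusedSectionVars false
namespace Pool.Agent.H34V
open Module Matrix Pool.Agent.H53Toric Pool.Agent.H76P Pool.Agent.H34Z
open Pool.Agent.H76U (cmp preL Lb Split4)
open Pool.Agent.H76Y (LcN)
open Pool.Agent.H76RM (zar_commute zlie_commute)

variable {ι : Type*} [Fintype ι] [DecidableEq ι] {K : Type*} [Field K] [CharZero K] [IsAlgClosed K]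
  {J u : Matrix ι ι K} {DD : Submodule K (Matrix ι ι K)} {S 𝓗 : Set (Matrix ι ι K)} {x : Matrix ι ι K}
  {B : Type*} [Fintype B] [DecidableEq B] {bar : B → B} {e : B → Matrix ι ι K} {n : B → ℕ}
  {U : ∀ b, Matrix ι (Fin (n b)) K} {V : ∀ b, Matrix (Fin (n b)) ι K} {d : ∀ b, Fin (n b) → K}

namespace Sit5
variable (g : Sit5 J u DD S 𝓗 x bar e n U V d)
include g

/-- PROOF. `pb_mul`, `g.UV`, `pD` with `g.spl.mem b`. -/
theorem pb_bracket (b : B) {A A' : Matrix ι ι K} (hA : A ∈ preL J S) (hA' : A' ∈ preL J S) :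
    pb (U b) (V b) (A * A' - A' * A) = pb (U b) (V b) A * pb (U b) (V b) A' - pb (U b) (V b) A' * pb (U b) (V b) A := by
  have h1 : A * (U b * V b) = U b * V b * A := by
    have h := g.pD hA (g.spl.mem b)
    rwa [g.UV b] at h
  have h2 : A' * (U b * V b) = U b * V b * A' := by
    have h := g.pD hA' (g.spl.mem b)
    rwa [g.UV b] at h
  rw [map_sub, pb_mul (g.VU b) h2, pb_mul (g.VU b) h1]

/-- PROOF. `H76U.mem_Lb`; the trace of a commutator is zero (`pb_bracket`, `LinearMap.trace_mul_comm`). -/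
theorem pb_mem (b : B) {A : Matrix ι ι K} (hA : A ∈ brk J S) : pb (U b) (V b) A ∈ LcN J S (U b) (V b) := by
  refine ⟨Pool.Agent.H76U.mem_Lb.2 ⟨A, brk_pre hA, rfl⟩, ?_⟩
  refine Submodule.span_induction
    (p := fun A _ => LinearMap.trace K (Fin (n b) → K) (pb (U b) (V b) A) = 0) ?_ ?_ ?_ ?_ hA
  · rintro C ⟨A, hA, A', hA', rfl⟩
    rw [g.pb_bracket b hA hA', map_sub, LinearMap.trace_mul_comm, sub_self]
  · rw [map_zero, map_zero]
  · intro A C _ _ h1 h2
    rw [map_add, map_add, h1, h2, add_zero]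
  · intro a A _ h1
    rw [map_smul, map_smul, h1, smul_zero]

/-- The block of a projector is an idempotent with the same rank. -/
theorem h_idem (b : B) {h : Matrix ι ι K} (hh : h ∈ 𝓗) :
    pb (U b) (V b) h * pb (U b) (V b) h = pb (U b) (V b) h ∧
      LinearMap.trace K (Fin (n b) → K) (pb (U b) (V b) h) = ((h * e b).rank : K) ∧ (h * e b).rank ≤ n b := by
  have hc : h * e b = e b * h := g.zD (g.hz h hh) (g.spl.mem b)
  have hUV := g.UV b
  have hVU := g.VU b
  have h0 : pb (U b) (V b) h = phi (cmp (U b) (V b) h) := rfl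
  have h1 : cmp (U b) (V b) h * cmp (U b) (V b) h = cmp (U b) (V b) h := by
    rw [← Pool.Agent.H76U.cmp_mul hUV hVU hc, g.hi h hh]
  have h3 : phi (cmp (U b) (V b) h) * phi (cmp (U b) (V b) h) = phi (cmp (U b) (V b) h) := by
    rw [← map_mul, h1]
  have h5 : (cmp (U b) (V b) h).rank = (h * e b).rank := Pool.Agent.H76U.rank_cmp hUV hVU hc
  refine ⟨h3, ?_, ?_⟩
  · have h4 := trace_idem h3
    rw [h0, h4, ← h5]
    rfl
  · rw [← h5]
    exact (Matrix.rank_le_card_height _).trans (Fintype.card_fin _).le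

/-- PROOF. `2 h - 1 - c • 1 ∈ preL` (`ypre`); the trace of the block of `2h - 1` is `2 rank (h * e b) - n b`.  Square: `(2h-1)² = 1`, `pb_mul`. -/
theorem y_mem (b : B) {h : Matrix ι ι K} (hh : h ∈ 𝓗) :
    pb (U b) (V b) ((2 : K) • h - 1) - shf h (e b) (n b) • 1 ∈ LcN J S (U b) (V b) ∧
    pb (U b) (V b) ((2 : K) • h - 1) * pb (U b) (V b) ((2 : K) • h - 1) = 1 := by
  have hUV := g.UV b
  have hVU := g.VU b
  have hy : ((2 : K) • h - 1) * (U b * V b) = U b * V b * ((2 : K) • h - 1) := by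
    have h1 := g.pD (g.ypre hh) (g.spl.mem b)
    rwa [hUV] at h1
  have hn : (n b : K) ≠ 0 := Nat.cast_ne_zero.2 (g.pos b).ne'
  refine ⟨⟨?_, ?_⟩, ?_⟩
  · have h1 : (1 : Matrix ι ι K) ∈ preL J S := by
      refine ⟨⟨1, 0, (zlie S).zero_mem, ?_⟩, 2, ?_⟩
      · rw [one_smul, zero_add]
      · rw [Matrix.transpose_one, one_mul, mul_one, two_smul]
    have h2 : (2 : K) • h - 1 - shf h (e b) (n b) • 1 ∈ preL J S :=
      (preL J S).sub_mem (g.ypre hh) ((preL J S).smul_mem _ h1)
    have h3 : pb (U b) (V b) ((2 : K) • h - 1) - shf h (e b) (n b) • 1 =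
        pb (U b) (V b) ((2 : K) • h - 1 - shf h (e b) (n b) • 1) := by
      rw [map_sub (pb (U b) (V b)) ((2 : K) • h - 1), map_smul (pb (U b) (V b)) (shf h (e b) (n b)), pb_one hVU]
    rw [h3]
    exact Pool.Agent.H76U.mem_Lb.2 ⟨_, h2, rfl⟩
  · rw [map_sub, map_smul, map_sub, map_smul, pb_one hVU, map_sub, map_smul, (g.h_idem b hh).2.1,
      LinearMap.trace_one, Module.finrank_fintype_fun_eq_card, Fintype.card_fin, smul_eq_mul, smul_eq_mul, shf]
    field_simp
    ring
  · rw [← pb_mul hVU hy]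
    have h1 : ((2 : K) • h - 1) * ((2 : K) • h - 1) = 1 := by
      have h2 : ((2 : K) • h - 1) * ((2 : K) • h - 1) = (4 : K) • (h * h) - (4 : K) • h + 1 := by
        simp only [sub_mul, mul_sub, smul_mul_assoc, mul_smul_comm, one_mul, mul_one]
        module
      rw [h2, g.hi h hh, sub_self, zero_add]
    rw [h1, pb_one hVU]

/-- PROOF. The block `M = V b * (2h-1) * U b` commutes with `V b * x * U b = Matrix.diagonal (d b)` (`g.ec`: `x * U b = U b * diagonal (d b)`; `H76P.cmp_phi`), `d b`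
is injective, so `M` is diagonal (entries `M i j (d j - d i) = 0`), `M = diagonal ε`, `phi M = dg ε`; `M * M = 1` (`y_mem`) gives `ε k ^ 2 = 1`. -/
theorem y_diag (b : B) {h : Matrix ι ι K} (hh : h ∈ 𝓗) (hx : h * x = x * h) :
    ∃ ε : Fin (n b) → K, pb (U b) (V b) ((2 : K) • h - 1) = dg ε ∧ ∀ k, ε k = 1 ∨ ε k = -1 := by
  have hUV := g.UV b
  have hVU := g.VU b
  have hye : ((2 : K) • h - 1) * e b = e b * ((2 : K) • h - 1) := g.pD (g.ypre hh) (g.spl.mem b)
  have hxe : x * e b = e b * x := (g.cl g.hx).2.1 _ (g.spl.mem b)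
  have hyx : ((2 : K) • h - 1) * x = x * ((2 : K) • h - 1) := by
    rw [sub_mul, mul_sub, smul_mul_assoc, mul_smul_comm, hx, one_mul, mul_one]
  have h1 := Pool.Agent.H76U.cmp_mul hUV hVU (A := (2 : K) • h - 1) (C := x) hxe
  have h2 := Pool.Agent.H76U.cmp_mul hUV hVU (A := x) (C := (2 : K) • h - 1) hye
  rw [hyx, h2, Pool.Agent.H76P.cmp_phi hVU (g.ec b)] at h1
  let M : Matrix (Fin (n b)) (Fin (n b)) K := cmp (U b) (V b) ((2 : K) • h - 1)
  have hM : M = Matrix.diagonal (fun k => M k k) := by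
    ext i j
    by_cases hij : i = j
    · subst hij
      rw [Matrix.diagonal_apply_eq]
    · rw [Matrix.diagonal_apply_ne _ hij]
      have h3 := congrFun (congrFun h1 i) j
      rw [Matrix.diagonal_mul, Matrix.mul_diagonal] at h3
      have h4 : (d b i - d b j) * M i j = 0 := by
        have h5 : d b i * M i j = M i j * d b j := h3
        rw [sub_mul, h5]
        ring
      exact (mul_eq_zero.1 h4).resolve_left (sub_ne_zero.2 fun h5 => hij ((g.ec b).inj h5))
  have hp : pb (U b) (V b) ((2 : K) • h - 1) = dg (fun k => M k k) := by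
    have h3 : pb (U b) (V b) ((2 : K) • h - 1) = phi M := rfl
    rw [h3, hM, Pool.Agent.H76P.phi_diag]
    congr 1
    ext k
    exact (Matrix.diagonal_apply_eq _ _).symm
  refine ⟨fun k => M k k, hp, fun k => ?_⟩
  have h3 := (g.y_mem b hh).2
  rw [hp, dg_mul, ← dg_one] at h3
  have h4 := congrFun (dg_inj h3) k
  exact mul_self_eq_one_iff.1 h4

/-- The signs. -/
theorem y_sgn (b : B) {h : Matrix ι ι K} (hh : h ∈ 𝓗) {ε : Fin (n b) → K}
    (hε : pb (U b) (V b) ((2 : K) • h - 1) = dg ε) (hv : ∀ k, ε k = 1 ∨ ε k = -1) :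
    ((h * e b).rank ≠ 0 → ∃ k, ε k = 1) ∧ ((h * e b).rank ≠ n b → ∃ k, ε k = -1) := by
  have hVU := g.VU b
  have h1 : pb (U b) (V b) ((2 : K) • h - 1) = (2 : K) • pb (U b) (V b) h - 1 := by
    rw [map_sub, map_smul, pb_one hVU]
  have htr := (g.h_idem b hh).2.1
  constructor
  · intro hr
    by_contra hcon
    push Not at hcon
    have h2 : ε = fun _ => (-1 : K) := funext fun k => (hv k).resolve_left (hcon k)
    have h3 : (dg (fun _ => (-1 : K)) : Module.End K (Fin (n b) → K)) = -1 := by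
      refine LinearMap.ext fun v => funext fun a => ?_
      rw [dg_apply]
      simp
    rw [h1, h2, h3] at hε
    have h4 : pb (U b) (V b) h = 0 := by
      have h5 : (2 : K) • pb (U b) (V b) h = 0 := by
        have h6 := congrArg (fun m => m + 1) hε
        simp only [sub_add_cancel, neg_add_cancel] at h6
        exact h6
      exact (smul_eq_zero.1 h5).resolve_left two_ne_zero
    rw [h4, map_zero] at htr
    exact hr (Nat.cast_eq_zero.1 htr.symm)
  · intro hr
    by_contra hcon
    push Not at hcon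
    have h2 : ε = fun _ => (1 : K) := funext fun k => (hv k).resolve_right (hcon k)
    have h3 : (dg (fun _ => (1 : K)) : Module.End K (Fin (n b) → K)) = 1 := by
      refine LinearMap.ext fun v => funext fun a => ?_
      rw [dg_apply]
      simp
    rw [h1, h2, h3] at hε
    have h4 : pb (U b) (V b) h = 1 := by
      have h5 : (2 : K) • pb (U b) (V b) h = (2 : K) • 1 := by
        have h6 := congrArg (fun m => m + 1) hε
        simp only [sub_add_cancel] at h6
        rw [h6, two_smul]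
      exact smul_right_injective _ (two_ne_zero (α := K)) h5
    rw [h4, LinearMap.trace_one, Module.finrank_fintype_fun_eq_card, Fintype.card_fin] at htr
    exact hr (Nat.cast_injective htr.symm)

end Sit5

end Pool.Agent.H34V
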