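import Pool.Agent.Lib.H34V.VD
import Pool.Agent.Lib.H34Z.S04
import Pool.Agent.Lib.H34Z.G07

/-!
# V07: the full algebras, without an involution
-/

set_option autoImplicit false
set_option linter.unusedSectionVars false
namespace Pool.Agent.H34V
open Module Matrix Pool.Agent.H53Toric Pool.Agent.H76P Pool.Agent.H34Z

variable {κ κ' : Type*} [Fintype κ] [DecidableEq κ] [Fintype κ'] [DecidableEq κ'] {K : Type*} [Field K] [CharZero K]
  {𝓛 : Submodule K (Module.End K (κ → K) × Module.End K (κ' → K))}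
  {L : Submodule K (Module.End K (κ → K))} {L' : Submodule K (Module.End K (κ' → K))}
  {d ε : κ → K} {d' ε' : κ' → K}

/-- PROOF. All fields except `eps`, `val`, `val'` are those of `Gz`. -/
theorem Gz.gr (h : Gz 𝓛 L L' d d') (hε : (dg ε, dg ε') ∈ 𝓛) (hv : ∀ k, ε k = 1 ∨ ε k = -1)
    (hv' : ∀ k, ε' k = 1 ∨ ε' k = -1) : Gr 𝓛 L L' d d' ε ε' where
  lie := h.lie
  fst := h.fst
  snd := h.snd
  left := h.left
  right := h.right
  inj := h.inj
  inj' := h.inj'
  ne := h.ne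
  ne' := h.ne'
  cnj := h.cnj
  eps := hε
  val := hv
  val' := hv'

/-- PROOF. Constructor by constructor. -/
theorem FV.fb {t : Prop} {J : Matrix κ κ K} (hL : FV t L J) : FB t L J := by
  rcases hL with ⟨ht, π, hJ, hdet, hm, hL, h2⟩ | ⟨ht, π, hJ, hdet, hm, hne, hL, h6, h8⟩ | ⟨ht, hL, h2⟩
  · exact FB.s ht π hJ hdet hm hL
  · exact FB.o ht π hJ hdet hm hL h6 h8
  · exact FB.n ht hL h2

/-- An involution without fixed points has an odd function with the values `1`, `-1`.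
PROOF. `ε i = 1` iff `Fintype.equivFin κ i < Fintype.equivFin κ (π i)`. -/
theorem exists_odd {π : κ → κ} (hinv : ∀ i, π (π i) = i) (hne : ∀ i, π i ≠ i) :
    ∃ ε : κ → K, (∀ k, ε k = 1 ∨ ε k = -1) ∧ ∀ k, ε (π k) = -ε k := by
  classical
  refine ⟨fun i => if Fintype.equivFin κ i < Fintype.equivFin κ (π i) then 1 else -1, fun k => ?_, fun k => ?_⟩
  · by_cases h : Fintype.equivFin κ k < Fintype.equivFin κ (π k)
    · exact Or.inl (if_pos h)
    · exact Or.inr (if_neg h)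
  · have hne' : Fintype.equivFin κ k ≠ Fintype.equivFin κ (π k) := fun h => hne k ((Fintype.equivFin κ).injective h).symm
    change (if Fintype.equivFin κ (π k) < Fintype.equivFin κ (π (π k)) then (1 : K) else -1) =
      -(if Fintype.equivFin κ k < Fintype.equivFin κ (π k) then (1 : K) else -1)
    rw [hinv]
    rcases lt_or_gt_of_ne hne' with h | h
    · rw [if_neg (not_lt_of_gt h), if_pos h]
    · rw [if_pos h, if_neg (not_lt_of_gt h), neg_neg]

/-- PROOF. Cases: `simple_s`, `simple_o`, `simple_n` (H34Z/S01 - S03), as in `H34Z.FB.simple` (H34Z/S04). -/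
theorem FV.simple {t : Prop} {J : Matrix κ κ K} {I : Submodule K (Module.End K (κ → K))} (hL : FV t L J)
    (hI : Pool.Agent.H76T.IsIdeal L I) (h0 : I ≠ ⊥) : I = L := by
  rcases hL with ⟨ht, π, hJ, hdet, hm, hL, h2⟩ | ⟨ht, π, hJ, hdet, hm, hne, hL, h6, h8⟩ | ⟨ht, hL, h2⟩
  · exact simple_s hJ hdet hL hI h0
  · exact simple_o hJ hdet hm hne hL (by omega) hI h0
  · exact simple_n hL hI h0

/-- PROOF. Cases `s`, `o`: `FB.perfect` (H34Z/S04) with `hL.fb` and the `ε` of `exists_odd` (case `s`: `π i ≠ i` by `Mon.ne_self`), `dg ε ∈ L` by `dg_skew`.  Case `n`: the span of the brackets is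
an ideal (see the proof of `FB.perfect`, `LinearMap.trace_mul_comm`), not zero: for `i ≠ j` (`h2`) the bracket of `phi (Matrix.single i j 1)` and `phi (Matrix.single j i 1)` is
`dg (1_i - 1_j) ≠ 0`; `FV.simple`. -/
theorem FV.perfect {t : Prop} {J : Matrix κ κ K} (hL : FV t L J) :
    L = Submodule.span K {Z | ∃ X ∈ L, ∃ Y ∈ L, Z = X * Y - Y * X} := by
  rcases hL with ⟨ht, π, hJ, hdet, hm, hL, h2⟩ | ⟨ht, π, hJ, hdet, hm, hne, hL, h6, h8⟩ | ⟨ht, hL, h2⟩
  · haveI : Nonempty κ := Fintype.card_pos_iff.1 (by omega)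
    obtain ⟨ε, hε, hπ⟩ := exists_odd (K := K) hm.inv (fun i => hm.ne_self hJ i)
    exact (FB.s ht π hJ hdet hm hL : FB t L J).perfect ((hL _).2 ((dg_skew hm hdet ε).2 hπ)) hε
  · haveI : Nonempty κ := Fintype.card_pos_iff.1 (by omega)
    obtain ⟨ε, hε, hπ⟩ := exists_odd (K := K) hm.inv hne
    exact (FB.o ht π hJ hdet hm hL h6 h8 : FB t L J).perfect ((hL _).2 ((dg_skew hm hdet ε).2 hπ)) hε
  · symm
    have h1 : Submodule.span K {Z | ∃ X ∈ L, ∃ Y ∈ L, Z = X * Y - Y * X} ≤ L := by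
      rw [Submodule.span_le]
      rintro Z ⟨X, hX, Y, hY, rfl⟩
      refine (hL _).2 ?_
      rw [map_sub, LinearMap.trace_mul_comm, sub_self]
    refine simple_n hL ⟨h1, fun X hX Y hY => Submodule.subset_span ⟨X, hX, Y, h1 hY, rfl⟩⟩ ?_
    intro hb
    obtain ⟨i, j, hij⟩ := Fintype.one_lt_card_iff.1 (by omega : 1 < Fintype.card κ)
    have h3 : phi (Matrix.single i j (1 : K)) * phi (Matrix.single j i (1 : K)) -
        phi (Matrix.single j i (1 : K)) * phi (Matrix.single i j (1 : K)) ∈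
          Submodule.span K {Z | ∃ X ∈ L, ∃ Y ∈ L, Z = X * Y - Y * X} :=
      Submodule.subset_span ⟨_, s01_mem hL hij 1, _, s01_mem hL (Ne.symm hij) 1, rfl⟩
    rw [hb, Submodule.mem_bot, ← map_mul, ← map_mul, ← map_sub, Matrix.single_mul_single_same,
      Matrix.single_mul_single_same, one_mul] at h3
    have h4 : Matrix.single i i (1 : K) - Matrix.single j j (1 : K) = 0 :=
      (phi (ι := κ) (K := K)).injective (by rw [h3, map_zero])
    have h5 := congrFun (congrFun h4 i) i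
    rw [Matrix.sub_apply, Matrix.single_apply_same, Matrix.single_apply_of_ne, sub_zero, Matrix.zero_apply] at h5
    · exact one_ne_zero h5
    · rintro ⟨h6, -⟩
      exact hij h6.symm

/-- PROOF. Cases `s`, `o`: `FB.gen` (H34Z/G07) with `hL.fb` and the `ε` of `exists_odd` (`dg ε ∈ L` by `dg_skew`).  Case `n`: `gen_sl`, as in `FB.gen`. -/
theorem FV.gen [IsAlgClosed K] {t : Prop} {J : Matrix κ κ K} (hL : FV t L J) {Z : Set (Matrix κ κ K)}
    (h1 : (1 : Matrix κ κ K) ∈ Z) (hmul : ∀ a ∈ Z, ∀ b ∈ Z, a * b ∈ Z)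
    (hexp : ∀ N : Matrix κ κ K, N * N = 0 → phi N ∈ L → 1 + N ∈ Z)
    {M : Matrix κ κ K} (hM : t → Mᵀ * J * M = J) (hdet : M.det = 1) : M ∈ Z := by
  rcases hL with ⟨ht, π, hJ, hJd, hm, hL, h2⟩ | ⟨ht, π, hJ, hJd, hm, hne, hL, h6, h8⟩ | ⟨ht, hL, h2⟩
  · obtain ⟨ε, hε, hπ⟩ := exists_odd (K := K) hm.inv (fun i => hm.ne_self hJ i)
    exact (FB.s ht π hJ hJd hm hL : FB t L J).gen ((hL _).2 ((dg_skew hm hJd ε).2 hπ)) hε h1 hmul hexp hM hdet
  · obtain ⟨ε, hε, hπ⟩ := exists_odd (K := K) hm.inv hne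
    exact (FB.o ht π hJ hJd hm hL h6 h8 : FB t L J).gen ((hL _).2 ((dg_skew hm hJd ε).2 hπ)) hε h1 hmul hexp hM hdet
  · refine gen_sl h1 hmul (fun N hN hs => hexp N hN ((hL _).2 ?_)) hdet
    rw [s01_tr, hs]

end Pool.Agent.H34V
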