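import Pool.Agent.Lib.H34V.N03
import Pool.Agent.Lib.H34Z.M04

/-!
# N04: two blocks (port of H34Z/M04)
-/

set_option autoImplicit false
set_option linter.unusedSectionVars false
namespace Pool.Agent.H34V
open Module Matrix Pool.Agent.H53Toric Pool.Agent.H76P Pool.Agent.H34Z
open Pool.Agent.H76U (cmp preL Lb Split4)
open Pool.Agent.H76Y (LcN)
open Pool.Agent.H76RM (zar_commute zlie_commute)

variable {ι : Type*} [Fintype ι] [DecidableEq ι] {K : Type*} [Field K] [CharZero K] [IsAlgClosed K]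
  {J u : Matrix ι ι K} {DD : Submodule K (Matrix ι ι K)} {S 𝓗 : Set (Matrix ι ι K)} {x : Matrix ι ι K}
  {B : Type*} [Fintype B] [DecidableEq B] {bar : B → B} {e : B → Matrix ι ι K} {n : B → ℕ}
  {U : ∀ b, Matrix ι (Fin (n b)) K} {V : ∀ b, Matrix (Fin (n b)) ι K} {d : ∀ b, Fin (n b) → K}

namespace Sit5
variable (g : Sit5 J u DD S 𝓗 x bar e n U V d)
include g

/-- PROOF. `dich` (R01), as `Sit.two`, with `FV.simple`. -/
theorem two {b c : B} (hb : 2 ≤ n b) (hc : 2 ≤ n c) :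
    (∀ X ∈ LcN J S (U b) (V b), ∃ A ∈ brk J S, pb (U b) (V b) A = X ∧ pb (U c) (V c) A = 0) ∨
    ∀ A ∈ brk J S, pb (U b) (V b) A = 0 ↔ pb (U c) (V c) A = 0 :=
  dich (𝔤 := brk J S) (fun A hA A' hA' => brk_ad (brk_pre hA) (brk_pre hA'))
    (p := pb (U b) (V b)) (q := pb (U c) (V c))
    (fun A hA A' hA' => g.pb_bracket b (brk_pre hA) (brk_pre hA'))
    (fun A hA A' hA' => g.pb_bracket c (brk_pre hA) (brk_pre hA'))
    (g.pb_brk b) (g.pb_brk c) (fun _ hI h0 => (g.full b hb).simple hI h0)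
    (fun _ hI h0 => (g.full c hc).simple hI h0)

/-- Membership in the Lie algebra of pairs. -/
theorem mem_pr2 {b c : B} {X : Module.End K (Fin (n b) → K)} {X' : Module.End K (Fin (n c) → K)} :
    (X, X') ∈ pr2 J S (U b) (V b) (U c) (V c) ↔
      ∃ A ∈ brk J S, pb (U b) (V b) A = X ∧ pb (U c) (V c) A = X' := by
  constructor
  · intro hm
    obtain ⟨A, hA, hAe⟩ := Submodule.mem_map.1 hm
    exact ⟨A, hA, congrArg Prod.fst hAe, congrArg Prod.snd hAe⟩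
  · rintro ⟨A, hA, rfl, rfl⟩
    exact Submodule.mem_map.2 ⟨A, hA, rfl⟩

/-- PROOF. As `Sit.y_pair`: let `y = 2h - 1`, `c_b = shf h (e b) (n b)`.  `pb b y - c_b • 1 ∈ LcN b` (`y_mem`), so there is `A ∈ brk` with `pb b A = pb b y - c_b`.  For all `X ∈ brk` the
block `b` of `[y - A, X]` is zero (a scalar commutes), so its block `c` is zero: `pb c (y - A)` commutes with `LcN c`, so it is a scalar `t`; the traces of `pb c y - c_c` and of `pb c A`
are zero, so `t = c_c`. -/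
theorem y_pair {b c : B} (hgr : ∀ A ∈ brk J S, pb (U b) (V b) A = 0 ↔ pb (U c) (V c) A = 0) {h : Matrix ι ι K}
    (hh : h ∈ 𝓗) : (pb (U b) (V b) ((2 : K) • h - 1) - shf h (e b) (n b) • 1,
      pb (U c) (V c) ((2 : K) • h - 1) - shf h (e c) (n c) • 1) ∈ pr2 J S (U b) (V b) (U c) (V c) := by
  have : Nonempty (Fin (n c)) := ⟨⟨0, g.pos c⟩⟩
  have hy := g.ypre hh
  have h1 : pb (U b) (V b) ((2 : K) • h - 1) - shf h (e b) (n b) • 1 ∈ (brk J S).map (pb (U b) (V b)) := by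
    rw [g.pb_brk b]
    exact (g.y_mem b hh).1
  obtain ⟨A, hA, hAb⟩ := Submodule.mem_map.1 h1
  have hAp : A ∈ preL J S := brk_pre hA
  have hyA : (2 : K) • h - 1 - A ∈ preL J S := (preL J S).sub_mem hy hAp
  have hcomm : ∀ X' ∈ LcN J S (U c) (V c), pb (U c) (V c) ((2 : K) • h - 1 - A) * X' =
      X' * pb (U c) (V c) ((2 : K) • h - 1 - A) := by
    intro X' hX'
    rw [← g.pb_brk c] at hX'
    obtain ⟨X, hX, rfl⟩ := Submodule.mem_map.1 hX'
    have hXp := brk_pre hX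
    have h2 := brk_ad hyA hXp
    have h3 : pb (U b) (V b) (((2 : K) • h - 1 - A) * X - X * ((2 : K) • h - 1 - A)) = 0 := by
      rw [g.pb_bracket b hyA hXp]
      have h4 : pb (U b) (V b) ((2 : K) • h - 1 - A) = shf h (e b) (n b) • 1 := by
        rw [map_sub (pb (U b) (V b)) ((2 : K) • h - 1) A, hAb, sub_sub_cancel]
      rw [h4, smul_mul_assoc, mul_smul_comm, one_mul, mul_one, sub_self]
    have h5 := (hgr _ h2).1 h3
    rw [g.pb_bracket c hyA hXp] at h5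
    exact sub_eq_zero.1 h5
  obtain ⟨t, ht⟩ := Pool.Agent.H25Y.scalar_of_comm (g.irr c) hcomm
  have htr : LinearMap.trace K (Fin (n c) → K) (pb (U c) (V c) ((2 : K) • h - 1 - A) - shf h (e c) (n c) • 1) = 0 := by
    have h6 := ((g.y_mem c hh).1).2
    rw [map_sub (pb (U c) (V c)) ((2 : K) • h - 1) A, sub_right_comm, map_sub, h6, (g.pb_mem c hA).2, sub_zero]
  have ht0 : t = shf h (e c) (n c) := by
    rw [ht, map_sub, map_smul, map_smul, LinearMap.trace_one, Module.finrank_fintype_fun_eq_card, Fintype.card_fin,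
      smul_eq_mul, smul_eq_mul, ← sub_mul] at htr
    rcases mul_eq_zero.1 htr with h6 | h6
    · exact sub_eq_zero.1 h6
    · exact absurd h6 (Nat.cast_ne_zero.2 (g.pos c).ne')
  rw [ht0, map_sub (pb (U c) (V c)) ((2 : K) • h - 1) A] at ht
  have h7 : pb (U c) (V c) A = pb (U c) (V c) ((2 : K) • h - 1) - shf h (e c) (n c) • 1 := by
    rw [← ht, sub_sub_cancel]
  exact g.mem_pr2.2 ⟨A, hA, hAb, h7⟩

/-- PROOF. As `Sit.gr`. -/
theorem gz {b c : B} (hgr : ∀ A ∈ brk J S, pb (U b) (V b) A = 0 ↔ pb (U c) (V c) A = 0) :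
    Gz (pr2 J S (U b) (V b) (U c) (V c)) (LcN J S (U b) (V b)) (LcN J S (U c) (V c)) (d b) (d c) := by
  refine
    { lie := ?_, fst := ?_, snd := ?_, left := ?_, right := ?_, inj := (g.ec b).inj, inj' := (g.ec c).inj,
      ne := (g.ec b).ne, ne' := (g.ec c).ne, cnj := ?_ }
  · rintro ⟨X, X'⟩ hp ⟨Y, Y'⟩ hq
    obtain ⟨A, hA, rfl, rfl⟩ := g.mem_pr2.1 hp
    obtain ⟨A', hA', rfl, rfl⟩ := g.mem_pr2.1 hq
    refine g.mem_pr2.2 ⟨A * A' - A' * A, brk_ad (brk_pre hA) (brk_pre hA'), ?_, ?_⟩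
    · exact g.pb_bracket b (brk_pre hA) (brk_pre hA')
    · exact g.pb_bracket c (brk_pre hA) (brk_pre hA')
  · intro X
    constructor
    · intro hX
      rw [← g.pb_brk b] at hX
      obtain ⟨A, hA, rfl⟩ := Submodule.mem_map.1 hX
      exact ⟨_, g.mem_pr2.2 ⟨A, hA, rfl, rfl⟩⟩
    · rintro ⟨X', hX⟩
      obtain ⟨A, hA, rfl, -⟩ := g.mem_pr2.1 hX
      exact g.pb_mem b hA
  · intro X'
    constructor
    · intro hX
      rw [← g.pb_brk c] at hX
      obtain ⟨A, hA, rfl⟩ := Submodule.mem_map.1 hX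
      exact ⟨_, g.mem_pr2.2 ⟨A, hA, rfl, rfl⟩⟩
    · rintro ⟨X, hX⟩
      obtain ⟨A, hA, -, rfl⟩ := g.mem_pr2.1 hX
      exact g.pb_mem c hA
  · intro X hX
    obtain ⟨A, hA, rfl, h2⟩ := g.mem_pr2.1 hX
    exact (hgr A hA).2 h2
  · intro X' hX
    obtain ⟨A, hA, h2, rfl⟩ := g.mem_pr2.1 hX
    exact (hgr A hA).1 h2
  · intro X X' hX
    obtain ⟨A, hA, rfl, rfl⟩ := g.mem_pr2.1 hX
    obtain ⟨⟨x', hx', hxx, -⟩, -, -⟩ := g.cl g.hx
    exact g.mem_pr2.2 ⟨x * A * x', g.conj_brk g.hx hxx hA, g.pb_conj b hxx, g.pb_conj c hxx⟩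

end Sit5

end Pool.Agent.H34V
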