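import Pool.Agent.Lib.H34V.VD
import Pool.Agent.Lib.H34Z.A03

/-!
# V11: the eigenvalues of two isomorphic blocks
-/

set_option autoImplicit false
set_option linter.unusedSectionVars false
namespace Pool.Agent.H34V
open Module Matrix Pool.Agent.H53Toric Pool.Agent.H76P Pool.Agent.H34Z

variable {κ κ' : Type*} [Fintype κ] [DecidableEq κ] [Fintype κ'] [DecidableEq κ'] {K : Type*} [Field K] [CharZero K]
  [IsAlgClosed K] {𝓛 : Submodule K (Module.End K (κ → K) × Module.End K (κ' → K))}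
  {L : Submodule K (Module.End K (κ → K))} {L' : Submodule K (Module.End K (κ' → K))}
  {d : κ → K} {d' : κ' → K}

theorem v11_inv {κ : Type*} [Fintype κ] [DecidableEq κ] {K : Type*} [Field K] {d : κ → K}
    (hne : ∀ k, d k ≠ 0) (v : κ → K) : dg (fun k => (d k)⁻¹) (dg d v) = v := by
  funext a
  rw [dg_apply, dg_apply, inv_mul_cancel_left₀ (hne a)]

theorem v11_inv' {κ : Type*} [Fintype κ] [DecidableEq κ] {K : Type*} [Field K] {d : κ → K}
    (hne : ∀ k, d k ≠ 0) (v : κ → K) : dg d (dg (fun k => (d k)⁻¹) v) = v := by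
  funext a
  rw [dg_apply, dg_apply, mul_inv_cancel_left₀ (hne a)]

/-- PROOF. Let `E` be the equivalence of `T` (`LinearEquiv.ofBijective`), `S = dg (d'⁻¹) ∘ T ∘ dg d`.  For `(X, X') ∈ 𝓛` the conjugates are in `𝓛` (`h.cnj`), so
`T (dg d X v) = T (dg d X dg d⁻¹ (dg d v)) = dg d' X' dg d'⁻¹ T (dg d v)`, i.e. `S (X v) = X' (S v)`.  So `S ∘ E.symm` commutes with all `X' ∈ L'` (`h.snd`) and is a scalar `t`
(`H25Y.scalar_of_comm`, `Nontrivial (κ' → K)`): `T (dg d v) = t • dg d' (T v)`.  For `v = Pi.single k 1`: `d k • T v = t • dg d' (T v)`, `T v ≠ 0`; choose `π k` with `T v (π k) ≠ 0`: `d k = t * d' (π k)`. -/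
theorem Gz.perm (h : Gz 𝓛 L L' d d') [Nonempty κ'] (hirr' : Irr L') {T : (κ → K) →ₗ[K] (κ' → K)}
    (hb : Function.Bijective T) (hT : ∀ p ∈ 𝓛, ∀ v, T (p.1 v) = p.2 (T v)) :
    ∃ π : κ → κ', ∀ k k', d' (π k) * d k' = d' (π k') * d k := by
  obtain ⟨E, hE⟩ : ∃ E, E = LinearEquiv.ofBijective T hb := ⟨_, rfl⟩
  have hET : ∀ v, E.symm (T v) = v := by
    intro v
    rw [hE]
    exact (LinearEquiv.ofBijective T hb).symm_apply_apply v
  have hTE : ∀ u, T (E.symm u) = u := by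
    intro u
    rw [hE]
    exact (LinearEquiv.ofBijective T hb).apply_symm_apply u
  obtain ⟨S, hS⟩ : ∃ S : (κ → K) →ₗ[K] (κ' → K), ∀ v, S v = dg (fun k => (d' k)⁻¹) (T (dg d v)) :=
    ⟨(dg (fun k => (d' k)⁻¹)) ∘ₗ T ∘ₗ (dg d), fun _ => rfl⟩
  have hSX : ∀ X X', (X, X') ∈ 𝓛 → ∀ v, S (X v) = X' (S v) := by
    intro X X' hX v
    have h1 := hT _ (h.cnj _ _ hX) (dg d v)
    simp only [Module.End.mul_apply] at h1
    rw [v11_inv h.ne] at h1
    rw [hS, h1, v11_inv h.ne', ← hS]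
  obtain ⟨t, ht⟩ := H25Y.scalar_of_comm hirr' (Z := S ∘ₗ E.symm.toLinearMap) (by
    intro X' hX'
    obtain ⟨X, hX⟩ := (h.snd _).1 hX'
    refine LinearMap.ext fun u => ?_
    obtain ⟨v, rfl⟩ := hb.2 u
    change S (E.symm (X' (T v))) = X' (S (E.symm (T v)))
    rw [← hT _ hX v, hET, hET]
    exact hSX X X' hX v)
  have hSt : ∀ v, S v = t • T v := by
    intro v
    have h1 := LinearMap.congr_fun ht (T v)
    change S (E.symm (T v)) = t • T v at h1
    rwa [hET] at h1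
  have hk : ∀ k, ∃ l, d k = t * d' l := by
    intro k
    have h1 : T (Pi.single k 1) ≠ 0 := by
      intro h0
      have h2 : (Pi.single k (1 : K) : κ → K) = 0 := hb.1 (by rw [h0, map_zero])
      have h3 := congrFun h2 k
      rw [Pi.single_eq_same] at h3
      exact one_ne_zero h3
    obtain ⟨l, hl⟩ := Function.ne_iff.1 h1
    refine ⟨l, ?_⟩
    have h4 := congrFun (hSt (Pi.single k 1)) l
    rw [hS, H25Y.dg_single, map_smul, dg_apply, Pi.smul_apply, Pi.smul_apply, smul_eq_mul,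
      smul_eq_mul] at h4
    have h5 := h.ne' l
    have h6 : (d k - t * d' l) * T (Pi.single k 1) l = 0 := by
      have h7 : d' l * ((d' l)⁻¹ * (d k * T (Pi.single k 1) l)) = d' l * (t * T (Pi.single k 1) l) := by
        rw [h4]
      rw [mul_inv_cancel_left₀ h5] at h7
      linear_combination h7
    rcases mul_eq_zero.1 h6 with h7 | h7
    · exact sub_eq_zero.1 h7
    · exact absurd h7 hl
  choose π hπ using hk
  refine ⟨π, fun k k' => ?_⟩
  rw [hπ k, hπ k']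
  ring

/-- PROOF. Write `Xᵗ` for `adjE 1 X` (`adjE 1 (phi A) = phi Aᵀ`: `adjE_phi`, `inv_one`).  `S = dg (d'⁻¹) ∘ T ∘ dg (d⁻¹)`.  For `(X, X') ∈ 𝓛`: `(dg d X dg d⁻¹)ᵗ = dg d⁻¹ Xᵗ dg d`
(`adjE_mul`, a diagonal operator is its own transpose), so `T (dg d⁻¹ Xᵗ (dg d v)) = -dg d' X' dg d'⁻¹ (T v)`; with `v = dg d⁻¹ w`: `S (Xᵗ w) = -X' (S w)`.  So `S ∘ E.symm` commutes with all
`X' ∈ L'`: `S (E.symm (X' (T w))) = S (E.symm (-T (Xᵗ w))) = -S (Xᵗ w) = X' (S w)`; it is a scalar `t`: `T (dg d⁻¹ v) = t • dg d' (T v)`.  For `v = Pi.single k 1` and `T v (π k) ≠ 0`: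
`(d k)⁻¹ = t * d' (π k)`, so `d' (π k) * d k = t⁻¹` (`t ≠ 0`). -/
theorem Gz.perm_dual (h : Gz 𝓛 L L' d d') [Nonempty κ'] (hirr' : Irr L') {T : (κ → K) →ₗ[K] (κ' → K)}
    (hb : Function.Bijective T) (hT : ∀ p ∈ 𝓛, ∀ v, T (adjE (1 : Matrix κ κ K) p.1 v) = -p.2 (T v)) :
    ∃ π : κ → κ', ∀ k k', d' (π k) * d k = d' (π k') * d k' := by
  obtain ⟨E, hE⟩ : ∃ E, E = LinearEquiv.ofBijective T hb := ⟨_, rfl⟩
  have hET : ∀ v, E.symm (T v) = v := by
    intro v
    rw [hE]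
    exact (LinearEquiv.ofBijective T hb).symm_apply_apply v
  have hadj : ∀ g : κ → K, adjE (1 : Matrix κ κ K) (dg g) = dg g := by
    intro g
    rw [a03_dg, adjE_phi, inv_one, one_mul, mul_one, Matrix.diagonal_transpose]
  have h1u : IsUnit (1 : Matrix κ κ K).det := by
    rw [Matrix.det_one]
    exact isUnit_one
  obtain ⟨S, hS⟩ : ∃ S : (κ → K) →ₗ[K] (κ' → K),
      ∀ v, S v = dg (fun k => (d' k)⁻¹) (T (dg (fun k => (d k)⁻¹) v)) :=
    ⟨(dg (fun k => (d' k)⁻¹)) ∘ₗ T ∘ₗ (dg (fun k => (d k)⁻¹)), fun _ => rfl⟩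
  have hSX : ∀ X X', (X, X') ∈ 𝓛 → ∀ w, S (adjE (1 : Matrix κ κ K) X w) = -X' (S w) := by
    intro X X' hX w
    have h1 := hT _ (h.cnj _ _ hX) (dg (fun k => (d k)⁻¹) w)
    simp only at h1
    rw [adjE_mul h1u, adjE_mul h1u, hadj, hadj] at h1
    simp only [Module.End.mul_apply] at h1
    rw [v11_inv' h.ne] at h1
    rw [hS, h1, map_neg, v11_inv h.ne', ← hS]
  obtain ⟨t, ht⟩ := H25Y.scalar_of_comm hirr' (Z := S ∘ₗ E.symm.toLinearMap) (by
    intro X' hX'
    obtain ⟨X, hX⟩ := (h.snd _).1 hX'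
    refine LinearMap.ext fun u => ?_
    obtain ⟨v, rfl⟩ := hb.2 u
    change S (E.symm (X' (T v))) = X' (S (E.symm (T v)))
    have h1 : X' (T v) = T (-(adjE (1 : Matrix κ κ K) X v)) := by
      rw [map_neg, hT _ hX v, neg_neg]
    rw [h1, hET, hET, map_neg, hSX X X' hX v, neg_neg])
  have hSt : ∀ v, S v = t • T v := by
    intro v
    have h1 := LinearMap.congr_fun ht (T v)
    change S (E.symm (T v)) = t • T v at h1
    rwa [hET] at h1
  have hk : ∀ k, ∃ l, t * (d' l * d k) = 1 := by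
    intro k
    have h1 : T (Pi.single k 1) ≠ 0 := by
      intro h0
      have h2 : (Pi.single k (1 : K) : κ → K) = 0 := hb.1 (by rw [h0, map_zero])
      have h3 := congrFun h2 k
      rw [Pi.single_eq_same] at h3
      exact one_ne_zero h3
    obtain ⟨l, hl⟩ := Function.ne_iff.1 h1
    refine ⟨l, ?_⟩
    have h4 := congrFun (hSt (Pi.single k 1)) l
    rw [hS, H25Y.dg_single, map_smul, dg_apply, Pi.smul_apply, Pi.smul_apply, smul_eq_mul,
      smul_eq_mul] at h4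
    have h5 := h.ne' l
    have h5' := h.ne k
    have h6 : (1 - t * (d' l * d k)) * T (Pi.single k 1) l = 0 := by
      have h7 : (d' l * d k) * ((d' l)⁻¹ * ((d k)⁻¹ * T (Pi.single k 1) l)) =
          (d' l * d k) * (t * T (Pi.single k 1) l) := by rw [h4]
      have h8 : (d' l * d k) * ((d' l)⁻¹ * ((d k)⁻¹ * T (Pi.single k 1) l)) = T (Pi.single k 1) l := by
        field_simp
      rw [h8] at h7
      linear_combination h7
    rcases mul_eq_zero.1 h6 with h7 | h7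
    · exact (sub_eq_zero.1 h7).symm
    · exact absurd h7 hl
  choose π hπ using hk
  refine ⟨π, fun k k' => ?_⟩
  have ht0 : t ≠ 0 := by
    rintro rfl
    have h1 := hπ k
    rw [zero_mul] at h1
    exact zero_ne_one h1
  exact mul_left_cancel₀ ht0 ((hπ k).trans (hπ k').symm)

end Pool.Agent.H34V
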