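import Pool.Agent.Lib.H34V.N04
import Pool.Agent.Lib.H34V.V11

/-!
# N05: no isomorphisms between different blocks (port of H34Z/M05)
-/

set_option autoImplicit false
set_option linter.unusedSectionVars false
namespace Pool.Agent.H34V
open Module Matrix Pool.Agent.H53Toric Pool.Agent.H76P Pool.Agent.H34Z
open Pool.Agent.H76U (cmp preL Lb Split4)
open Pool.Agent.H76Y (LcN)
open Pool.Agent.H76RM (zar_commute zlie_commute)

variable {ι : Type*} [Fintype ι] [DecidableEq ι] {K : Type*} [Field K] [CharZero K] [IsAlgClosed K]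
  {J u : Matrix ι ι K} {DD : Submodule K (Matrix ι ι K)} {S 𝓗 : Set (Matrix ι ι K)} {x : Matrix ι ι K}
  {B : Type*} [Fintype B] [DecidableEq B] {bar : B → B} {e : B → Matrix ι ι K} {n : B → ℕ}
  {U : ∀ b, Matrix ι (Fin (n b)) K} {V : ∀ b, Matrix (Fin (n b)) ι K} {d : ∀ b, Fin (n b) → K}

/-- The matrix of a bijective map has an inverse. -/
theorem mat_inv {k l : ℕ} {T : (Fin k → K) →ₗ[K] (Fin l → K)} (hb : Function.Bijective T) :
    k = l ∧ ∃ (M : Matrix (Fin l) (Fin k) K) (M' : Matrix (Fin k) (Fin l) K),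
      (∀ v, T v = M *ᵥ v) ∧ M * M' = 1 ∧ M' * M = 1 := by
  let E := LinearEquiv.ofBijective T hb
  refine ⟨?_, LinearMap.toMatrix' T, LinearMap.toMatrix' E.symm.toLinearMap, ?_, ?_, ?_⟩
  · have h1 := E.finrank_eq
    rwa [Module.finrank_fintype_fun_eq_card, Module.finrank_fintype_fun_eq_card, Fintype.card_fin,
      Fintype.card_fin] at h1
  · intro v
    rw [← Matrix.toLin'_apply, Matrix.toLin'_toMatrix']
  · rw [← LinearMap.toMatrix'_comp, ← LinearMap.toMatrix'_id]
    congr 1
    refine LinearMap.ext fun v => ?_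
    exact E.apply_symm_apply v
  · rw [← LinearMap.toMatrix'_comp, ← LinearMap.toMatrix'_id]
    congr 1
    refine LinearMap.ext fun v => ?_
    exact E.symm_apply_apply v

namespace Sit5
variable (g : Sit5 J u DD S 𝓗 x bar e n U V d)
include g

/-- A matrix which commutes with all projectors is in `DD`. -/
theorem mem_DD {Z : Matrix ι ι K} (hZ : ∀ h ∈ 𝓗, Z * h = h * Z) : Z ∈ DD := by
  refine g.commt Z fun s hs => ?_
  have key : ∀ y ∈ (Submonoid.closure (par 𝓗) : Set (Matrix ι ι K)), y * Z = Z * y := by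
    intro y hy
    refine Submonoid.closure_induction (motive := fun y _ => y * Z = Z * y) ?_ ?_ ?_ hy
    · rintro _ ⟨h, hh, t, ht, rfl⟩
      rw [add_mul, mul_add, one_mul, mul_one, smul_mul_assoc, mul_smul_comm, hZ h hh]
    · rw [one_mul, mul_one]
    · intro a c _ _ ha hc
      rw [mul_assoc, hc, ← mul_assoc, ha, mul_assoc]
  exact (zar_commute key (g.gen hs)).symm

/-- The block of `2 h - 1` minus its mean value. -/
theorem pb_shf (b : B) (h : Matrix ι ι K) :
    pb (U b) (V b) ((2 : K) • h - 1) - shf h (e b) (n b) • 1 =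
      phi ((2 : K) • (V b * h * U b - (((h * e b).rank : K) / (n b : K)) • 1)) := by
  rw [map_sub, map_smul, pb_one (g.VU b), pb_apply, map_smul, map_sub, map_smul, map_one, shf]
  module

/-- PROOF. The argument of `Sit.no_iso` if all ranks are equal; otherwise `twi` and `Gz.perm`. -/
theorem no_iso {b c : B} (hbc : c ≠ b) (hbc' : c ≠ bar b) (hb2 : 2 ≤ n b)
    (hgr : ∀ A ∈ brk J S, pb (U b) (V b) A = 0 ↔ pb (U c) (V c) A = 0)
    {T : (Fin (n b) → K) →ₗ[K] (Fin (n c) → K)} (hb : Function.Bijective T)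
    (hT : ∀ p ∈ pr2 J S (U b) (V b) (U c) (V c), ∀ v, T (p.1 v) = p.2 (T v)) : False := by
  obtain ⟨hn, M, M', hM, hMM, hMM'⟩ := mat_inv hb
  rcases g.twi b c hbc hbc' hb2 hn.symm with hall | hno
  swap
  · have : Nonempty (Fin (n c)) := ⟨⟨0, g.pos c⟩⟩
    obtain ⟨π, hπ⟩ := (g.gz hgr).perm (g.irr c) hb hT
    obtain ⟨k, k', hk⟩ := hno π
    exact hk (hπ k k')
  have hcomm : ∀ h ∈ 𝓗, M * (V b * h * U b) = V c * h * U c * M := by
    intro h hh
    have h3 := hT _ (g.y_pair hgr hh)
    simp only [g.pb_shf] at h3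
    have h4 : M * (V b * h * U b - (((h * e b).rank : K) / (n b : K)) • 1) =
        (V c * h * U c - (((h * e c).rank : K) / (n c : K)) • 1) * M := by
      refine smul_right_injective _ (two_ne_zero (α := K)) ?_
      change (2 : K) • _ = (2 : K) • _
      rw [← Matrix.mul_smul, ← Matrix.smul_mul]
      refine Matrix.toLin'.injective (LinearMap.ext fun v => ?_)
      have h5 := h3 v
      simp only [phi_apply, hM] at h5
      rw [Matrix.toLin'_apply, Matrix.toLin'_apply, ← Matrix.mulVec_mulVec v M, h5, Matrix.mulVec_mulVec]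
    have hn' : (n b : K) = (n c : K) := by rw [hn]
    rw [Matrix.mul_sub, Matrix.mul_smul, Matrix.mul_one, Matrix.sub_mul, Matrix.smul_mul, Matrix.one_mul,
      hall h hh, hn'] at h4
    exact sub_left_injective h4
  have hZ : U c * M * V b ∈ DD := by
    refine g.mem_DD fun h hh => ?_
    have h1 : V b * h = V b * h * U b * V b := by
      have h3 := g.zD (g.hz h hh) (g.spl.mem b)
      calc V b * h = V b * e b * h := by rw [g.Ve b]
        _ = V b * (e b * h) := by rw [Matrix.mul_assoc]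
        _ = V b * (h * (U b * V b)) := by rw [← h3, g.UV b]
        _ = V b * h * U b * V b := by simp only [Matrix.mul_assoc]
    have h2 : h * U c = U c * (V c * h * U c) := by
      have h3 := g.zD (g.hz h hh) (g.spl.mem c)
      calc h * U c = h * (e c * U c) := by rw [g.eU c]
        _ = h * e c * U c := by rw [Matrix.mul_assoc]
        _ = U c * V c * h * U c := by rw [h3, g.UV c]
        _ = U c * (V c * h * U c) := by simp only [Matrix.mul_assoc]
    calc U c * M * V b * h = U c * M * (V b * h) := by rw [Matrix.mul_assoc]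
      _ = U c * M * (V b * h * U b * V b) := by rw [← h1]
      _ = U c * (M * (V b * h * U b)) * V b := by simp only [Matrix.mul_assoc]
      _ = U c * (V c * h * U c * M) * V b := by rw [hcomm h hh]
      _ = U c * (V c * h * U c) * M * V b := by simp only [Matrix.mul_assoc]
      _ = h * U c * M * V b := by rw [← h2]
      _ = h * (U c * M * V b) := by simp only [Matrix.mul_assoc]
  have h0 := g.spl.orth c b hbc _ hZ
  have h1 : e c * (U c * M * V b) * e b = U c * M * V b := by
    calc e c * (U c * M * V b) * e b = e c * U c * M * (V b * e b) := by simp only [Matrix.mul_assoc]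
      _ = U c * M * V b := by rw [g.eU c, g.Ve b]
  rw [h1] at h0
  have h2 : M = 0 := by
    calc M = V c * U c * M * (V b * U b) := by rw [g.VU c, g.VU b, Matrix.one_mul, Matrix.mul_one]
      _ = V c * (U c * M * V b) * U b := by simp only [Matrix.mul_assoc]
      _ = 0 := by rw [h0, Matrix.mul_zero, Matrix.zero_mul]
  rw [h2, Matrix.mul_zero] at hMM'
  have h3 := congrFun (congrFun hMM' ⟨0, g.pos b⟩) ⟨0, g.pos b⟩
  rw [Matrix.one_apply_eq] at h3
  exact zero_ne_one h3

/-- The matrix identity for a dual isomorphism. -/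
theorem dual_mat {b c : B} (hgr : ∀ A ∈ brk J S, pb (U b) (V b) A = 0 ↔ pb (U c) (V c) A = 0)
    {T : (Fin (n b) → K) →ₗ[K] (Fin (n c) → K)} {M : Matrix (Fin (n c)) (Fin (n b)) K} (hM : ∀ v, T v = M *ᵥ v)
    (hT : ∀ p ∈ pr2 J S (U b) (V b) (U c) (V c), ∀ v, T (adjE (1 : Matrix (Fin (n b)) (Fin (n b)) K) p.1 v) = -p.2 (T v))
    {h : Matrix ι ι K} (hh : h ∈ 𝓗) :
    M * (V b * h * U b)ᵀ = (1 - V c * h * U c) * M +
      (((h * e b).rank : K) / (n b : K) + ((h * e c).rank : K) / (n c : K) - 1) • M := by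
  have h3 := hT _ (g.y_pair hgr hh)
  simp only [g.pb_shf] at h3
  have h4 : M * (V b * h * U b - (((h * e b).rank : K) / (n b : K)) • 1)ᵀ =
      -((V c * h * U c - (((h * e c).rank : K) / (n c : K)) • 1) * M) := by
    refine smul_right_injective _ (two_ne_zero (α := K)) ?_
    change (2 : K) • _ = (2 : K) • _
    rw [← Matrix.mul_smul, ← Matrix.transpose_smul, smul_neg, ← Matrix.smul_mul]
    refine Matrix.toLin'.injective (LinearMap.ext fun v => ?_)
    have h5 := h3 v
    simp only [adjE_phi, phi_apply, hM, inv_one, Matrix.one_mul, Matrix.mul_one] at h5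
    rw [Matrix.toLin'_apply, Matrix.toLin'_apply, ← Matrix.mulVec_mulVec v M, Matrix.neg_mulVec, h5, Matrix.mulVec_mulVec]
  rw [Matrix.transpose_sub, Matrix.transpose_smul, Matrix.transpose_one, Matrix.mul_sub, Matrix.mul_smul, Matrix.mul_one,
    Matrix.sub_mul, Matrix.smul_mul, Matrix.one_mul, sub_eq_iff_eq_add] at h4
  rw [h4, Matrix.sub_mul, Matrix.one_mul]
  module

/-- PROOF. The argument of `Sit.no_dual` if all sums of ranks are `n b`; otherwise `twd` and `Gz.perm_dual`. -/
theorem no_dual {b c : B} (hbc : c ≠ b) (hbc' : c ≠ bar b) (hb2 : 2 ≤ n b)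
    (hgr : ∀ A ∈ brk J S, pb (U b) (V b) A = 0 ↔ pb (U c) (V c) A = 0)
    {T : (Fin (n b) → K) →ₗ[K] (Fin (n c) → K)} (hb : Function.Bijective T)
    (hT : ∀ p ∈ pr2 J S (U b) (V b) (U c) (V c), ∀ v, T (adjE (1 : Matrix (Fin (n b)) (Fin (n b)) K) p.1 v) = -p.2 (T v)) :
    False := by
  obtain ⟨hn, M, M', hM, hMM, hMM'⟩ := mat_inv hb
  rcases g.twd b c hbc hbc' hb2 hn.symm with hall | hno
  swap
  · have : Nonempty (Fin (n c)) := ⟨⟨0, g.pos c⟩⟩
    obtain ⟨π, hπ⟩ := (g.gz hgr).perm_dual (g.irr c) hb hT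
    obtain ⟨k, k', hk⟩ := hno π
    exact hk (hπ k k')
  have hcomm : ∀ h ∈ 𝓗, M * (V b * h * U b)ᵀ = M - V c * h * U c * M := by
    intro h hh
    have h3 := g.dual_mat hgr hM hT hh
    have h4 : ((h * e b).rank : K) / (n b : K) + ((h * e c).rank : K) / (n c : K) - 1 = 0 := by
      have hn0 : (n b : K) ≠ 0 := Nat.cast_ne_zero.2 (g.pos b).ne'
      have hn' : (n c : K) = (n b : K) := by rw [hn]
      rw [hn', ← add_div, sub_eq_zero, div_eq_one_iff_eq hn0]
      exact_mod_cast hall h hh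
    rw [h3, h4, zero_smul, add_zero, Matrix.sub_mul, Matrix.one_mul]
  have hcommy : ∀ h ∈ 𝓗, U c * M * (U b)ᵀ * (J * u) * ((2 : K) • h - 1) = ((2 : K) • h - 1) * (U c * M * (U b)ᵀ * (J * u)) := by
    intro h hh
    have h2 : M * (V b * ((2 : K) • h - 1) * U b)ᵀ = -(V c * ((2 : K) • h - 1) * U c * M) := by
      have h3 := hcomm h hh
      have h4 : V b * ((2 : K) • h - 1) * U b = (2 : K) • (V b * h * U b) - 1 := by
        rw [Matrix.mul_sub, Matrix.sub_mul, Matrix.mul_smul, Matrix.smul_mul, Matrix.mul_one, g.VU b]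
      have h5 : V c * ((2 : K) • h - 1) * U c = (2 : K) • (V c * h * U c) - 1 := by
        rw [Matrix.mul_sub, Matrix.sub_mul, Matrix.mul_smul, Matrix.smul_mul, Matrix.mul_one, g.VU c]
      rw [h4, h5, Matrix.transpose_sub, Matrix.transpose_smul, Matrix.transpose_one, Matrix.mul_sub, Matrix.mul_smul, h3,
        Matrix.mul_one, Matrix.sub_mul, Matrix.smul_mul, Matrix.one_mul]
      module
    generalize hy : (2 : K) • h - 1 = y
    have hcy : ∀ a, y * e a = e a * y := fun a => by
      rw [← hy, sub_mul, mul_sub, one_mul, mul_one, smul_mul_assoc, mul_smul_comm, g.zD (g.hz h hh) (g.spl.mem a)]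
    have hyU : ∀ a, y * U a = U a * (V a * y * U a) := fun a => by
      calc y * U a = y * (e a * U a) := by rw [g.eU a]
        _ = y * e a * U a := by rw [Matrix.mul_assoc]
        _ = U a * V a * y * U a := by rw [hcy a, g.UV a]
        _ = U a * (V a * y * U a) := by simp only [Matrix.mul_assoc]
    have h1 := g.yskew hh
    rw [hy] at h1 h2
    have h3 : J * u * y = -(yᵀ * (J * u)) := (neg_eq_of_add_eq_zero_right h1).symm
    have h4 : (U b)ᵀ * (J * u) * y = -((V b * y * U b)ᵀ * (U b)ᵀ * (J * u)) := by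
      rw [Matrix.mul_assoc, h3, Matrix.mul_neg, ← Matrix.mul_assoc, ← Matrix.transpose_mul, hyU b, Matrix.transpose_mul]
    calc U c * M * (U b)ᵀ * (J * u) * y = U c * M * ((U b)ᵀ * (J * u) * y) := by simp only [Matrix.mul_assoc]
      _ = -(U c * (M * (V b * y * U b)ᵀ) * ((U b)ᵀ * (J * u))) := by rw [h4, Matrix.mul_neg]; simp only [Matrix.mul_assoc]
      _ = U c * (V c * y * U c) * (M * ((U b)ᵀ * (J * u))) := by
        rw [h2, Matrix.mul_neg, Matrix.neg_mul, neg_neg]; simp only [Matrix.mul_assoc]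
      _ = y * (U c * M * (U b)ᵀ * (J * u)) := by rw [← hyU c]; simp only [Matrix.mul_assoc]
  have hZ : U c * M * (U b)ᵀ * (J * u) ∈ DD := by
    refine g.mem_DD fun h hh => ?_
    have h1 := hcommy h hh
    rw [mul_sub, sub_mul, mul_one, one_mul, mul_smul_comm, smul_mul_assoc] at h1
    exact smul_right_injective _ (two_ne_zero (α := K)) (sub_left_injective h1)
  have h0 := g.spl.orth c (bar b) hbc' _ hZ
  have h3 : (U b)ᵀ * (J * u) * e (bar b) = (U b)ᵀ * (J * u) := by
    rw [Matrix.mul_assoc, ← g.spl.adj b, ← Matrix.mul_assoc, ← Matrix.transpose_mul, g.eU b]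
  have h1 : e c * (U c * M * (U b)ᵀ * (J * u)) * e (bar b) = U c * M * (U b)ᵀ * (J * u) := by
    calc e c * (U c * M * (U b)ᵀ * (J * u)) * e (bar b) = e c * U c * M * ((U b)ᵀ * (J * u) * e (bar b)) := by simp only [Matrix.mul_assoc]
      _ = U c * M * (U b)ᵀ * (J * u) := by rw [h3, g.eU c]; simp only [Matrix.mul_assoc]
  rw [h1] at h0
  have h2 : M = 0 := by
    calc M = V c * U c * M * (V b * U b)ᵀ := by rw [g.VU c, g.VU b, Matrix.transpose_one, Matrix.one_mul, Matrix.mul_one]
      _ = V c * (U c * M * (U b)ᵀ * (J * u)) * (J * u)⁻¹ * (V b)ᵀ := by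
        have h5 : (J * u) * (J * u)⁻¹ = 1 := Matrix.mul_nonsing_inv _ g.det'
        rw [Matrix.transpose_mul]
        calc V c * U c * M * ((U b)ᵀ * (V b)ᵀ) = V c * U c * M * (U b)ᵀ * (1 : Matrix ι ι K) * (V b)ᵀ := by rw [Matrix.mul_one]; simp only [Matrix.mul_assoc]
          _ = V c * U c * M * (U b)ᵀ * ((J * u) * (J * u)⁻¹) * (V b)ᵀ := by rw [h5]
          _ = _ := by simp only [Matrix.mul_assoc]
      _ = 0 := by rw [h0, Matrix.mul_zero, Matrix.zero_mul, Matrix.zero_mul]
  rw [h2, Matrix.mul_zero] at hMM'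
  have h5 := congrFun (congrFun hMM' ⟨0, g.pos b⟩) ⟨0, g.pos b⟩
  rw [Matrix.one_apply_eq] at h5
  exact zero_ne_one h5

end Sit5

end Pool.Agent.H34V
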