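import Pool.Agent.Lib.H34V.V01
import Pool.Agent.Lib.H34Z.A01
import Pool.Agent.Lib.H34Z.A06

/-!
# V04: a symplectic block and a linear block
-/

set_option autoImplicit false
set_option linter.unusedSectionVars false
namespace Pool.Agent.H34V
open Module Matrix Pool.Agent.H53Toric Pool.Agent.H76P Pool.Agent.H34Z

variable {κ κ' : Type*} [Fintype κ] [DecidableEq κ] [Fintype κ'] [DecidableEq κ'] {K : Type*} [Field K] [CharZero K]
  {𝓛 : Submodule K (Module.End K (κ → K) × Module.End K (κ' → K))}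
  {L : Submodule K (Module.End K (κ → K))} {L' : Submodule K (Module.End K (κ' → K))}
  {d ε : κ → K} {d' ε' : κ' → K}

theorem v04_sub (f g : κ → K) : dg f - dg g = (dg (f - g) : Module.End K (κ → K)) := by
  refine LinearMap.ext fun v => funext fun a => ?_
  rw [LinearMap.sub_apply, Pi.sub_apply, dg_apply, dg_apply, dg_apply, Pi.sub_apply, sub_mul]

theorem v04_sum {ι : Type*} (T : Finset ι) (f : ι → κ → K) : ∑ i ∈ T, dg (f i) = (dg (∑ i ∈ T, f i) : Module.End K (κ → K)) := by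
  refine LinearMap.ext fun v => funext fun a => ?_
  rw [LinearMap.sum_apply, Finset.sum_apply, dg_apply, Finset.sum_apply, Finset.sum_mul]
  exact Finset.sum_congr rfl fun i _ => dg_apply _ _ _

theorem v04_inj {f : κ → K} (h : (dg f : Module.End K (κ → K)) = 0) : f = 0 := by
  funext a
  have h1 := congrFun (LinearMap.congr_fun h (fun _ => 1)) a
  rw [dg_apply, mul_one] at h1
  exact h1

theorem v04_nat {T : Finset κ} {g : κ → K} (h : ∀ i ∈ T, g i = 0 ∨ g i = 1) :
    ∃ N : ℕ, ∑ i ∈ T, g i = (N : K) ∧ (N = 0 → ∀ i ∈ T, g i = 0) := by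
  classical
  refine ⟨(T.filter fun i => g i = 1).card, ?_, ?_⟩
  · rw [← Finset.sum_boole]
    refine Finset.sum_congr rfl fun i hi => ?_
    rcases h i hi with h0 | h0
    · rw [h0, if_neg zero_ne_one]
    · rw [h0, if_pos rfl]
  · intro h1 i hi
    rcases h i hi with h0 | h0
    · exact h0
    · exfalso
      have h2 : i ∈ T.filter fun i => g i = 1 := Finset.mem_filter.2 ⟨hi, h0⟩
      rw [Finset.card_eq_zero.1 h1] at h2
      exact absurd h2 (Finset.notMem_empty i)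

/-- PROOF. `dg_skew`: `ε (π i) - c = -(ε i - c)`, so `ε i + ε (π i) = 2 c` for all `i`.  The left side is `2`, `0` or `-2`.  If `c = 1` then `ε i = 1` for all `i`; if `c = -1` then
`ε i = -1` for all `i`; both are excluded by `hne`. -/
theorem form_zero {J : Matrix κ κ K} {π : κ → κ} (hdet : IsUnit J.det) (hm : Mon J π)
    {c : K} (hε : adjE J (dg (fun k => ε k - c)) = -dg (fun k => ε k - c)) (hv : ∀ k, ε k = 1 ∨ ε k = -1)
    (hne : (∃ k, ε k = 1) ∧ ∃ k, ε k = -1) : c = 0 := by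
  have h1 := (dg_skew hm hdet _).1 hε
  obtain ⟨⟨k, hk⟩, l, hl⟩ := hne
  have h2 := h1 k
  have h3 := h1 l
  rw [hk] at h2
  rw [hl] at h3
  rcases hv (π k) with h4 | h4
  · rcases hv (π l) with h5 | h5
    · rw [h5] at h3
      have h6 : (2 : K) * c = 0 := by linear_combination -h3
      exact (mul_eq_zero.1 h6).resolve_left two_ne_zero
    · rw [h4] at h2
      rw [h5] at h3
      exfalso
      have h6 : (4 : K) = 0 := by linear_combination h2 - h3
      norm_num at h6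
  · rw [h4] at h2
    have h6 : (2 : K) * c = 0 := by linear_combination -h2
    exact (mul_eq_zero.1 h6).resolve_left two_ne_zero

/-- PROOF. `T = {i | ε i = 1}`, `h i = 1_i - 1_(π i)` (`ε (π i) = -ε i` by `dg_skew`); `(dg (h i), dg (g i)) ∈ 𝓛` (`dg_skew`, `h.fst`, `Gz.diag`; choose `g i : κ' → K`).  By `cor_s` and `Gz.cor`
(with `c = 0`): `g i k ∈ {0, 1}` if `ε' k = 1`, `∈ {0, -1}` if `ε' k = -1`.  `ε = ∑ i ∈ T, h i` (`dec_pi`), so `ε' - c' = ∑ i ∈ T, g i` (`h.right`).  Let `ε' k = 1`, `ε' l = -1`: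
`1 - c' = ∑ g i k = N`, `-1 - c' = ∑ g i l = -N'` with natural numbers `N`, `N'`; so `N + N' = 2`.  If `N = N' = 1` then `c' = 0`.  If `N = 0` then `g i k = 0` for all `i ∈ T`, so
`g' k = 0` for all diagonal pairs (`g = ∑ i ∈ T, g i • h i` by `dec_pi`); but `dg (1_k - 1_l) ∈ L'` (`hL'`, `trace_dg`), it belongs to a diagonal pair (`h.symm.diag`) and
has the value `1` at `k`.  The same for `N' = 0` and `l`. -/
theorem s_zero (h : Gz 𝓛 L L' d d') {J : Matrix κ κ K} {π : κ → κ} (hJ : Jᵀ = -J) (hdet : IsUnit J.det) (hm : Mon J π)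
    (hL : ∀ X, X ∈ L ↔ adjE J X = -X) (hL' : ∀ X, X ∈ L' ↔ LinearMap.trace K (κ' → K) X = 0)
    {c' : K} (hε : (dg ε, dg (fun k => ε' k - c')) ∈ 𝓛) (hv : ∀ k, ε k = 1 ∨ ε k = -1) (hv' : ∀ k, ε' k = 1 ∨ ε' k = -1)
    (hne' : (∃ k, ε' k = 1) ∧ ∃ k, ε' k = -1) : c' = 0 := by
  have hinv := hm.inv
  have hg : ∀ g : κ → K, dg g ∈ L ↔ ∀ i, g (π i) = -g i := fun g => (hL _).trans (dg_skew hm hdet g)
  have hεL : dg ε ∈ L := (h.fst _).2 ⟨_, hε⟩
  have hεπ : ∀ i, ε (π i) = -ε i := (hg ε).1 hεL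
  obtain ⟨T, hTd⟩ : ∃ T : Finset κ, ∀ i, i ∈ T ↔ ε i = 1 := by
    classical
    exact ⟨Finset.univ.filter fun i => ε i = 1, fun i => by simp⟩
  have h11 : (1 : K) ≠ -1 := fun h => two_ne_zero (α := K) (by linear_combination h)
  have hT : ∀ i, i ∈ T ↔ π i ∉ T := by
    intro i
    rw [hTd, hTd, hεπ]
    rcases hv i with h1 | h1
    · rw [h1]
      exact ⟨fun _ h => h11 h.symm, fun _ => rfl⟩
    · rw [h1, neg_neg]
      exact ⟨fun h => absurd h.symm h11, fun h => absurd rfl h⟩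
  have hh : ∀ i : κ, dg (Pi.single i 1 - Pi.single (π i) 1 : κ → K) ∈ L := by
    intro i
    rw [hg]
    intro k
    rw [Pi.sub_apply, Pi.sub_apply]
    have e1 : (Pi.single i 1 : κ → K) (π k) = (Pi.single (π i) 1 : κ → K) k := by
      by_cases h1 : π k = i
      · have h2 : k = π i := by rw [← h1, hinv]
        rw [h1, h2, Pi.single_eq_same, Pi.single_eq_same]
      · have h2 : k ≠ π i := fun h3 => h1 (by rw [h3, hinv])
        rw [Pi.single_eq_of_ne h1, Pi.single_eq_of_ne h2]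
    have e2 : (Pi.single (π i) 1 : κ → K) (π k) = (Pi.single i 1 : κ → K) k := by
      by_cases h1 : k = i
      · rw [h1, Pi.single_eq_same, Pi.single_eq_same]
      · have h2 : π k ≠ π i := fun h3 => h1 (by rw [← hinv k, h3, hinv])
        rw [Pi.single_eq_of_ne h1, Pi.single_eq_of_ne h2]
    rw [e1, e2, neg_sub]
  have hex : ∀ i : κ, ∃ g' : κ' → K, (dg (Pi.single i 1 - Pi.single (π i) 1 : κ → K), dg g') ∈ 𝓛 := by
    intro i
    obtain ⟨X', hX'⟩ := (h.fst _).1 (hh i)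
    obtain ⟨g', rfl⟩ := h.diag hX'
    exact ⟨g', hX'⟩
  choose g hgp using hex
  have hsum : ∀ f : κ → K, (∀ i, f (π i) = -f i) → (dg f, dg (∑ i ∈ T, f i • g i)) ∈ 𝓛 := by
    intro f hfi
    have h1 : ∑ i ∈ T, f i • ((dg (Pi.single i 1 - Pi.single (π i) 1 : κ → K) : Module.End K (κ → K)),
        (dg (g i) : Module.End K (κ' → K))) ∈ 𝓛 :=
      Submodule.sum_mem _ fun i _ => 𝓛.smul_mem _ (hgp i)
    have h2 : ∑ i ∈ T, f i • ((dg (Pi.single i 1 - Pi.single (π i) 1 : κ → K) : Module.End K (κ → K)),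
        (dg (g i) : Module.End K (κ' → K))) = (dg f, dg (∑ i ∈ T, f i • g i)) := by
      refine Prod.ext ?_ ?_
      · rw [Prod.fst_sum]
        simp only [Prod.smul_fst, ← dg_smul]
        rw [v04_sum]
        exact congrArg dg (dec_pi hinv hT hfi).symm
      · rw [Prod.snd_sum]
        simp only [Prod.smul_snd, ← dg_smul]
        rw [v04_sum]
    rwa [h2] at h1
  have hfun : ∀ (f : κ → K) (f' : κ' → K), (dg f, dg f') ∈ 𝓛 → f' = ∑ i ∈ T, f i • g i := by
    intro f f' hff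
    have hfL : dg f ∈ L := (h.fst _).2 ⟨_, hff⟩
    have h1 := 𝓛.sub_mem hff (hsum f ((hg f).1 hfL))
    rw [Prod.mk_sub_mk, sub_self] at h1
    have h2 := h.right _ h1
    rw [v04_sub] at h2
    exact sub_eq_zero.1 (v04_inj h2)
  have hcor : ∀ i ∈ T, ∀ k, (ε' k = 1 → g i k = 0 ∨ g i k = 1) ∧ (ε' k = -1 → g i k = 0 ∨ g i k = -1) := by
    intro i hi k
    have h1 := (hTd i).1 hi
    have h2 : (dg (fun k => ε k - 0), dg (fun k => ε' k - c')) ∈ 𝓛 := by
      simp only [sub_zero]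
      exact hε
    exact h.cor h2 hv' (cor_s hJ hdet hm (fun X hX => (hL X).2 hX) h1 (by rw [hεπ, h1])) (hgp i) k
  have hval : ∀ k, ε' k - c' = ∑ i ∈ T, g i k := by
    intro k
    have h1 : ε' k - c' = (∑ i ∈ T, ε i • g i) k := congrFun (hfun ε _ hε) k
    rw [h1, Finset.sum_apply]
    refine Finset.sum_congr rfl fun i hi => ?_
    rw [Pi.smul_apply, (hTd i).1 hi, smul_eq_mul, one_mul]
  obtain ⟨⟨k, hk⟩, l, hl⟩ := hne'
  have hkl : k ≠ l := by
    rintro rfl
    rw [hk] at hl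
    exact h11 hl
  obtain ⟨f, hf⟩ : ∃ f : κ → K, (dg f, dg (Pi.single k 1 - Pi.single l 1 : κ' → K)) ∈ 𝓛 := by
    have h1 : dg (Pi.single k 1 - Pi.single l 1 : κ' → K) ∈ L' := by
      rw [hL', Pool.Agent.H34Z.trace_dg]
      simp only [Pi.sub_apply, Finset.sum_sub_distrib, Finset.sum_pi_single', Finset.mem_univ, if_true, sub_self]
    obtain ⟨X, hX⟩ := (h.snd _).1 h1
    obtain ⟨f, rfl⟩ := h.symm.diag hX
    exact ⟨f, hX⟩
  have hf1 := hfun f _ hf
  obtain ⟨N, hN, hN0⟩ := v04_nat (T := T) (g := fun i => g i k) (fun i hi => (hcor i hi k).1 hk)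
  obtain ⟨N', hN', hN0'⟩ := v04_nat (T := T) (g := fun i => -g i l) (fun i hi => by
    rcases (hcor i hi l).2 hl with h1 | h1
    · left; rw [h1, neg_zero]
    · right; rw [h1, neg_neg])
  have e1 := hval k
  have e2 := hval l
  rw [Finset.sum_neg_distrib, ← e2, hl] at hN'
  rw [← e1, hk] at hN
  have e3 : ((N + N' : ℕ) : K) = ((2 : ℕ) : K) := by
    push_cast
    rw [← hN, ← hN']
    ring
  have e4 : N + N' = 2 := by exact_mod_cast e3
  have hNne : N ≠ 0 := by
    intro h0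
    have h1 := congrFun hf1 k
    rw [Finset.sum_apply, Pi.sub_apply, Pi.single_eq_same, Pi.single_eq_of_ne hkl, sub_zero] at h1
    rw [Finset.sum_eq_zero (fun i hi => by rw [Pi.smul_apply, hN0 h0 i hi, smul_zero])] at h1
    exact one_ne_zero h1
  have hNne' : N' ≠ 0 := by
    intro h0
    have h1 := congrFun hf1 l
    rw [Finset.sum_apply, Pi.sub_apply, Pi.single_eq_same, Pi.single_eq_of_ne (Ne.symm hkl), zero_sub] at h1
    rw [Finset.sum_eq_zero (fun i hi => by rw [Pi.smul_apply, neg_eq_zero.1 (hN0' h0 i hi), smul_zero])] at h1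
    exact one_ne_zero (neg_eq_zero.1 h1)
  have hN1 : N = 1 := by omega
  rw [hN1, Nat.cast_one] at hN
  linear_combination -hN

end Pool.Agent.H34V
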