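import Mathlib

/-!
# V05: combinatorics for an orthogonal block and a linear block
-/

set_option autoImplicit false
set_option linter.unusedSectionVars false
namespace Pool.Agent.H34V
open Finset

variable {κ : Type*} [DecidableEq κ] {K : Type*} [Field K] [CharZero K]

/-- PROOF. As `H34Z.comb_o` (H34Z/A05.lean).  For different `i, j, k ∈ T`: `2 lam i = (lam i + lam j) + (lam i + lam k) - (lam j + lam k)` is in `{-1, 0, 1, 2}`.
(a) If `lam i ∈ {0, 1}` for some `i ∈ T` then for `j ≠ i`: `lam j ∈ {-1, 0, 1}` and `2 lam j ∈ {-1, 0, 1, 2}`, so `lam j ∈ {0, 1}`; two of them are not both `1`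
(`lam i + lam j = 2`): first alternative (all zero) or second alternative (exactly one is `1`).
(b) Otherwise all `lam i ∈ {1/2, -1/2}`, at most one is `-1/2`: third (all `1/2`) or fourth alternative (exactly one `-1/2`). -/
theorem comb_four {T : Finset κ} {lam : κ → K} (h : ∀ i ∈ T, ∀ j ∈ T, i ≠ j → lam i + lam j = 0 ∨ lam i + lam j = 1)
    (h3 : 3 ≤ T.card) :
    (∀ i ∈ T, lam i = 0) ∨ (∃ i₀ ∈ T, lam i₀ = 1 ∧ ∀ i ∈ T, i ≠ i₀ → lam i = 0) ∨
    (∀ i ∈ T, lam i = 1 / 2) ∨ ∃ i₀ ∈ T, lam i₀ = -1 / 2 ∧ ∀ i ∈ T, i ≠ i₀ → lam i = 1 / 2 := by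
  classical
  have hA : ∀ i ∈ T, 2 * lam i = -1 ∨ 2 * lam i = 0 ∨ 2 * lam i = 1 ∨ 2 * lam i = 2 := by
    intro i hi
    have h5 : 0 < (T.erase i).card := by
      rw [card_erase_of_mem hi]
      omega
    obtain ⟨j, hj⟩ := card_pos.1 h5
    have h6 : 0 < ((T.erase i).erase j).card := by
      rw [card_erase_of_mem hj, card_erase_of_mem hi]
      omega
    obtain ⟨k, hk⟩ := card_pos.1 h6
    rw [mem_erase] at hj
    rw [mem_erase, mem_erase] at hk
    have e1 := h i hi j hj.2 (Ne.symm hj.1)
    have e2 := h i hi k hk.2.2 (Ne.symm hk.2.1)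
    have e3 := h j hj.2 k hk.2.2 (Ne.symm hk.1)
    have e : 2 * lam i = (lam i + lam j) + (lam i + lam k) - (lam j + lam k) := by ring
    rcases e1 with e1 | e1 <;> rcases e2 with e2 | e2 <;> rcases e3 with e3 | e3 <;>
      rw [e1, e2, e3] at e
    · right; left; rw [e]; ring
    · left; rw [e]; ring
    · right; right; left; rw [e]; ring
    · right; left; rw [e]; ring
    · right; right; left; rw [e]; ring
    · right; left; rw [e]; ring
    · right; right; right; rw [e]; ring
    · right; right; left; rw [e]; ring
  by_cases ha : ∃ i ∈ T, lam i = 0 ∨ lam i = 1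
  · obtain ⟨i, hi, hi01⟩ := ha
    have hall : ∀ j ∈ T, lam j = 0 ∨ lam j = 1 := by
      intro j hj
      by_cases hij : j = i
      · rw [hij]
        exact hi01
      · have e1 := h i hi j hj (Ne.symm hij)
        have e2 := hA j hj
        have hneg : lam j ≠ -1 := by
          intro h0
          rw [h0] at e2
          rcases e2 with e2 | e2 | e2 | e2 <;> norm_num at e2
        rcases hi01 with h0 | h0 <;> rcases e1 with e1 | e1 <;> rw [h0] at e1
        · left; rwa [zero_add] at e1
        · right; rwa [zero_add] at e1
        · exfalso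
          exact hneg (by linear_combination e1)
        · left; linear_combination e1
    by_cases hc : ∃ i₀ ∈ T, lam i₀ = 1
    · right; left
      obtain ⟨i₀, hi₀, h1⟩ := hc
      refine ⟨i₀, hi₀, h1, fun j hj hne => ?_⟩
      rcases hall j hj with e | e
      · exact e
      · exfalso
        rcases h i₀ hi₀ j hj (Ne.symm hne) with e1 | e1
        · rw [h1, e] at e1
          norm_num at e1
        · rw [h1, e] at e1
          norm_num at e1
    · left
      push Not at hc
      exact fun j hj => (hall j hj).resolve_right (hc j hj)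
  · right; right
    push Not at ha
    have hB : ∀ i ∈ T, lam i = -1 / 2 ∨ lam i = 1 / 2 := by
      intro i hi
      have h01 := ha i hi
      rcases hA i hi with e | e | e | e
      · left
        linear_combination (1 / 2) * e
      · exfalso
        apply h01.1
        linear_combination (1 / 2) * e
      · right
        linear_combination (1 / 2) * e
      · exfalso
        apply h01.2
        linear_combination (1 / 2) * e
    by_cases hc : ∃ i ∈ T, lam i = -1 / 2
    · right
      obtain ⟨i, hi, hi1⟩ := hc
      refine ⟨i, hi, hi1, fun j hj hne => ?_⟩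
      rcases hB j hj with e | e
      · exfalso
        rcases h i hi j hj (Ne.symm hne) with e1 | e1
        · rw [hi1, e] at e1
          norm_num at e1
        · rw [hi1, e] at e1
          norm_num at e1
      · exact e
    · left
      push Not at hc
      exact fun j hj => (hB j hj).resolve_left (hc j hj)

end Pool.Agent.H34V
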