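import Pool.Agent.Lib.H34V.V01
import Pool.Agent.Lib.H34V.V05
import Pool.Agent.Lib.H34Z.A03
import Pool.Agent.Lib.H34Z.A06

/-!
# V06: an orthogonal block and a linear block
-/

set_option autoImplicit false
set_option linter.unusedSectionVars false
namespace Pool.Agent.H34V
open Module Matrix Pool.Agent.H53Toric Pool.Agent.H76P Pool.Agent.H34Z

variable {κ κ' : Type*} [Fintype κ] [DecidableEq κ] [Fintype κ'] [DecidableEq κ'] {K : Type*} [Field K] [CharZero K]
  {𝓛 : Submodule K (Module.End K (κ → K) × Module.End K (κ' → K))}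
  {L : Submodule K (Module.End K (κ → K))} {L' : Submodule K (Module.End K (κ' → K))}
  {d ε : κ → K} {d' ε' : κ' → K}

theorem v06_sum {ι : Type*} (T : Finset ι) (f : ι → κ → K) : dg (∑ i ∈ T, f i) = ∑ i ∈ T, dg (f i) := by
  classical
  induction T using Finset.induction_on with
  | empty =>
    rw [Finset.sum_empty, Finset.sum_empty]
    refine LinearMap.ext fun v => funext fun a => ?_
    simp [dg_apply]
  | insert a s ha ih => rw [Finset.sum_insert ha, Finset.sum_insert ha, dg_add, ih]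

/-- PROOF. `T = {i | ε i = 1}`, `h i = 1_i - 1_(π i)`, `(dg (h i), dg (g i)) ∈ 𝓛` (as in `s_zero`, V04).  By `cor_o`, `Gz.cor` for `h i + h j`, `i ≠ j` in `T`:
`g i k + g j k ∈ {0, 1}` if `ε' k = 1`, `∈ {0, -1}` if `ε' k = -1`.  For each `k` let `lam i = ε' k * g i k`: `comb_four` applies (`2 * T.card = card κ ≥ 6`: `π` is a bijection of `T` and its
complement).  `ε' - c' = ∑ i ∈ T, g i`, so `∑ i ∈ T, lam i = 1 - ε' k * c'`.  Let `m = T.card` (`m ≥ 3`, `m ≠ 4`).  The sum is `0`, `1`, `m / 2` or `m / 2 - 1` in the four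
alternatives.  The first is impossible: `g' k = 0` for all diagonal pairs, see `s_zero`.  So `1 - ε' k * c' ∈ {1, m / 2, m / 2 - 1}` for all `k`.  With `k₁` (`ε' k₁ = 1`) and `k₂`
(`ε' k₂ = -1`): `(1 - c') + (1 + c') = 2` is a sum `x + y` with `x, y ∈ {1, m/2, m/2 - 1}`.  If `x = 1` or `y = 1` then `c' = 0` (done).  Otherwise `2 ∈ {m, m - 1, m - 2}`, so `m = 3`
(`m = 2, 4` excluded) and `{x, y} = {3/2, 1/2}`, `card κ = 6`.
It remains to see `card κ' = 4`.  Say `1 - c' = 3/2` (`c' = -1/2`); for all `k` with `ε' k = 1` the third alternative holds (sum `3/2`, `m = 3`): `g i k = 1/2` for all `i ∈ T`; two such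
`k` have the same value at all diagonal pairs (`dec_pi`), so there is exactly one such `k` (`1_k - 1_l` separates, `hL'`).  For `ε' k = -1` the sum is `1/2`, the fourth alternative:
determined by `i₀ ∈ T`, so at most `3` such `k`.  `∑ (ε' k - c') = 0` (trace): `p - q = c' (p + q)` with the numbers `p = 1`, `q ≤ 3` of the `k` with `ε' k = 1, -1`: `1 - q = -(1 + q) / 2`, `q = 3`.
The case `1 - c' = 1/2` is the same with the signs exchanged. -/
theorem o_zero (h : Gz 𝓛 L L' d d') {J : Matrix κ κ K} {π : κ → κ} (hJ : Jᵀ = J) (hdet : IsUnit J.det) (hm : Mon J π)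
    (hL : ∀ X, X ∈ L ↔ adjE J X = -X) (h6 : 6 ≤ Fintype.card κ) (h8 : Fintype.card κ ≠ 8)
    (hL' : ∀ X, X ∈ L' ↔ LinearMap.trace K (κ' → K) X = 0)
    {c' : K} (hε : (dg ε, dg (fun k => ε' k - c')) ∈ 𝓛) (hv : ∀ k, ε k = 1 ∨ ε k = -1) (hv' : ∀ k, ε' k = 1 ∨ ε' k = -1)
    (hne' : (∃ k, ε' k = 1) ∧ ∃ k, ε' k = -1) : c' = 0 ∨ (Fintype.card κ = 6 ∧ Fintype.card κ' = 4) := by
  classical
  have hεL : dg ε ∈ L := (h.fst _).2 ⟨_, hε⟩
  have hεπ : ∀ i, ε (π i) = -ε i := (dg_skew hm hdet ε).1 ((hL _).1 hεL)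
  have hinj : ∀ {i j : κ}, π i = π j → i = j := by
    intro i j h
    have h1 := congrArg π h
    rwa [hm.inv, hm.inv] at h1
  have hne : (-1 : K) ≠ 1 := by
    intro h
    have h1 : (2 : K) = 0 := by
      linear_combination -h
    exact two_ne_zero h1
  obtain ⟨T, hTd⟩ : ∃ T : Finset κ, T = Finset.univ.filter (fun i => ε i = 1) := ⟨_, rfl⟩
  have hTm : ∀ i, i ∈ T ↔ ε i = 1 := by
    intro i
    rw [hTd, Finset.mem_filter]
    exact ⟨fun h => h.2, fun h => ⟨Finset.mem_univ _, h⟩⟩
  have hT : ∀ i, i ∈ T ↔ π i ∉ T := by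
    intro i
    rw [hTm, hTm, hεπ]
    rcases hv i with h | h
    · rw [h]
      exact ⟨fun _ => hne, fun _ => rfl⟩
    · rw [h, neg_neg]
      exact ⟨fun h1 => absurd h1 hne, fun h1 => absurd rfl h1⟩
  obtain ⟨hh, hhd⟩ : ∃ hh : κ → κ → K, ∀ i, hh i = Pi.single i 1 - Pi.single (π i) 1 := ⟨_, fun _ => rfl⟩
  have hodd : ∀ i k, hh i (π k) = -hh i k := by
    intro i k
    rw [hhd, Pi.sub_apply, Pi.sub_apply]
    have e1 : (Pi.single i (1 : K) : κ → K) (π k) = (Pi.single (π i) (1 : K) : κ → K) k := by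
      rw [Pi.single_apply, Pi.single_apply]
      by_cases h1 : π k = i
      · rw [if_pos h1, if_pos (by rw [← h1, hm.inv])]
      · rw [if_neg h1, if_neg (fun h2 => h1 (by rw [h2, hm.inv]))]
    have e2 : (Pi.single (π i) (1 : K) : κ → K) (π k) = (Pi.single i (1 : K) : κ → K) k := by
      rw [Pi.single_apply, Pi.single_apply]
      by_cases h1 : k = i
      · rw [if_pos h1, if_pos (by rw [h1])]
      · rw [if_neg h1, if_neg (fun h2 => h1 (hinj h2))]
    rw [e1, e2]
    ring
  have hdgh : ∀ i, dg (hh i) ∈ L := fun i => (hL _).2 ((dg_skew hm hdet (hh i)).2 (hodd i))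
  have hex : ∀ i, ∃ g' : κ' → K, (dg (hh i), dg g') ∈ 𝓛 := by
    intro i
    obtain ⟨X', hX'⟩ := (h.fst _).1 (hdgh i)
    obtain ⟨g', rfl⟩ := h.diag hX'
    exact ⟨g', hX'⟩
  choose G hG using hex
  -- the values of the diagonal pairs
  have hval : ∀ (g : κ → K) (g' : κ' → K), (dg g, dg g') ∈ 𝓛 → ∀ k, g' k = ∑ i ∈ T, g i * G i k := by
    intro g g' hgg k
    have hg := (dg_skew hm hdet g).1 ((hL _).1 ((h.fst _).2 ⟨_, hgg⟩))
    have h1 : ∑ i ∈ T, g i • ((dg (hh i), dg (G i)) : Module.End K (κ → K) × Module.End K (κ' → K)) ∈ 𝓛 :=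
      𝓛.sum_mem fun i _ => 𝓛.smul_mem _ (hG i)
    have h2 : ∑ i ∈ T, g i • ((dg (hh i), dg (G i)) : Module.End K (κ → K) × Module.End K (κ' → K)) =
        (dg g, dg (∑ i ∈ T, g i • G i)) := by
      refine Prod.ext ?_ ?_
      · rw [Prod.fst_sum]
        have h3 := dec_pi hm.inv hT hg
        have h4 : dg g = ∑ i ∈ T, dg (g i • (Pi.single i 1 - Pi.single (π i) 1 : κ → K)) := by
          conv_lhs => rw [h3]
          exact v06_sum T _
        change _ = dg g
        rw [h4]
        refine Finset.sum_congr rfl fun i _ => ?_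
        rw [Prod.smul_fst, hhd, dg_smul]
      · rw [Prod.snd_sum]
        change _ = dg (∑ i ∈ T, g i • G i)
        rw [v06_sum T]
        refine Finset.sum_congr rfl fun i _ => ?_
        rw [Prod.smul_snd, dg_smul]
    rw [h2] at h1
    have h3 := 𝓛.sub_mem hgg h1
    rw [Prod.mk_sub_mk, sub_self] at h3
    have h4 := dg_inj (sub_eq_zero.1 (h.right _ h3))
    have h5 := congrFun h4 k
    rw [h5, Finset.sum_apply]
    rfl
  have hsum : ∀ k, ∑ i ∈ T, G i k = ε' k - c' := by
    intro k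
    have h1 := hval _ _ hε k
    rw [h1]
    refine Finset.sum_congr rfl fun i hi => ?_
    rw [(hTm i).1 hi, one_mul]
  -- separation
  have hsep : ∀ k l : κ', k ≠ l → ∃ (g : κ → K) (g' : κ' → K), (dg g, dg g') ∈ 𝓛 ∧ g' k = 1 ∧ g' l = -1 := by
    intro k l hkl
    have h1 : dg (Pi.single k 1 - Pi.single l 1 : κ' → K) ∈ L' := by
      rw [hL', trace_dg]
      simp only [Pi.sub_apply, Finset.sum_sub_distrib]
      rw [Finset.sum_pi_single', Finset.sum_pi_single', if_pos (Finset.mem_univ _), if_pos (Finset.mem_univ _), sub_self]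
    obtain ⟨X, hX⟩ := (h.snd _).1 h1
    obtain ⟨g, hg⟩ := h.symm.diag (mem_sw.2 hX)
    rw [hg] at hX
    refine ⟨g, _, hX, ?_, ?_⟩
    · rw [Pi.sub_apply, Pi.single_eq_same, Pi.single_eq_of_ne hkl, sub_zero]
    · rw [Pi.sub_apply, Pi.single_eq_same, Pi.single_eq_of_ne hkl.symm, zero_sub]
  have hsep2 : ∀ k l : κ', (∀ i ∈ T, G i k = G i l) → k = l := by
    intro k l hkl
    by_contra hne'
    obtain ⟨g, g', hg, h1, h2⟩ := hsep k l hne'
    rw [hval g g' hg k] at h1
    rw [hval g g' hg l] at h2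
    have h3 : ∑ i ∈ T, g i * G i k = ∑ i ∈ T, g i * G i l := Finset.sum_congr rfl fun i hi => by rw [hkl i hi]
    exact hne ((h2.symm.trans h3.symm).trans h1)
  have hnz : ∀ k, ¬ ∀ i ∈ T, G i k = 0 := by
    intro k hk
    obtain ⟨l, hl⟩ : ∃ l, l ≠ k := by
      obtain ⟨⟨k₁, hk₁⟩, k₂, hk₂⟩ := hne'
      by_cases h1 : k₁ = k
      · refine ⟨k₂, fun h2 => ?_⟩
        rw [h1] at hk₁
        rw [h2, hk₁] at hk₂
        exact hne hk₂.symm
      · exact ⟨k₁, h1⟩
    obtain ⟨g, g', hg, h1, -⟩ := hsep k l hl.symm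
    rw [hval g g' hg k, Finset.sum_eq_zero] at h1
    · exact one_ne_zero h1.symm
    · intro i hi
      rw [hk i hi, mul_zero]
  have hcard : T.card * 2 = Fintype.card κ := by
    have h1 : T.image π = Tᶜ := by
      ext k
      rw [Finset.mem_image, Finset.mem_compl]
      constructor
      · rintro ⟨i, hi, rfl⟩
        exact (hT i).1 hi
      · intro hk
        refine ⟨π k, (hT (π k)).2 ?_, hm.inv k⟩
        rw [hm.inv]
        exact hk
    have h2 : (T.image π).card = T.card := Finset.card_image_of_injective T fun i j hij => hinj hij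
    rw [h1, Finset.card_compl] at h2
    have h3 := Finset.card_le_univ T
    omega
  have hε0 : (dg (fun k => ε k - 0), dg (fun k => ε' k - c')) ∈ 𝓛 := by
    have : (fun k => ε k - 0) = ε := funext fun k => sub_zero _
    rw [this]
    exact hε
  have hsq : ∀ k, ε' k * ε' k = 1 := by
    intro k
    rcases hv' k with h1 | h1
    · rw [h1, one_mul]
    · rw [h1, neg_mul_neg, one_mul]
  have hpair : ∀ k, ∀ i ∈ T, ∀ j ∈ T, i ≠ j → ε' k * G i k + ε' k * G j k = 0 ∨ ε' k * G i k + ε' k * G j k = 1 := by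
    intro k i hi j hj hij
    have hi1 := (hTm i).1 hi
    have hj1 := (hTm j).1 hj
    have h1 := cor_o hJ hdet hm (fun X hX => (hL X).2 hX) hij hi1 hj1 (by rw [hεπ, hi1]) (by rw [hεπ, hj1])
    have h2 : (Pi.single i 1 + Pi.single j 1 - Pi.single (π i) 1 - Pi.single (π j) 1 : κ → K) = hh i + hh j := by
      rw [hhd, hhd]
      abel
    rw [h2] at h1
    have h3 : (dg (hh i + hh j), dg (G i + G j)) ∈ 𝓛 := by
      have h4 := 𝓛.add_mem (hG i) (hG j)
      rw [Prod.mk_add_mk, ← dg_add, ← dg_add] at h4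
      exact h4
    obtain ⟨h4, h5⟩ := h.cor hε0 hv' h1 h3 k
    rcases hv' k with h6 | h6
    · rw [h6, one_mul, one_mul]
      exact h4 h6
    · rw [h6]
      rcases h5 h6 with h7 | h7
      · left
        rw [Pi.add_apply] at h7
        linear_combination -h7
      · right
        rw [Pi.add_apply] at h7
        linear_combination -h7
  have hm3 : 3 ≤ T.card := by omega
  have hm4 : T.card ≠ 4 := by omega
  have hsl : ∀ k, ∑ i ∈ T, ε' k * G i k = 1 - ε' k * c' := by
    intro k
    rw [← Finset.mul_sum, hsum k]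
    linear_combination hsq k
  -- the four alternatives
  have halt : ∀ k, (1 - ε' k * c' = 1) ∨ (1 - ε' k * c' = (T.card : K) / 2 ∧ ∀ i ∈ T, ε' k * G i k = 1 / 2) ∨
      (1 - ε' k * c' = (T.card : K) / 2 - 1) := by
    intro k
    rcases comb_four (hpair k) hm3 with h1 | ⟨i₀, hi₀, h1, h2⟩ | h1 | ⟨i₀, hi₀, h1, h2⟩
    · exfalso
      apply hnz k
      intro i hi
      have h2 := h1 i hi
      have h3 : ε' k ≠ 0 := by
        intro h4
        have h5 := hsq k
        rw [h4, zero_mul] at h5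
        exact zero_ne_one h5
      exact (mul_eq_zero.1 h2).resolve_left h3
    · left
      rw [← hsl k, Finset.sum_eq_single i₀ h2 (fun h3 => absurd hi₀ h3), h1]
    · right; left
      refine ⟨?_, h1⟩
      rw [← hsl k, Finset.sum_congr rfl h1, Finset.sum_const, nsmul_eq_mul]
      ring
    · right; right
      rw [← hsl k, ← Finset.add_sum_erase T _ hi₀, h1,
        Finset.sum_congr rfl (fun i hi => h2 i (Finset.mem_of_mem_erase hi) (Finset.ne_of_mem_erase hi)),
        Finset.sum_const, nsmul_eq_mul, Finset.card_erase_of_mem hi₀, Nat.cast_sub (by omega)]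
      push_cast
      ring
  by_cases hc0 : c' = 0
  · exact Or.inl hc0
  right
  have halt' : ∀ k, (1 - ε' k * c' = (T.card : K) / 2 ∧ ∀ i ∈ T, ε' k * G i k = 1 / 2) ∨
      (1 - ε' k * c' = (T.card : K) / 2 - 1) := by
    intro k
    rcases halt k with h1 | h1
    · exfalso
      apply hc0
      have h2 : ε' k * c' = 0 := by linear_combination -h1
      have h3 := hsq k
      linear_combination ε' k * h2 - c' * h3
    · exact h1
  obtain ⟨⟨k₁, hk₁⟩, k₂, hk₂⟩ := hne'
  have hm3' : T.card = 3 := by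
    have e1 := halt' k₁
    have e2 := halt' k₂
    rw [hk₁] at e1
    rw [hk₂] at e2
    have hcases : (T.card : K) = ((2 : ℕ) : K) ∨ (T.card : K) = ((3 : ℕ) : K) ∨ (T.card : K) = ((4 : ℕ) : K) := by
      rcases e1 with ⟨e1, -⟩ | e1
      · rcases e2 with ⟨e2, -⟩ | e2
        · left
          push_cast
          linear_combination -e1 - e2
        · right; left
          push_cast
          linear_combination -e1 - e2
      · rcases e2 with ⟨e2, -⟩ | e2
        · right; left
          push_cast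
          linear_combination -e1 - e2
        · right; right
          push_cast
          linear_combination -e1 - e2
    rcases hcases with h1 | h1 | h1
    · have := Nat.cast_injective h1
      omega
    · exact Nat.cast_injective h1
    · exact absurd (Nat.cast_injective h1) hm4
  refine ⟨by omega, ?_⟩
  -- the sign with a unique index
  have hT3 : (T.card : K) = 3 := by rw [hm3']; norm_num
  obtain ⟨k₀, hk₀, hc⟩ : ∃ k₀, c' = -ε' k₀ / 2 ∧ True := by
    rcases halt' k₁ with ⟨h1, -⟩ | h1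
    · refine ⟨k₁, ?_, trivial⟩
      rw [hT3, hk₁] at h1
      rw [hk₁]
      linear_combination -h1
    · refine ⟨k₂, ?_, trivial⟩
      rw [hT3, hk₁] at h1
      rw [hk₂]
      linear_combination -h1
  have huniq : ∀ k, ε' k = ε' k₀ → k = k₀ := by
    intro k hk
    apply hsep2
    have hhalf : ∀ l, ε' l = ε' k₀ → ∀ i ∈ T, ε' l * G i l = 1 / 2 := by
      intro l hl
      rcases halt' l with ⟨-, h1⟩ | h1
      · exact h1
      · exfalso
        rw [hT3, hk₀, hl] at h1
        have h2 := hsq k₀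
        have h3 : (1 : K) = 0 := by linear_combination h1 - (1 / 2) * h2
        exact one_ne_zero h3
    intro i hi
    have h1 := hhalf k hk i hi
    have h2 := hhalf k₀ rfl i hi
    rw [hk] at h1
    have h3 := hsq k₀
    linear_combination ε' k₀ * h1 - ε' k₀ * h2 - (G i k - G i k₀) * h3
  have hother : ∀ k, k ≠ k₀ → ε' k = -ε' k₀ := by
    intro k hk
    rcases hv' k with h1 | h1
    · rcases hv' k₀ with h2 | h2
      · exact absurd (huniq k (by rw [h1, h2])) hk
      · rw [h1, h2, neg_neg]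
    · rcases hv' k₀ with h2 | h2
      · rw [h1, h2]
      · exact absurd (huniq k (by rw [h1, h2])) hk
  have htr : ∑ k, (ε' k - c') = 0 := by
    have h1 := (hL' _).1 ((h.snd _).2 ⟨_, hε⟩)
    rw [trace_dg] at h1
    exact h1
  rw [← Finset.add_sum_erase Finset.univ _ (Finset.mem_univ k₀),
    Finset.sum_congr rfl (fun k hk => by rw [hother k (Finset.ne_of_mem_erase hk)] : ∀ k ∈ Finset.univ.erase k₀, ε' k - c' = -ε' k₀ - c'),
    Finset.sum_const, Finset.card_erase_of_mem (Finset.mem_univ k₀), Finset.card_univ, nsmul_eq_mul,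
    Nat.cast_sub (Fintype.card_pos_iff.2 ⟨k₀⟩), hk₀] at htr
  have h3 := hsq k₀
  have h4 : ((Fintype.card κ' : ℕ) : K) = ((4 : ℕ) : K) := by
    push_cast
    push_cast at htr
    linear_combination (-2) * ε' k₀ * htr + (3 + (Fintype.card κ' : K) * (-1) + 1) * h3
  exact Nat.cast_injective h4

end Pool.Agent.H34V
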