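import Pool.Agent.Lib.H34V.V03
import Pool.Agent.Lib.H34V.V04
import Pool.Agent.Lib.H34V.V06
import Pool.Agent.Lib.H34V.V07
import Pool.Agent.Lib.H34Z.A14

/-!
# V08: graphs and isomorphisms, any signature
-/

set_option autoImplicit false
set_option linter.unusedSectionVars false
namespace Pool.Agent.H34V
open Module Matrix Pool.Agent.H53Toric Pool.Agent.H76P Pool.Agent.H34Z

variable {κ κ' : Type*} [Fintype κ] [DecidableEq κ] [Fintype κ'] [DecidableEq κ'] {K : Type*} [Field K] [CharZero K]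
  {𝓛 : Submodule K (Module.End K (κ → K) × Module.End K (κ' → K))}
  {L : Submodule K (Module.End K (κ → K))} {L' : Submodule K (Module.End K (κ' → K))}
  {d ε : κ → K} {d' ε' : κ' → K}

/-- The constant is zero if there is a form. -/
theorem v08_zero {κ : Type*} [Fintype κ] [DecidableEq κ] {K : Type*} [Field K] [CharZero K] {L : Submodule K (Module.End K (κ → K))}
    {ε : κ → K} {t : Prop} {J : Matrix κ κ K} (hL : FV t L J) (ht : t) {c : K} (hcL : dg (fun k => ε k - c) ∈ L)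
    (hv : ∀ k, ε k = 1 ∨ ε k = -1) (hne : (∃ k, ε k = 1) ∧ ∃ k, ε k = -1) : c = 0 := by
  cases hL with
  | s ht1 π hJ hdet hm hL1 h2 => exact form_zero hdet hm ((hL1 _).1 hcL) hv hne
  | o ht1 π hJ hdet hm hne1 hL1 h6 h8 => exact form_zero hdet hm ((hL1 _).1 hcL) hv hne
  | n ht1 hL1 h2 => exact absurd ht ht1

theorem v08_n {κ : Type*} [Fintype κ] [DecidableEq κ] {K : Type*} [Field K] {L : Submodule K (Module.End K (κ → K))}
    {t : Prop} {J : Matrix κ κ K} (hL : FV t L J) (ht : ¬ t) :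
    (∀ X, X ∈ L ↔ LinearMap.trace K (κ → K) X = 0) ∧ 2 ≤ Fintype.card κ := by
  cases hL with
  | s ht1 π hJ hdet hm hL1 h2 => exact absurd ht1 ht
  | o ht1 π hJ hdet hm hne1 hL1 h6 h8 => exact absurd ht1 ht
  | n ht1 hL1 h2 => exact ⟨hL1, h2⟩

theorem v08_sub (f : κ → K) : (fun k => f k - (0 : K)) = f := by
  funext k
  rw [sub_zero]

/-- One block with a form, the other one linear. -/
theorem v08_mix (h : Gz 𝓛 L L' d d') {t : Prop} {J : Matrix κ κ K} (hL : FV t L J) (ht : t)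
    (hL' : ∀ X, X ∈ L' ↔ LinearMap.trace K (κ' → K) X = 0) {c' : K} (hε : (dg ε, dg (fun k => ε' k - c')) ∈ 𝓛)
    (hv : ∀ k, ε k = 1 ∨ ε k = -1) (hv' : ∀ k, ε' k = 1 ∨ ε' k = -1) (hne' : (∃ k, ε' k = 1) ∧ ∃ k, ε' k = -1)
    (hex : Jᵀ = J → Fintype.card κ = 6 → Fintype.card κ' = 4 → c' = 0) : c' = 0 := by
  cases hL with
  | s ht1 π hJ hdet hm hL1 h2 => exact s_zero h hJ hdet hm hL1 hL' hε hv hv' hne'
  | o ht1 π hJ hdet hm hne1 hL1 h6 h8 =>
    rcases o_zero h hJ hdet hm hL1 h6 h8 hL' hε hv hv' hne' with h1 | h1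
    · exact h1
    · exact hex hJ h1.1 h1.2
  | n ht1 hL1 h2 => exact absurd ht ht1

/-- PROOF. Cases of `hL`, `hL'`.
Both `n`: `Gz.iso` (V03).
`L` with a form (`t` true): `c = 0` (`form_zero`: `dg (ε - c) ∈ L` by `h.fst`).  If `L'` has a form too: `c' = 0` in the same way.  If `L'` is `n`: `c' = 0` by `s_zero` or `o_zero`
(in the exceptional case of `o_zero`: `hex`).  Then `(dg ε, dg ε') ∈ 𝓛` (`fun k => ε k - 0` is `ε`), `Gz.gr`, `H34Z.Gr.iso` with `FV.fb`.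
`L` is `n`, `L'` has a form: `c' = 0` (`form_zero`), `c = 0` by `s_zero` / `o_zero` for `h.symm` (`mem_sw`; in the exceptional case `hex'`), then again `Gz.gr`, `Gr.iso`. -/
theorem Gz.iso_all (h : Gz 𝓛 L L' d d') [Nonempty κ'] {t t' : Prop} {J : Matrix κ κ K} {J' : Matrix κ' κ' K}
    (hL : FV t L J) (hL' : FV t' L' J') (hirr : Irr L) (hirr' : Irr L') {c c' : K}
    (hε : (dg (fun k => ε k - c), dg (fun k => ε' k - c')) ∈ 𝓛) (hv : ∀ k, ε k = 1 ∨ ε k = -1)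
    (hv' : ∀ k, ε' k = 1 ∨ ε' k = -1) (hne : (∃ k, ε k = 1) ∧ ∃ k, ε k = -1) (hne' : (∃ k, ε' k = 1) ∧ ∃ k, ε' k = -1)
    (hex : t → ¬ t' → Jᵀ = J → Fintype.card κ = 6 → Fintype.card κ' = 4 → c' = 0)
    (hex' : ¬ t → t' → J'ᵀ = J' → Fintype.card κ = 4 → Fintype.card κ' = 6 → c = 0) :
    (∃ T : (κ → K) →ₗ[K] (κ' → K), Function.Bijective T ∧ ∀ p ∈ 𝓛, ∀ v, T (p.1 v) = p.2 (T v)) ∨
    ∃ T : (κ → K) →ₗ[K] (κ' → K), Function.Bijective T ∧
      ∀ p ∈ 𝓛, ∀ v, T (adjE (1 : Matrix κ κ K) p.1 v) = -p.2 (T v) := by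
  have key : c = 0 → c' = 0 →
      (∃ T : (κ → K) →ₗ[K] (κ' → K), Function.Bijective T ∧ ∀ p ∈ 𝓛, ∀ v, T (p.1 v) = p.2 (T v)) ∨
      ∃ T : (κ → K) →ₗ[K] (κ' → K), Function.Bijective T ∧
        ∀ p ∈ 𝓛, ∀ v, T (adjE (1 : Matrix κ κ K) p.1 v) = -p.2 (T v) := by
    intro hc hc'
    rw [hc, hc', v08_sub, v08_sub] at hε
    exact (h.gr hε hv hv').iso hL.fb hL'.fb hirr hirr'
  have hm1 := (h.fst _).2 ⟨_, hε⟩
  have hm2 := (h.snd _).2 ⟨_, hε⟩
  by_cases ht : t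
  · have hc := v08_zero hL ht hm1 hv hne
    by_cases ht' : t'
    · exact key hc (v08_zero hL' ht' hm2 hv' hne')
    · refine key hc (v08_mix h hL ht (v08_n hL' ht').1 ?_ hv hv' hne' (hex ht ht'))
      rw [hc, v08_sub] at hε
      exact hε
  · by_cases ht' : t'
    · have hc' := v08_zero hL' ht' hm2 hv' hne'
      refine key (v08_mix h.symm hL' ht' (v08_n hL ht).1 ?_ hv' hv hne (fun h1 h2 h3 => hex' ht ht' h1 h3 h2)) hc'
      rw [hc', v08_sub] at hε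
      exact mem_sw.2 hε
    · exact Gz.iso h (v08_n hL ht).1 (v08_n hL' ht').1 (v08_n hL ht).2 hirr hirr'


end Pool.Agent.H34V
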