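import Pool.Agent.Lib.H34V.V10

/-!
# V12: an orthogonal block of rank six and a linear block of rank four: the eigenvalues
-/

set_option autoImplicit false
set_option linter.unusedSectionVars false
namespace Pool.Agent.H34V
open Module Matrix Pool.Agent.H53Toric Pool.Agent.H76P Pool.Agent.H34Z

variable {κ κ' : Type*} [Fintype κ] [DecidableEq κ] [Fintype κ'] [DecidableEq κ'] {K : Type*} [Field K] [CharZero K]
  {𝓛 : Submodule K (Module.End K (κ → K) × Module.End K (κ' → K))}
  {L : Submodule K (Module.End K (κ → K))} {L' : Submodule K (Module.End K (κ' → K))}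
  {d : κ → K} {d' : κ' → K} {J : Matrix κ κ K} {π : κ → κ}

theorem v12_choose {κ : Type*} [Fintype κ] [DecidableEq κ] (h6 : Fintype.card κ = 6) (i a : κ) :
    ∃ j, j ≠ i ∧ j ≠ a := by
  by_contra hcon
  push Not at hcon
  have h1 : (Finset.univ : Finset κ) ⊆ {i, a} := fun j _ => by
    by_cases hj : j = i
    · simp [hj]
    · simp [hcon j hj]
  have h2 := Finset.card_le_card h1
  rw [Finset.card_univ, h6] at h2
  have h3 := Finset.card_le_two (a := i) (b := a)
  omega

theorem v12_prod {x y z x' y' z' : κ'}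
    (he : ∀ a, ((if a = x then (1 : K) else 0) + (if a = y then 1 else 0)) + (if a = z then 1 else 0) =
      ((if a = x' then (1 : K) else 0) + (if a = y' then 1 else 0)) + (if a = z' then 1 else 0)) :
    d' x * d' y * d' z = d' x' * d' y' * d' z' := by
  have hn : ∀ a, ((if a = x then 1 else 0) + (if a = y then 1 else 0)) + (if a = z then 1 else 0) =
      ((if a = x' then 1 else 0) + (if a = y' then 1 else 0)) + (if a = z' then (1 : ℕ) else 0) := by
    intro a
    have h1 := he a
    exact_mod_cast h1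
  have key : ∀ x y z : κ', d' x * d' y * d' z =
      ∏ a, d' a ^ (((if a = x then 1 else 0) + (if a = y then 1 else 0)) + (if a = z then (1 : ℕ) else 0)) := by
    intro x y z
    simp only [pow_add, Finset.prod_mul_distrib, pow_ite, pow_one, pow_zero, Finset.prod_ite_eq',
      Finset.mem_univ, if_true]
  rw [key x y z, key x' y' z']
  exact Finset.prod_congr rfl fun a _ => by rw [hn a]

theorem v12_key (h : Gz 𝓛 L L' d d') (hL' : ∀ X, X ∈ L' ↔ LinearMap.trace K (κ' → K) X = 0)
    {x y z x' y' z' : κ'}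
    (hg : ∀ g g', (dg g, dg g') ∈ 𝓛 → g' x + g' y + g' z = g' x' + g' y' + g' z') :
    d' x * d' y * d' z = d' x' * d' y' * d' z' := by
  refine v12_prod (K := K) fun a => ?_
  have h1 : (fun a => ((if a = x then (1 : K) else 0) + (if a = y then 1 else 0)) + (if a = z then 1 else 0)) =
      fun a => ((if a = x' then (1 : K) else 0) + (if a = y' then 1 else 0)) + (if a = z' then 1 else 0) := by
    refine h.vec hL' ?_ fun g g' hgg => ?_
    · simp only [Finset.sum_add_distrib, Finset.sum_ite_eq', Finset.mem_univ, if_true]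
    · simp only [add_mul, ite_mul, one_mul, zero_mul, Finset.sum_add_distrib, Finset.sum_ite_eq',
        Finset.mem_univ, if_true]
      exact hg g g' hgg
  exact congrFun h1 a

/-- PROOF. Choose `j ≠ i`, `j ≠ π i` (six elements).  `so_root` for `i, j` gives `k ≠ l` with `g i - g j = g' k - g' l`, for `i, π j` (`π j ≠ i`, `π j ≠ π i`) it gives `m ≠ n` with
`g i + g j = g' m - g' n` (`g (π j) = -g j`).  The four elements are different: if `k = m` then `2 g j = g' l - g' n`; if `l = n` then `2 g j = g' m - g' k`; if `k = n` then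
`2 g i = g' m - g' l`; if `l = m` then `2 g i = g' k - g' n`: impossible by `no_two`.  As `κ'` has four elements, `g' k + g' l + g' m + g' n = 0` (the trace of `dg g'` is zero, `h.snd`, `hL'`;
`Finset.univ = {k, l, m, n}`), so `2 g i = g' k + g' m - g' l - g' n = 2 (g' k + g' m)`. -/
theorem six_wt (h : Gz 𝓛 L L' d d') (hJ : Jᵀ = J) (hdet : IsUnit J.det) (hm : Mon J π) (hne : ∀ i, π i ≠ i)
    (hL : ∀ X, X ∈ L ↔ adjE J X = -X) (h6 : Fintype.card κ = 6) (hL' : ∀ X, X ∈ L' ↔ LinearMap.trace K (κ' → K) X = 0)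
    (h4 : Fintype.card κ' = 4) (i : κ) : ∃ k m, k ≠ m ∧ ∀ g g', (dg g, dg g') ∈ 𝓛 → g i = g' k + g' m := by
  obtain ⟨j, hji, hjp⟩ := v12_choose h6 i (π i)
  have hij' : i ≠ π j := fun h1 => hjp (by rw [h1, hm.inv])
  have hpp : π j ≠ π i := fun h1 => hji (by rw [← hm.inv j, h1, hm.inv])
  obtain ⟨k, l, hkl, hR1, -⟩ := so_root h hJ hdet hm hne hL hji.symm hjp
  obtain ⟨m, n, hmn, hR2, -⟩ := so_root h hJ hdet hm hne hL hij' hpp
  have hR2' : ∀ g g', (dg g, dg g') ∈ 𝓛 → g i + g j = g' m - g' n := by
    intro g g' hgg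
    have h1 := hR2 g g' hgg
    rw [v10_skew h hdet hm hL hgg] at h1
    rw [← h1]
    ring
  have no := fun (a : κ) (b c : κ') (hR : ∀ g g', (dg g, dg g') ∈ 𝓛 → 2 * g a = g' b - g' c) =>
    no_two h hJ hdet hm hne hL hL' hR
  have hkm : k ≠ m := by
    rintro rfl
    refine no j l n fun g g' hgg => ?_
    have a1 := hR1 g g' hgg
    have a2 := hR2' g g' hgg
    linear_combination a2 - a1
  have hln : l ≠ n := by
    rintro rfl
    refine no j m k fun g g' hgg => ?_
    have a1 := hR1 g g' hgg
    have a2 := hR2' g g' hgg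
    linear_combination a2 - a1
  have hkn : k ≠ n := by
    rintro rfl
    refine no i m l fun g g' hgg => ?_
    have a1 := hR1 g g' hgg
    have a2 := hR2' g g' hgg
    linear_combination a2 + a1
  have hlm : l ≠ m := by
    rintro rfl
    refine no i k n fun g g' hgg => ?_
    have a1 := hR1 g g' hgg
    have a2 := hR2' g g' hgg
    linear_combination a2 + a1
  have huniv : ({k, l, m, n} : Finset κ') = Finset.univ := by
    apply Finset.eq_univ_of_card
    rw [h4, Finset.card_insert_of_notMem, Finset.card_insert_of_notMem, Finset.card_insert_of_notMem,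
      Finset.card_singleton]
    · simp [hmn]
    · simp [hlm, hln]
    · simp [hkl, hkm, hkn]
  refine ⟨k, m, hkm, fun g g' hgg => ?_⟩
  have hs : ∑ a, g' a = 0 := by
    have h1 := (hL' _).1 ((h.snd _).2 ⟨_, hgg⟩)
    rwa [trace_dg] at h1
  rw [← huniv, Finset.sum_insert (by simp [hkl, hkm, hkn]), Finset.sum_insert (by simp [hlm, hln]),
    Finset.sum_insert (by simp [hmn]), Finset.sum_singleton] at hs
  have a1 := hR1 g g' hgg
  have a2 := hR2' g g' hgg
  have h2 : (2 : K) ≠ 0 := two_ne_zero
  apply mul_left_cancel₀ h2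
  linear_combination a1 + a2 - hs

/-- PROOF. Choose `f i ≠ e i` with `g i = g' (f i) + g' (e i)` by `six_wt`; write `D i = d' (f i) * d' (e i)` (not zero, `h.ne'`).
(1) `j ≠ i`, `j ≠ π i`: `so_root` gives `k ≠ l` with `g i - g j = g' k - g' l` and `d i * d' l = d j * d' k`.  So `g' (f i) + g' (e i) + g' l = g' (f j) + g' (e j) + g' k` for all diagonal pairs, and by
`Gz.vec` the functions `1_(f i) + 1_(e i) + 1_l` and `1_(f j) + 1_(e j) + 1_k` from `κ'` to `K` are equal; so the multisets `{f i, e i, l}`, `{f j, e j, k}` are equal (`Multiset.ext`, count,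
`Nat.cast_injective`), and their products under `d'`: `D i * d' l = D j * d' k`.  With `d i * d' l = d j * d' k`: `d i * D j * (d' k * d' l) = (d i * d' l) * (D j * d' k) =
(d j * d' k) * (D i * d' l) = d j * D i * (d' k * d' l)`; cancel.
(2) `j = i`: trivial.  (3) `j = π i`: choose `s ≠ i, π i`; `d i * D s = d s * D i`, `d s * D j = d j * D s` by (1) (`s ≠ j`, `j ≠ π s` as `i ≠ s`), so
`d i * D j * D s = (d i * D s) * D j = d s * D i * D j = D i * (d j * D s)`; cancel `D s`. -/
theorem six_rel (h : Gz 𝓛 L L' d d') (hJ : Jᵀ = J) (hdet : IsUnit J.det) (hm : Mon J π) (hne : ∀ i, π i ≠ i)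
    (hL : ∀ X, X ∈ L ↔ adjE J X = -X) (h6 : Fintype.card κ = 6) (hL' : ∀ X, X ∈ L' ↔ LinearMap.trace K (κ' → K) X = 0)
    (h4 : Fintype.card κ' = 4) :
    ∃ f e : κ → κ', (∀ i, f i ≠ e i) ∧ ∀ i j, d i * d' (f j) * d' (e j) = d j * d' (f i) * d' (e i) := by
  choose f e hfe hw using fun i => six_wt h hJ hdet hm hne hL h6 hL' h4 i
  refine ⟨f, e, hfe, ?_⟩
  have one : ∀ i j, i ≠ j → j ≠ π i → d i * d' (f j) * d' (e j) = d j * d' (f i) * d' (e i) := by
    intro i j hij hji
    obtain ⟨k, l, hkl, hall, hd⟩ := so_root h hJ hdet hm hne hL hij hji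
    have e1 := v12_key h hL' (x := f i) (y := e i) (z := l) (x' := f j) (y' := e j) (z' := k)
      (fun g g' hgg => by
        have a1 := hall g g' hgg
        have a2 := hw i g g' hgg
        have a3 := hw j g g' hgg
        rw [a2, a3] at a1
        linear_combination a1)
    have h0 : d' k * d' l ≠ 0 := mul_ne_zero (h.ne' k) (h.ne' l)
    apply mul_right_cancel₀ h0
    linear_combination (d' (f j) * d' (e j) * d' k) * hd - (d j * d' k) * e1
  intro i j
  by_cases hij : i = j
  · rw [hij]
  by_cases hji : j = π i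
  · obtain ⟨s, hsi, hsp⟩ := v12_choose h6 i (π i)
    have o1 := one i s hsi.symm hsp
    have o2 := one s j (fun h1 => hsp (h1.trans hji)) (fun h1 => hsi (by
      rw [hji] at h1
      rw [← hm.inv s, ← h1, hm.inv]))
    have h0 : d' (f s) * d' (e s) ≠ 0 := mul_ne_zero (h.ne' _) (h.ne' _)
    apply mul_right_cancel₀ h0
    linear_combination (d' (f j) * d' (e j)) * o1 + (d' (f i) * d' (e i)) * o2
  · exact one i j hij hji

end Pool.Agent.H34V
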