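import Pool.Agent.Lib.H34V.N05
import Pool.Agent.Lib.H34V.V08
import Pool.Agent.Lib.H34V.V12

/-!
# N06: different blocks are independent
-/

set_option autoImplicit false
set_option linter.unusedSectionVars false
namespace Pool.Agent.H34V
open Module Matrix Pool.Agent.H53Toric Pool.Agent.H76P Pool.Agent.H34Z
open Pool.Agent.H76U (cmp preL Lb Split4)
open Pool.Agent.H76Y (LcN)
open Pool.Agent.H76RM (zar_commute zlie_commute)

section
variable {K : Type*} [Field K] [CharZero K]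

/-- A scalar idempotent. -/
theorem sc_idem {k : ℕ} (hk : 0 < k) {a : K}
    (h : (a • (1 : Matrix (Fin k) (Fin k) K)) * (a • (1 : Matrix (Fin k) (Fin k) K)) = a • 1) : a = 0 ∨ a = 1 := by
  have h1 := congrFun (congrFun h ⟨0, hk⟩) ⟨0, hk⟩
  rw [smul_mul_smul_comm, Matrix.one_mul, Matrix.smul_apply, Matrix.smul_apply, Matrix.one_apply_eq, smul_eq_mul,
    smul_eq_mul, mul_one, mul_one] at h1
  have h2 : a * (a - 1) = 0 := by rw [mul_sub, h1, mul_one, sub_self]
  rcases mul_eq_zero.1 h2 with h3 | h3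
  · exact Or.inl h3
  · exact Or.inr (sub_eq_zero.1 h3)

/-- An idempotent with trace zero. -/
theorem idem_zero {k : ℕ} {P : Module.End K (Fin k → K)} (hP : P * P = P) (ht : LinearMap.trace K (Fin k → K) P = 0) :
    P = 0 := by
  rw [trace_idem hP, Nat.cast_eq_zero] at ht
  exact LinearMap.range_eq_bot.1 (Submodule.finrank_eq_zero.1 ht)

end

variable {ι : Type*} [Fintype ι] [DecidableEq ι] {K : Type*} [Field K] [CharZero K] [IsAlgClosed K]
  {J u : Matrix ι ι K} {DD : Submodule K (Matrix ι ι K)} {S 𝓗 : Set (Matrix ι ι K)} {x : Matrix ι ι K}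
  {B : Type*} [Fintype B] [DecidableEq B] {bar : B → B} {e : B → Matrix ι ι K} {n : B → ℕ}
  {U : ∀ b, Matrix ι (Fin (n b)) K} {V : ∀ b, Matrix (Fin (n b)) ι K} {d : ∀ b, Fin (n b) → K}

namespace Sit5
variable (g : Sit5 J u DD S 𝓗 x bar e n U V d)
include g

/-- The block of a projector is trivial if the rank is. -/
theorem blk_triv (b : B) {h : Matrix ι ι K} (hh : h ∈ 𝓗) (hr : (h * e b).rank = 0 ∨ (h * e b).rank = n b) :
    pb (U b) (V b) ((2 : K) • h - 1) - shf h (e b) (n b) • 1 = 0 := by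
  obtain ⟨h1, h2, -⟩ := g.h_idem b hh
  have hn0 : (n b : K) ≠ 0 := Nat.cast_ne_zero.2 (g.pos b).ne'
  have h3 : pb (U b) (V b) ((2 : K) • h - 1) = (2 : K) • pb (U b) (V b) h - 1 := by
    rw [map_sub, map_smul, pb_one (g.VU b)]
  rcases hr with hr | hr
  · rw [hr, Nat.cast_zero] at h2
    rw [h3, idem_zero h1 h2, smul_zero, zero_sub, shf, hr, Nat.cast_zero, mul_zero, zero_div, zero_sub]
    refine LinearMap.ext fun v => ?_
    simp
  · have h4 : (1 - pb (U b) (V b) h) * (1 - pb (U b) (V b) h) = 1 - pb (U b) (V b) h := by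
      rw [sub_mul, one_mul, mul_sub, mul_one, h1, sub_self, sub_zero]
    have h5 : LinearMap.trace K (Fin (n b) → K) (1 - pb (U b) (V b) h) = 0 := by
      rw [map_sub, h2, LinearMap.trace_one, Module.finrank_fintype_fun_eq_card, Fintype.card_fin, hr, sub_self]
    have h6 : pb (U b) (V b) h = 1 := (sub_eq_zero.1 (idem_zero h4 h5)).symm
    have h7 : (2 : K) * (n b : K) / (n b : K) - 1 = 1 := by
      rw [mul_div_assoc, div_self hn0]
      ring
    rw [h3, h6, shf, hr, h7, one_smul, two_smul]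
    abel

/-- Conversely. -/
theorem blk_triv' (b : B) {h : Matrix ι ι K} (hh : h ∈ 𝓗)
    (hr : pb (U b) (V b) ((2 : K) • h - 1) - shf h (e b) (n b) • 1 = 0) :
    (h * e b).rank = 0 ∨ (h * e b).rank = n b := by
  have hn0 : (n b : K) ≠ 0 := Nat.cast_ne_zero.2 (g.pos b).ne'
  rw [g.pb_shf] at hr
  have h1 : V b * h * U b - (((h * e b).rank : K) / (n b : K)) • 1 = 0 := by
    have h2 : phi ((2 : K) • (V b * h * U b - (((h * e b).rank : K) / (n b : K)) • 1)) = phi 0 := by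
      rw [hr, map_zero]
    exact (smul_eq_zero.1 ((phi (ι := Fin (n b)) (K := K)).injective h2)).resolve_left two_ne_zero
  have h3 : V b * h * U b * (V b * h * U b) = V b * h * U b := by
    obtain ⟨h4, -, -⟩ := g.h_idem b hh
    rw [pb_apply, ← map_mul] at h4
    exact (phi (ι := Fin (n b)) (K := K)).injective h4
  rw [sub_eq_zero.1 h1] at h3
  rcases sc_idem (g.pos b) h3 with h4 | h4
  · left
    rcases div_eq_zero_iff.1 h4 with h5 | h5
    · exact Nat.cast_eq_zero.1 h5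
    · exact absurd h5 hn0
  · right
    exact Nat.cast_injective ((div_eq_one_iff_eq hn0).1 h4)

/-- On a graph, both blocks of a projector are trivial or none. -/
theorem nt {b c : B} (hgr : ∀ A ∈ brk J S, pb (U b) (V b) A = 0 ↔ pb (U c) (V c) A = 0) {h : Matrix ι ι K}
    (hh : h ∈ 𝓗) (hr : (h * e b).rank = 0 ∨ (h * e b).rank = n b) : (h * e c).rank = 0 ∨ (h * e c).rank = n c := by
  have h1 := g.y_pair hgr hh
  rw [g.blk_triv b hh hr] at h1
  exact g.blk_triv' c hh ((g.gz hgr).right _ h1)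

/-- PROOF. `six_rel` and `g.six`. -/
theorem six_abs {b c : B} (hgr : ∀ A ∈ brk J S, pb (U b) (V b) A = 0 ↔ pb (U c) (V c) A = 0) (hb : bar b = b)
    (hc : bar c ≠ c) (hJ : ((U b)ᵀ * (J * u) * U b)ᵀ = (U b)ᵀ * (J * u) * U b) (h6 : n b = 6) (h4 : n c = 4) : False := by
  have hLb := g.full b (by omega)
  have hLc := g.full c (by omega)
  rcases hLc with ⟨ht, -⟩ | ⟨ht, -⟩ | ⟨-, hLc, -⟩
  · exact hc ht
  · exact hc ht
  rcases hLb with ⟨-, π, hJs, hdet, hm, hL, -⟩ | ⟨-, π, hJs, hdet, hm, hne, hL, -, -⟩ | ⟨ht, -⟩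
  · have h1 : (2 : K) • ((U b)ᵀ * (J * u) * U b) = 0 := by
      have h2 : (U b)ᵀ * (J * u) * U b = -((U b)ᵀ * (J * u) * U b) := hJ.symm.trans hJs
      rw [two_smul]
      exact eq_neg_iff_add_eq_zero.1 h2
    have h2 : (U b)ᵀ * (J * u) * U b = 0 := (smul_eq_zero.1 h1).resolve_left two_ne_zero
    have : Nonempty (Fin (n b)) := ⟨⟨0, g.pos b⟩⟩
    rw [h2, Matrix.det_zero] at hdet
    exact not_isUnit_zero hdet
  · obtain ⟨f, f', h1, h2⟩ := six_rel (g.gz hgr) hJs hdet hm hne hL (by rw [Fintype.card_fin, h6]) hLc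
      (by rw [Fintype.card_fin, h4])
    obtain ⟨i, j, h3⟩ := g.six b c hb hc hJ h6 h4 f f' h1
    exact h3 (h2 i j)
  · exact ht hb

/-- PROOF. Rank one: trivial.  `two b c`; the second alternative is impossible by `gz`, `Gz.iso_all` for a projector which is not trivial on `c` (`g.hh`), `no_iso`, `no_dual`, `six_abs`. -/
theorem pair {b c : B} (hbc : c ≠ b) (hbc' : c ≠ bar b) {X : Module.End K (Fin (n b) → K)}
    (hX : X ∈ LcN J S (U b) (V b)) : ∃ A ∈ brk J S, pb (U b) (V b) A = X ∧ pb (U c) (V c) A = 0 := by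
  have hpb := g.pos b
  have hpc := g.pos c
  by_cases hb2 : 2 ≤ n b
  swap
  · refine ⟨0, Submodule.zero_mem _, ?_, map_zero _⟩
    rw [map_zero, tr_one (by omega) hX.2]
  by_cases hc2 : 2 ≤ n c
  swap
  · rw [← g.pb_brk b] at hX
    obtain ⟨A, hA, rfl⟩ := Submodule.mem_map.1 hX
    exact ⟨A, hA, rfl, tr_one (by omega) (g.pb_mem c hA).2⟩
  rcases g.two hb2 hc2 with h1 | h1
  · exact h1 X hX
  exfalso
  have hgr' : ∀ A ∈ brk J S, pb (U c) (V c) A = 0 ↔ pb (U b) (V b) A = 0 := fun A hA => (h1 A hA).symm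
  obtain ⟨h, hh, hx, hr0, hr1⟩ := g.hh c hc2
  have hrb : ¬ ((h * e b).rank = 0 ∨ (h * e b).rank = n b) := by
    intro hr
    rcases g.nt h1 hh hr with h2 | h2
    · exact hr0 h2
    · exact hr1 h2
  rw [not_or] at hrb
  obtain ⟨ε, hε, hv⟩ := g.y_diag b hh hx
  obtain ⟨ε', hε', hv'⟩ := g.y_diag c hh hx
  have hs := g.y_sgn b hh hε hv
  have hs' := g.y_sgn c hh hε' hv'
  have hpair := g.y_pair h1 hh
  have hdgc : ∀ {k : ℕ} (f : Fin k → K) (t : K), (dg f - t • (1 : Module.End K (Fin k → K))) = dg (fun i => f i - t) := by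
    intro k f t
    refine LinearMap.ext fun v => funext fun a => ?_
    rw [LinearMap.sub_apply, LinearMap.smul_apply, Pi.sub_apply, Pi.smul_apply, dg_apply, dg_apply,
      Module.End.one_apply, smul_eq_mul, sub_mul]
  rw [hε, hε', hdgc, hdgc] at hpair
  have hne : Nonempty (Fin (n c)) := ⟨⟨0, g.pos c⟩⟩
  rcases Gz.iso_all (g.gz h1) (g.full b hb2) (g.full c hc2) (g.irr b) (g.irr c) hpair hv hv'
    ⟨hs.1 hrb.1, hs.2 hrb.2⟩ ⟨hs'.1 hr0, hs'.2 hr1⟩
    (fun t1 t2 t3 t4 t5 => by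
      rw [Fintype.card_fin] at t4 t5
      exact (g.six_abs h1 t1 t2 t3 t4 t5).elim)
    (fun t1 t2 t3 t4 t5 => by
      rw [Fintype.card_fin] at t4 t5
      exact (g.six_abs hgr' t2 t1 t3 t5 t4).elim) with ⟨T, hT, hT2⟩ | ⟨T, hT, hT2⟩
  · exact g.no_iso hbc hbc' hb2 h1 hT hT2
  · exact g.no_dual hbc hbc' hb2 h1 hT hT2

/-- PROOF. `ribet` (R01), `FV.perfect`, `pair`. -/
theorem indep (b : B) {X : Module.End K (Fin (n b) → K)} (hX : X ∈ LcN J S (U b) (V b)) :
    ∃ A ∈ brk J S, pb (U b) (V b) A = X ∧ ∀ c, c ≠ b → c ≠ bar b → pb (U c) (V c) A = 0 := by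
  have hpb := g.pos b
  by_cases hb2 : 2 ≤ n b
  swap
  · refine ⟨0, Submodule.zero_mem _, ?_, fun c _ _ => map_zero _⟩
    rw [map_zero, tr_one (by omega) hX.2]
  have h1 := ribet (𝔤 := brk J S) (fun A hA A' hA' => brk_ad (brk_pre hA) (brk_pre hA')) (p := pb (U b) (V b))
    (fun A hA A' hA' => g.pb_bracket b (brk_pre hA) (brk_pre hA')) (q := fun c => pb (U c) (V c))
    (fun c A hA A' hA' => g.pb_bracket c (brk_pre hA) (brk_pre hA')) (g.pb_brk b) (g.full b hb2).perfect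
    (Finset.univ.filter fun c => c ≠ b ∧ c ≠ bar b) (fun c hc Y hY => by
      rw [Finset.mem_filter] at hc
      exact g.pair hc.2.1 hc.2.2 hY) X hX
  obtain ⟨A, hA, hAX, hA0⟩ := h1
  exact ⟨A, hA, hAX, fun c hc hc' => hA0 c (Finset.mem_filter.2 ⟨Finset.mem_univ _, hc, hc'⟩)⟩

end Sit5

end Pool.Agent.H34V
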