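import Pool.Agent.Lib.H34V.N06
import Pool.Agent.Lib.H34Z.M06

/-!
# N07: elements of the closure with one nontrivial block (port of H34Z/M06)
-/

set_option autoImplicit false
set_option linter.unusedSectionVars false
namespace Pool.Agent.H34V
open Module Matrix Pool.Agent.H53Toric Pool.Agent.H76P Pool.Agent.H34Z
open Pool.Agent.H76U (cmp preL Lb Split4)
open Pool.Agent.H76Y (LcN)
open Pool.Agent.H76RM (zar_commute zlie_commute)

variable {ι : Type*} [Fintype ι] [DecidableEq ι] {K : Type*} [Field K] [CharZero K] [IsAlgClosed K]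
  {J u : Matrix ι ι K} {DD : Submodule K (Matrix ι ι K)} {S 𝓗 : Set (Matrix ι ι K)} {x : Matrix ι ι K}
  {B : Type*} [Fintype B] [DecidableEq B] {bar : B → B} {e : B → Matrix ι ι K} {n : B → ℕ}
  {U : ∀ b, Matrix ι (Fin (n b)) K} {V : ∀ b, Matrix (Fin (n b)) ι K} {d : ∀ b, Fin (n b) → K}

namespace Sit5
variable (g : Sit5 J u DD S 𝓗 x bar e n U V d)
include g

/-- PROOF. `A ∈ brk` with `pb b A = phi N`, `pb c A = 0` for `c ≠ b, bar b` (`indep`).  `A ∈ zlie S` (`brk_zlie`), `A` commutes with `DD`, `Aᵀ (J u) + J u A = 0` (`brk_skew`, `pskew`).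
`A * e c = U c * (V c * A * U c) * V c` for all `c`, so `A * e c = 0` for `c ≠ b, bar b`, and `A * A * e b = U b * N * N * V b = 0`.  `(A * A)ᵀ * (J*u) = J*u * (A * A)`, so
`J*u * e (bar b) * (A * A) = (e b)ᵀ * (J*u) * (A*A) = (e b)ᵀ * (A*A)ᵀ * (J*u) = (A * A * e b)ᵀ * (J*u) = 0` and `e (bar b) * A * A = 0` (`det'`), `A * A * e (bar b) = 0`.
So `A * A = 0` by `g.spl.ext_comm`.  `y = 1 + A ∈ zar S` (`zlie_exp` with `x = 1`, `t = 1`).  `yᵀ (J u) y = J u + (Aᵀ J u + J u A) + Aᵀ J u A`, and `Aᵀ J u A = -J u A A = 0`.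
`y * U b = U b + A * U b = U b + U b * N`. -/
theorem one_add {b : B} {N : Matrix (Fin (n b)) (Fin (n b)) K} (hN : N * N = 0) (hNL : phi N ∈ LcN J S (U b) (V b)) :
    ∃ y ∈ zar S, yᵀ * (J * u) * y = J * u ∧ y * U b = U b * (1 + N) ∧ ∀ c, c ≠ b → c ≠ bar b → y * e c = e c := by
  obtain ⟨A, hA, hAb, hAc⟩ := g.indep b hNL
  have hAz : A ∈ zlie S := brk_zlie hA
  have hAD : ∀ z ∈ DD, A * z = z * A := fun z hz => g.zD hAz hz
  have hAs : Aᵀ * (J * u) + J * u * A = 0 := by
    have h1 := g.pskew (brk_pre hA) (c := 0) (by rw [brk_skew hA, zero_smul])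
    rwa [zero_smul] at h1
  have hsk : Aᵀ * (J * u) = -(J * u * A) := eq_neg_of_add_eq_zero_left hAs
  have hAbm : V b * A * U b = N := by
    have h1 : phi (V b * A * U b) = phi N := hAb
    exact (phi (ι := Fin (n b)) (K := K)).injective h1
  have hAcm : ∀ c, c ≠ b → c ≠ bar b → V c * A * U c = 0 := by
    intro c h1 h2
    have h3 : phi (V c * A * U c) = 0 := hAc c h1 h2
    apply (phi (ι := Fin (n c)) (K := K)).injective
    rw [h3, map_zero]
  have hblk : ∀ c, A * e c = U c * (V c * A * U c) * V c := by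
    intro c
    calc A * e c = A * (e c * e c) := by rw [g.spl.idem]
      _ = A * e c * e c := by rw [Matrix.mul_assoc]
      _ = e c * A * e c := by rw [hAD _ (g.spl.mem c)]
      _ = (U c * V c) * A * (U c * V c) := by rw [← g.UV c]
      _ = U c * (V c * A * U c) * V c := by simp only [Matrix.mul_assoc]
  have hAU : A * U b = U b * N := by
    calc A * U b = A * (e b * U b) := by rw [g.eU b]
      _ = (A * e b) * U b := by rw [Matrix.mul_assoc]
      _ = U b * N * V b * U b := by rw [hblk b, hAbm]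
      _ = U b * N * (V b * U b) := by rw [Matrix.mul_assoc (U b * N)]
      _ = U b * N := by rw [g.VU b, Matrix.mul_one]
  have hA0 : ∀ c, c ≠ b → c ≠ bar b → A * e c = 0 := by
    intro c h1 h2
    rw [hblk c, hAcm c h1 h2, Matrix.mul_zero, Matrix.zero_mul]
  have hAAb : A * A * e b = 0 := by
    calc A * A * e b = A * (A * e b) := by rw [Matrix.mul_assoc]
      _ = A * (U b * N * V b) := by rw [hblk b, hAbm]
      _ = (A * U b) * N * V b := by simp only [Matrix.mul_assoc]
      _ = U b * (N * N) * V b := by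
        rw [hAU]
        simp only [Matrix.mul_assoc]
      _ = 0 := by rw [hN, Matrix.mul_zero, Matrix.zero_mul]
  have hAAT : (A * A)ᵀ * (J * u) = J * u * (A * A) := by
    rw [Matrix.transpose_mul, Matrix.mul_assoc, hsk, Matrix.mul_neg, ← Matrix.mul_assoc, hsk, Matrix.neg_mul, neg_neg,
      Matrix.mul_assoc]
  have hAAb' : e (bar b) * (A * A) = 0 := by
    apply m06_canc g.det'
    calc J * u * (e (bar b) * (A * A)) = (J * u * e (bar b)) * (A * A) := by rw [Matrix.mul_assoc (J * u)]
      _ = (e b)ᵀ * (J * u * (A * A)) := by rw [← g.spl.adj b, Matrix.mul_assoc ((e b)ᵀ)]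
      _ = (e b)ᵀ * (A * A)ᵀ * (J * u) := by rw [← hAAT, Matrix.mul_assoc ((e b)ᵀ)]
      _ = (A * A * e b)ᵀ * (J * u) := by rw [Matrix.transpose_mul (A * A)]
      _ = 0 := by rw [hAAb, Matrix.transpose_zero, Matrix.zero_mul]
  have hAAD : ∀ z ∈ DD, A * A * z = z * (A * A) := by
    intro z hz
    rw [Matrix.mul_assoc, hAD z hz, ← Matrix.mul_assoc, hAD z hz, Matrix.mul_assoc]
  have hAA : A * A = 0 := by
    apply g.spl.ext_comm hAAD
    · intro z _
      rw [Matrix.zero_mul, Matrix.mul_zero]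
    · intro c
      rw [Matrix.zero_mul]
      by_cases h1 : c = b
      · rw [h1]
        exact hAAb
      by_cases h2 : c = bar b
      · rw [h2, hAAD _ (g.spl.mem _)]
        exact hAAb'
      rw [Matrix.mul_assoc, hA0 c h1 h2, Matrix.mul_zero]
  refine ⟨1 + A, ?_, ?_, ?_, ?_⟩
  · have h1 := zlie_exp hAz hAA 1 g.one 1
    rwa [one_smul, Matrix.one_mul] at h1
  · have h1 : J * u * A * A = 0 := by rw [Matrix.mul_assoc, hAA, Matrix.mul_zero]
    rw [Matrix.transpose_add, Matrix.transpose_one, Matrix.add_mul, Matrix.one_mul, hsk, Matrix.mul_add, Matrix.mul_one,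
      Matrix.add_mul, Matrix.neg_mul, h1]
    abel
  · rw [Matrix.add_mul, Matrix.one_mul, hAU, Matrix.mul_add, Matrix.mul_one]
  · intro c h1 h2
    rw [Matrix.add_mul, Matrix.one_mul, hA0 c h1 h2, add_zero]

/-- PROOF. As `Sit.comp`, with `FV.gen`; rank one: `M = 1`. -/
theorem comp {b : B} {M : Matrix (Fin (n b)) (Fin (n b)) K}
    (hM : bar b = b → Mᵀ * ((U b)ᵀ * (J * u) * U b) * M = (U b)ᵀ * (J * u) * U b) (hdet : M.det = 1) :
    ∃ y ∈ zar S, yᵀ * (J * u) * y = J * u ∧ y * U b = U b * M ∧ ∀ c, c ≠ b → c ≠ bar b → y * e c = e c := by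
  have hpb := g.pos b
  by_cases hb2 : 2 ≤ n b
  swap
  · have h1 : n b = 1 := by omega
    have h2 : M = 1 := by
      have h3 : ∀ i j : Fin (n b), i = j := fun i j => Fin.ext (by omega)
      haveI : Subsingleton (Fin (n b)) := ⟨h3⟩
      ext i j
      have h4 := Matrix.det_eq_elem_of_subsingleton M i
      rw [hdet] at h4
      rw [h3 j i, ← h4, Matrix.one_apply_eq]
    refine ⟨1, subset_zar S g.one, by rw [Matrix.transpose_one, Matrix.one_mul, Matrix.mul_one],
        by rw [Matrix.one_mul, h2, Matrix.mul_one], fun c _ _ => Matrix.one_mul _⟩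
  have key : M ∈ {M : Matrix (Fin (n b)) (Fin (n b)) K | ∃ y ∈ zar S, yᵀ * (J * u) * y = J * u ∧ y * U b = U b * M ∧
      ∀ c, c ≠ b → c ≠ bar b → y * e c = e c} := by
    refine FV.gen (g.full b hb2) ?_ ?_ ?_ hM hdet
    · exact ⟨1, subset_zar S g.one, by rw [Matrix.transpose_one, Matrix.one_mul, Matrix.mul_one],
        by rw [Matrix.one_mul, Matrix.mul_one], fun c _ _ => Matrix.one_mul _⟩
    · rintro a ⟨ya, hya, hia, h2, h3⟩ c ⟨yc, hyc, hic, h4, h5⟩
      refine ⟨ya * yc, zar_mul g.mul hya hyc, ?_, ?_, ?_⟩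
      · calc (ya * yc)ᵀ * (J * u) * (ya * yc) = ycᵀ * (yaᵀ * (J * u) * ya) * yc := by
              rw [Matrix.transpose_mul]
              simp only [Matrix.mul_assoc]
          _ = J * u := by rw [hia, hic]
      · rw [Matrix.mul_assoc, h4, ← Matrix.mul_assoc, h2, Matrix.mul_assoc]
      · intro k hk hk'
        rw [Matrix.mul_assoc, h5 k hk hk', h3 k hk hk']
    · intro N hN hNL
      exact g.one_add hN hNL
  exact key

/-- PROOF. `M = V b * Y * U b`; its determinant is `(1 - e b + Y * e b).det = 1` (`H76U.det_on` with `g.UV`, `g.VU`; see `H76U.comp_fac`); if `bar b = b`: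
`Mᵀ (U bᵀ J u U b) M = (U b M)ᵀ (J u) (U b M)` and `U b * M = e b * Y * U b = Y * U b`, so it is `U bᵀ Yᵀ (J u) Y U b = U bᵀ (J u) U b`.  `comp` gives `y` with `y * U b = Y * U b`, so
`y * e b = Y * e b`.  At `bar b`: `Yᵀ (J u) Y = J u = yᵀ (J u) y`.  `(Y * e b)ᵀ (J u) Y = (e b)ᵀ (J u) = J u * e (bar b)` and `(y * e b)ᵀ (J u) y = J u * e (bar b)`; let
`W = (Y * e b)ᵀ * (J u) = (y * e b)ᵀ * (J u)`; so `W * Y = W * y`; and `W = (e b)ᵀ * Yᵀ * (J u) = (e b)ᵀ * (J u) * Y⁻¹ = J u * e (bar b) * Y⁻¹ = J u * Y⁻¹ * e (bar b)` (`Y` is invertible by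
`det'`, `Y⁻¹` commutes with `DD`), so `e (bar b) * Y = e (bar b) * y`, and `y * e (bar b) = Y * e (bar b)` (`y` commutes with `DD`: `zar_commute`). -/
theorem fac {Y : Matrix ι ι K} (hY : Yᵀ * (J * u) * Y = J * u) (hYD : ∀ z ∈ DD, Y * z = z * Y)
    (hdet : ∀ b, (1 - e b + Y * e b).det = 1) (b : B) :
    ∃ z ∈ zar S, z * e b = Y * e b ∧ z * e (bar b) = Y * e (bar b) ∧ ∀ c, c ≠ b → c ≠ bar b → z * e c = e c := by
  have hUM : U b * (V b * Y * U b) = Y * U b := by
    calc U b * (V b * Y * U b) = (U b * V b) * Y * U b := by simp only [Matrix.mul_assoc]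
      _ = e b * Y * U b := by rw [← g.UV b]
      _ = Y * e b * U b := by rw [hYD _ (g.spl.mem b)]
      _ = Y * U b := by rw [Matrix.mul_assoc, g.eU b]
  have hMdet : (V b * Y * U b).det = 1 := by
    rw [← Pool.Agent.H76U.det_on (g.UV b) (g.VU b) (hYD _ (g.spl.mem b))]
    exact hdet b
  obtain ⟨y, hy, hyJ, hyU, hyc⟩ := g.comp (b := b) (M := V b * Y * U b) (fun _ => by
    have h1 : (V b * Y * U b)ᵀ * ((U b)ᵀ * (J * u) * U b) * (V b * Y * U b) =
        (U b * (V b * Y * U b))ᵀ * (J * u) * (U b * (V b * Y * U b)) := by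
      rw [Matrix.transpose_mul (U b)]
      simp only [Matrix.mul_assoc]
    rw [h1, hUM, Matrix.transpose_mul]
    calc (U b)ᵀ * Yᵀ * (J * u) * (Y * U b) = (U b)ᵀ * (Yᵀ * (J * u) * Y) * U b := by simp only [Matrix.mul_assoc]
      _ = (U b)ᵀ * (J * u) * U b := by rw [hY]) hMdet
  have hyD : ∀ z ∈ DD, y * z = z * y := fun z hz => zar_commute (fun s hs => g.SD s hs z hz) hy
  have h4 : y * e b = Y * e b := by
    calc y * e b = y * (U b * V b) := by rw [← g.UV b]
      _ = (y * U b) * V b := by rw [Matrix.mul_assoc]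
      _ = Y * U b * V b := by rw [hyU, hUM]
      _ = Y * (U b * V b) := by rw [Matrix.mul_assoc]
      _ = Y * e b := by rw [← g.UV b]
  refine ⟨y, hy, h4, ?_, hyc⟩
  have h5 : (Y * e b)ᵀ * (J * u) * Y = J * u * e (bar b) := by
    rw [Matrix.transpose_mul, Matrix.mul_assoc, Matrix.mul_assoc, ← Matrix.mul_assoc Yᵀ, hY, g.spl.adj b]
  have h6 : (y * e b)ᵀ * (J * u) * y = J * u * e (bar b) := by
    rw [Matrix.transpose_mul, Matrix.mul_assoc, Matrix.mul_assoc, ← Matrix.mul_assoc yᵀ, hyJ, g.spl.adj b]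
  have h7 : (Y * e b)ᵀ * (J * u) = Yᵀ * (J * u) * e (bar b) := by
    rw [hYD _ (g.spl.mem b), Matrix.transpose_mul, Matrix.mul_assoc, g.spl.adj b, ← Matrix.mul_assoc]
  have h8 : Yᵀ * (J * u) * (e (bar b) * (y - Y)) = 0 := by
    rw [← Matrix.mul_assoc, ← h7, Matrix.mul_sub, h5, ← h4, h6, sub_self]
  have h9 : IsUnit (Yᵀ * (J * u)).det := by
    have h10 : (Yᵀ * (J * u)).det * Y.det = (J * u).det := by rw [← Matrix.det_mul, hY]
    have h11 : IsUnit ((Yᵀ * (J * u)).det * Y.det) := by
      rw [h10]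
      exact g.det'
    exact isUnit_of_mul_isUnit_left h11
  have h12 := m06_canc h9 h8
  rw [Matrix.mul_sub, sub_eq_zero] at h12
  rw [hyD _ (g.spl.mem _), hYD _ (g.spl.mem _), h12]

/-- PROOF. Copy of the proof of `H76U.iso_mem4` (H76U/Grp4.lean, 60 lines), with `fac` in place of `comp_fac`. -/
theorem iso_mem {Y : Matrix ι ι K} (hY : Yᵀ * (J * u) * Y = J * u) (hYD : ∀ z ∈ DD, Y * z = z * Y)
    (hdet : ∀ b, (1 - e b + Y * e b).det = 1) : Y ∈ zar S := by
  have key : ∀ T : Finset B, ∃ z ∈ zar S, ∀ c,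
      ((c ∈ T ∨ bar c ∈ T) → z * e c = Y * e c) ∧
      (¬ (c ∈ T ∨ bar c ∈ T) → z * e c = e c) := by
    intro T
    induction T using Finset.induction_on with
    | empty =>
      refine ⟨1, subset_zar S g.one, fun c => ⟨fun hc => ?_, fun _ => one_mul _⟩⟩
      rcases hc with hc | hc <;> exact absurd hc (Finset.notMem_empty _)
    | insert b T hbT ih =>
      obtain ⟨z, hz, hzc⟩ := ih
      by_cases hbb : bar b ∈ T
      · refine ⟨z, hz, fun c => ⟨fun hc => ?_, fun hc => ?_⟩⟩
        · apply (hzc c).1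
          rcases hc with hc | hc
          · rcases Finset.mem_insert.1 hc with rfl | hc
            · exact Or.inr hbb
            · exact Or.inl hc
          · rcases Finset.mem_insert.1 hc with hc | hc
            · left
              rw [← hc, g.spl.barbar] at hbb
              exact hbb
            · exact Or.inr hc
        · apply (hzc c).2
          rintro (hc' | hc')
          · exact hc (Or.inl (Finset.mem_insert_of_mem hc'))
          · exact hc (Or.inr (Finset.mem_insert_of_mem hc'))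
      · obtain ⟨z', hz', h1, h2, h3⟩ := g.fac hY hYD hdet b
        have hz'D : ∀ d ∈ DD, z' * d = d * z' := fun d hd =>
          zar_commute (fun s hs => g.SD s hs d hd) hz'
        have hprod : ∀ c, z * e c = e c → z * z' * e c = z' * e c := by
          intro c hc
          rw [mul_assoc, hz'D _ (g.spl.mem c), ← mul_assoc, hc]
        have hb1 : z * e b = e b := (hzc b).2 (by
          rintro (hc | hc)
          · exact hbT hc
          · exact hbb hc)
        have hb2 : z * e (bar b) = e (bar b) := (hzc (bar b)).2 (by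
          rintro (hc | hc)
          · exact hbb hc
          · rw [g.spl.barbar] at hc
            exact hbT hc)
        refine ⟨z * z', zar_mul g.mul hz hz', fun c => ⟨fun hc => ?_, fun hc => ?_⟩⟩
        · by_cases hcb : c = b
          · subst hcb
            rw [hprod _ hb1, h1]
          by_cases hcb' : c = bar b
          · subst hcb'
            rw [hprod _ hb2, h2]
          rw [mul_assoc, h3 c hcb hcb']
          apply (hzc c).1
          rcases hc with hc | hc
          · rcases Finset.mem_insert.1 hc with hc | hc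
            · exact absurd hc hcb
            · exact Or.inl hc
          · rcases Finset.mem_insert.1 hc with hc | hc
            · exact absurd (by rw [← hc, g.spl.barbar]) hcb'
            · exact Or.inr hc
        · have hcb : c ≠ b := by
            rintro rfl
            exact hc (Or.inl (Finset.mem_insert_self _ _))
          have hcb' : c ≠ bar b := by
            rintro rfl
            rw [g.spl.barbar] at hc
            exact hc (Or.inr (Finset.mem_insert_self _ _))
          rw [mul_assoc, h3 c hcb hcb']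
          apply (hzc c).2
          rintro (hc' | hc')
          · exact hc (Or.inl (Finset.mem_insert_of_mem hc'))
          · exact hc (Or.inr (Finset.mem_insert_of_mem hc'))
  obtain ⟨z, hz, hzc⟩ := key Finset.univ
  have hzY : z = Y := by
    apply g.spl.ext_comm (fun d hd => zar_commute (fun s hs => g.SD s hs d hd) hz) hYD
    intro b
    exact (hzc b).1 (Or.inl (Finset.mem_univ b))
  rw [← hzY]
  exact hz

end Sit5

end Pool.Agent.H34V
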