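import Pool.Agent.Lib.H34Z.D0

/-!
# VD: definitions for version 5 (any signature)
-/

set_option autoImplicit false
set_option linter.unusedSectionVars false
namespace Pool.Agent.H34V
open Module Matrix Pool.Agent.H53Toric Pool.Agent.H76P Pool.Agent.H34Z

section
variable {κ : Type*} [Fintype κ] [DecidableEq κ] {K : Type*} [Field K]

/-- The full classical Lie algebras: symplectic, orthogonal (of rank `≥ 6`, not `8`), all operators of trace
zero.  The first two are possible only if `t` is true, the third only if `t` is false. -/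
inductive FV (t : Prop) (L : Submodule K (Module.End K (κ → K))) (J : Matrix κ κ K) : Prop
  | s (ht : t) (π : κ → κ) (hJ : Jᵀ = -J) (hdet : IsUnit J.det) (hm : Mon J π)
      (hL : ∀ X, X ∈ L ↔ adjE J X = -X) (h2 : 2 ≤ Fintype.card κ) : FV t L J
  | o (ht : t) (π : κ → κ) (hJ : Jᵀ = J) (hdet : IsUnit J.det) (hm : Mon J π) (hne : ∀ i, π i ≠ i)
      (hL : ∀ X, X ∈ L ↔ adjE J X = -X) (h6 : 6 ≤ Fintype.card κ) (h8 : Fintype.card κ ≠ 8) : FV t L J
  | n (ht : ¬ t) (hL : ∀ X, X ∈ L ↔ LinearMap.trace K (κ → K) X = 0) (h2 : 2 ≤ Fintype.card κ) : FV t L J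

end

section
variable {κ κ' : Type*} [Fintype κ] [DecidableEq κ] [Fintype κ'] [DecidableEq κ'] {K : Type*} [Field K]

/-- As `H34Z.Gr`, without the involutions. -/
structure Gz (𝓛 : Submodule K (Module.End K (κ → K) × Module.End K (κ' → K)))
    (L : Submodule K (Module.End K (κ → K))) (L' : Submodule K (Module.End K (κ' → K)))
    (d : κ → K) (d' : κ' → K) : Prop where
  lie : ∀ p ∈ 𝓛, ∀ q ∈ 𝓛, (p.1 * q.1 - q.1 * p.1, p.2 * q.2 - q.2 * p.2) ∈ 𝓛
  fst : ∀ X, X ∈ L ↔ ∃ X', (X, X') ∈ 𝓛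
  snd : ∀ X', X' ∈ L' ↔ ∃ X, (X, X') ∈ 𝓛
  left : ∀ X, (X, (0 : Module.End K (κ' → K))) ∈ 𝓛 → X = 0
  right : ∀ X', ((0 : Module.End K (κ → K)), X') ∈ 𝓛 → X' = 0
  inj : Function.Injective d
  inj' : Function.Injective d'
  ne : ∀ k, d k ≠ 0
  ne' : ∀ k, d' k ≠ 0
  cnj : ∀ X X', (X, X') ∈ 𝓛 → (dg d * X * dg (fun k => (d k)⁻¹), dg d' * X' * dg (fun k => (d' k)⁻¹)) ∈ 𝓛

/-- The Lie algebra with the two factors exchanged. -/
def sw (𝓛 : Submodule K (Module.End K (κ → K) × Module.End K (κ' → K))) :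
    Submodule K (Module.End K (κ' → K) × Module.End K (κ → K)) :=
  𝓛.comap (LinearEquiv.prodComm K (Module.End K (κ' → K)) (Module.End K (κ → K))).toLinearMap

theorem mem_sw {𝓛 : Submodule K (Module.End K (κ → K) × Module.End K (κ' → K))}
    {X : Module.End K (κ → K)} {X' : Module.End K (κ' → K)} : (X', X) ∈ sw 𝓛 ↔ (X, X') ∈ 𝓛 := Iff.rfl

theorem Gz.symm {𝓛 : Submodule K (Module.End K (κ → K) × Module.End K (κ' → K))}
    {L : Submodule K (Module.End K (κ → K))} {L' : Submodule K (Module.End K (κ' → K))}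
    {d : κ → K} {d' : κ' → K} (h : Gz 𝓛 L L' d d') : Gz (sw 𝓛) L' L d' d where
  lie := fun p hp q hq => h.lie (p.2, p.1) hp (q.2, q.1) hq
  fst := h.snd
  snd := h.fst
  left := h.right
  right := h.left
  inj := h.inj'
  inj' := h.inj
  ne := h.ne'
  ne' := h.ne
  cnj := fun X X' hX => h.cnj X' X hX

end

end Pool.Agent.H34V
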