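import Pool.Agent.Lib.H34Z.MD
import Pool.Agent.Lib.H34V.VD

/-!
# ND: the situation at one prime, any signature
-/

set_option autoImplicit false
set_option linter.unusedSectionVars false
namespace Pool.Agent.H34V
open Module Matrix Pool.Agent.H53Toric Pool.Agent.H76P Pool.Agent.H34Z
open Pool.Agent.H76U (cmp preL Lb Split4)
open Pool.Agent.H76Y (LcN)

section
variable {ι : Type*} [Fintype ι] [DecidableEq ι] {K : Type*} [Field K]

/-- The situation at one prime, for the image `S` of one subgroup of finite index: `J` is the form, `u` a unit of `DD` such that the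
adjoint of `e b` for the form `J * u` is `e (bar b)`; `𝓗` the projectors; `x` a product of elements `t ^ h`; the columns of `U b` are
eigenvectors of `x`; all components of the Lie algebra of rank at least two are full; `hh`: every such component has a projector which
commutes with `x` and is not trivial on it; `six`, `twi`, `twd`: no exceptional isogenies or twists. -/
structure Sit5 (J u : Matrix ι ι K) (DD : Submodule K (Matrix ι ι K)) (S 𝓗 : Set (Matrix ι ι K)) (x : Matrix ι ι K)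
    {B : Type*} [Fintype B] [DecidableEq B] (bar : B → B) (e : B → Matrix ι ι K) (n : B → ℕ)
    (U : ∀ b, Matrix ι (Fin (n b)) K) (V : ∀ b, Matrix (Fin (n b)) ι K) (d : ∀ b, Fin (n b) → K) : Prop where
  one : (1 : Matrix ι ι K) ∈ S
  mul : ∀ a ∈ S, ∀ b ∈ S, a * b ∈ S
  SD : ∀ s ∈ S, ∀ y ∈ DD, s * y = y * s
  commt : ∀ y : Matrix ι ι K, (∀ s ∈ S, y * s = s * y) → y ∈ DD
  hi : ∀ h ∈ 𝓗, h * h = h
  hs : ∀ h ∈ 𝓗, hᵀ * J + J * h = J
  hz : ∀ h ∈ 𝓗, h ∈ zlie S
  gen : S ⊆ zar (Submonoid.closure (par 𝓗) : Set (Matrix ι ι K))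
  spl : Split4 (J * u) DD bar e
  hu : u ∈ DD
  hJ : IsUnit J.det
  hu0 : IsUnit u.det
  UV : ∀ b, e b = U b * V b
  VU : ∀ b, V b * U b = 1
  pos : ∀ b, 0 < n b
  ec : ∀ b, EC x (U b) (d b)
  hx : x ∈ Submonoid.closure (par 𝓗)
  hh : ∀ b, 2 ≤ n b → ∃ h ∈ 𝓗, h * x = x * h ∧ (h * e b).rank ≠ 0 ∧ (h * e b).rank ≠ n b
  irr : ∀ b, Irr (LcN J S (U b) (V b))
  full : ∀ b, 2 ≤ n b → FV (bar b = b) (LcN J S (U b) (V b)) ((U b)ᵀ * (J * u) * U b)
  six : ∀ b c, bar b = b → bar c ≠ c → ((U b)ᵀ * (J * u) * U b)ᵀ = (U b)ᵀ * (J * u) * U b → n b = 6 → n c = 4 →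
    ∀ f f' : Fin (n b) → Fin (n c), (∀ i, f i ≠ f' i) →
      ∃ i j, d b i * d c (f j) * d c (f' j) ≠ d b j * d c (f i) * d c (f' i)
  twi : ∀ b c, c ≠ b → c ≠ bar b → 2 ≤ n b → n c = n b → (∀ h ∈ 𝓗, (h * e b).rank = (h * e c).rank) ∨
    ∀ π : Fin (n b) → Fin (n c), ∃ k k', d c (π k) * d b k' ≠ d c (π k') * d b k
  twd : ∀ b c, c ≠ b → c ≠ bar b → 2 ≤ n b → n c = n b → (∀ h ∈ 𝓗, (h * e b).rank + (h * e c).rank = n b) ∨
    ∀ π : Fin (n b) → Fin (n c), ∃ k k', d c (π k) * d b k ≠ d c (π k') * d b k'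

/-- The mean value of the block of `2 h - 1`. -/
noncomputable def shf (h p : Matrix ι ι K) (n : ℕ) : K := 2 * ((h * p).rank : K) / (n : K) - 1

end

end Pool.Agent.H34V
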