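import Pool.Agent.Lib.H34Z.H01
import Pool.Agent.Lib.H76U.Final4

/-!
# P01: the monodromy group satisfies the relations of the types (version 5)
-/

set_option autoImplicit false
set_option linter.unusedSectionVars false
namespace Pool.Agent.H34V
open Module Matrix Pool.Agent.H53Toric
open Pool.Agent.H76RM (zar_commute comm_span spanK)
open Pool.Agent.H76Y (balGrp)
open Pool.Agent.H76P (properProj)

variable {ι : Type*} [Fintype ι] [DecidableEq ι]

/-- PROOF. As `H34Z.mono_le`, for all characters. -/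
theorem mono_le5 [Nonempty ι] {ψ : Matrix ι ι ℚ} (hψ : ψᵀ = -ψ) (hψ0 : ψ.det ≠ 0) (D : Subalgebra ℚ (Matrix ι ι ℚ))
    {L : Type*} [Field L] [CharZero L] {K : Type*} [Field K]
    [Algebra L K] [IsAlgClosed K] [CharZero K] {G : Type*} [Group G]
    (ρ : G →* Matrix.GeneralLinearGroup ι L)
    (lin : ∀ σ : G, ∀ d ∈ D, (ρ σ).1 * d.map (algebraMap ℚ L) =
      d.map (algebraMap ℚ L) * (ρ σ).1)
    (sim : ∀ σ : G, ∃ c : L, (ρ σ).1ᵀ * ψ.map (algebraMap ℚ L) * (ρ σ).1 =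
      c • ψ.map (algebraMap ℚ L))
    {m : ℕ} {e : Fin m → Matrix ι ι K} (hmem : ∀ b, e b ∈ spanK K D) (hidem : ∀ b, e b * e b = e b)
    (gen : ∀ g : G, (ρ g).1.map (algebraMap L K) ∈ zar (Submonoid.closure {m | ∃ h ∈ properProj K ρ, ∃ t : K,
      t ≠ 0 ∧ m = 1 + (t - 1) • h} : Set (Matrix ι ι K)))
    {sig : Set (Fin m → ℕ)} (hsig : ∀ (a : Fin m → ℤ) (a₀ : ℤ), (∀ n ∈ sig, ∑ b, a b * (n b : ℤ) + a₀ = 0) →
      ∀ h ∈ properProj K ρ, ∑ b, a b * ((h * e b).rank : ℤ) + a₀ = 0)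
    (H : Subgroup G) : monodromy K ρ H ⊆ Pool.Agent.H76U.typeGrp K ψ D e sig := by
  classical
  obtain ⟨hJ, hdet⟩ := gram_basic hψ hψ0 K
  set J : Matrix ι ι K := ψ.map (algebraMap ℚ K) with hJdef
  have hlinK : ∀ σ : G, ∀ d ∈ D, (ρ σ).1.map (algebraMap L K) * d.map (algebraMap ℚ K) =
      d.map (algebraMap ℚ K) * (ρ σ).1.map (algebraMap L K) := by
    intro σ d hd
    have h1 := congrArg (fun m : Matrix ι ι L => m.map (algebraMap L K)) (lin σ d hd)
    have h2 : (d.map (algebraMap ℚ L)).map (algebraMap L K) = d.map (algebraMap ℚ K) := by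
      ext i j
      simp
    simp only [Matrix.map_mul] at h1
    rw [h2] at h1
    exact h1
  have hsimG : ∀ x : G, ∃ c : K, ((ρ x).1.map (algebraMap L K))ᵀ * J *
      (ρ x).1.map (algebraMap L K) = c • J := by
    intro x
    obtain ⟨c, hc⟩ := sim x
    exact ⟨_, sim_map hc⟩
  have hsimI : ∀ H' : Subgroup G, ∀ s ∈ img K ρ H', ∃ c : K, sᵀ * J * s = c • J := by
    rintro H' _ ⟨y, -, rfl⟩
    exact hsimG y
  have hlinI : ∀ H' : Subgroup G, ∀ s ∈ img K ρ H', ∀ d ∈ spanK K D, s * d = d * s := by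
    rintro H' _ ⟨y, -, rfl⟩ d hd
    exact comm_span (hlinK y) d hd
  obtain ⟨k, l, hkl⟩ : ∃ k l, J k l ≠ 0 := by
    by_contra hcon
    push Not at hcon
    have : J = 0 := by
      ext i j
      exact hcon i j
    rw [this, Matrix.det_zero] at hdet
    exact not_isUnit_zero hdet
  have hadj : ∀ x ∈ properProj K ρ, xᵀ * J * x = 0 ∧ xᵀ * J + J * x = J := fun x hx =>
    proj_sim' hdet hkl (hsimI ⊤) hx.1 hx.2.1 hx.2.2
  have hmult0 : ∀ x : Matrix ι ι K, x.det ≠ 0 → ∀ c : K, xᵀ * J * x = c • J → c ≠ 0 := by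
    rintro x hx c hc rfl
    rw [zero_smul] at hc
    have h3 := congrArg Matrix.det hc
    rw [Matrix.det_mul, Matrix.det_mul, Matrix.det_transpose, Matrix.det_zero] at h3
    exact (mul_ne_zero (mul_ne_zero hx hdet.ne_zero) hx) h3
  rintro x ⟨hx, hxz⟩
  obtain ⟨c, hc⟩ := zar_sim hkl (hsimI H) hxz
  refine ⟨⟨hx, ?_, c, hc⟩, ?_⟩
  · intro d hd
    refine zar_commute ?_ hxz
    rintro _ ⟨y, -, rfl⟩
    exact hlinK y d hd
  · intro a a₀ ha c' hc'
    have hcc := hmult0 x hx c' hc'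
    refine H76U.char_zar hkl hidem (S := img K ρ ⊤) ?_ (𝓗 := properProj K ρ) (fun x hx => hx.1) hadj hx ?_
      hcc hc' ?_ a a₀ (hsig a a₀ ha)
    · intro s hs b
      exact hlinI ⊤ s hs _ (hmem b)
    · intro b
      exact zar_commute (fun s hs => hlinI H s hs _ (hmem b)) hxz
    · refine zar_subset_zar ?_ hxz
      rintro _ ⟨σ, hσ, rfl⟩
      exact gen σ

end Pool.Agent.H34V
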