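import Pool.Agent.Lib.H34V.ND
import Pool.Agent.Lib.H34Z.H02
import Pool.Agent.Lib.H45U.A7
import Pool.Agent.Lib.H34V.N06

/-!
# P02: the situation at one prime, from the components (version 5)
-/

set_option autoImplicit false
set_option linter.unusedSectionVars false
namespace Pool.Agent.H34V
open Module Matrix Polynomial Pool.Agent.H53Toric
open Pool.Agent.H25U
open Pool.Agent.H76P hiding Hs Yo pt pt_apply wc IsWt
open Pool.Agent.H76Q
open Pool.Agent.H76Y hiding CmpN TM LocN GoodN Cls Core3 PartN MumN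
open Pool.Agent.H76Z hiding LocN GoodN Cls Core3
open Pool.Agent.H34Z
open Pool.Agent.H45U
open Pool.Agent.H76U (cmp preL Lb Split4 IsSplitting)
open Pool.Agent.H76RM (spanK)

variable {ι : Type*} [Fintype ι] [DecidableEq ι]

section
variable {K : Type*} [Field K] [CharZero K]

/-- The block of an idempotent of rank zero or of full rank. -/
theorem triv_blk {n : ℕ} {U : Matrix ι (Fin n) K} {V : Matrix (Fin n) ι K} {e h : Matrix ι ι K} (hUV : e = U * V)
    (hVU : V * U = 1) (hc : h * e = e * h) (hh : h * h = h) (hr : (h * e).rank = 0 ∨ (h * e).rank = n) :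
    V * h * U = 0 ∨ V * h * U = 1 := by
  have h1 : cmp U V h * cmp U V h = cmp U V h := by
    rw [← Pool.Agent.H76U.cmp_mul hUV hVU hc, hh]
  have h3 : phi (cmp U V h) * phi (cmp U V h) = phi (cmp U V h) := by
    rw [← map_mul, h1]
  have h5 : (cmp U V h).rank = (h * e).rank := Pool.Agent.H76U.rank_cmp hUV hVU hc
  have h6 : LinearMap.trace K (Fin n → K) (phi (cmp U V h)) = ((h * e).rank : K) := by
    rw [trace_idem h3, ← h5]
    rfl
  rcases hr with hr | hr
  · left
    rw [hr, Nat.cast_zero] at h6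
    have h7 := idem_zero h3 h6
    apply (phi (ι := Fin n) (K := K)).injective
    rw [map_zero]
    exact h7
  · right
    have h4 : (1 - phi (cmp U V h)) * (1 - phi (cmp U V h)) = 1 - phi (cmp U V h) := by
      rw [sub_mul, one_mul, mul_sub, mul_one, h3, sub_self, sub_zero]
    have h7 : LinearMap.trace K (Fin n → K) (1 - phi (cmp U V h)) = 0 := by
      rw [map_sub, h6, LinearMap.trace_one, Module.finrank_fintype_fun_eq_card, Fintype.card_fin, hr, sub_self]
    have h8 : phi (cmp U V h) = 1 := (sub_eq_zero.1 (idem_zero h4 h7)).symm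
    apply (phi (ι := Fin n) (K := K)).injective
    rw [map_one]
    exact h8

/-- Some projector which commutes with the Frobenius element is not trivial on the component. -/
theorem exists_nt {L : Type*} [Field L] [Algebra L K] {G : Type*} [Group G]
    {ρ : G →* Matrix.GeneralLinearGroup ι L} {x : Matrix ι ι K} {n : ℕ} {U : Matrix ι (Fin n) K}
    {V : Matrix (Fin n) ι K} {e : Matrix ι ι K} {d : Fin n → K} (hUV : e = U * V) (hVU : V * U = 1) (hec : EC x U d)
    (hxe : e * x = x * e) (hn : 2 ≤ n) (ht : ∀ k l : Fin n, ∀ N : ℕ, N ≠ 0 → d k ^ N = d l ^ N → k = l)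
    (hhe : ∀ h ∈ properProj K ρ, h * e = e * h)
    (tor : ∃ N : ℕ, N ≠ 0 ∧ x ^ N ∈ zar (Submonoid.closure
      {y | ∃ h ∈ properProj K ρ, h * x = x * h ∧ ∃ t : K, t ≠ 0 ∧ y = 1 + (t - 1) • h} : Set (Matrix ι ι K))) :
    ∃ h ∈ properProj K ρ, h * x = x * h ∧ (h * e).rank ≠ 0 ∧ (h * e).rank ≠ n := by
  by_contra hcon
  push Not at hcon
  obtain ⟨N, hN0, hN⟩ := tor
  have htriv : ∀ h ∈ properProj K ρ, h * x = x * h → V * h * U = 0 ∨ V * h * U = 1 := fun h hh hx =>
    triv_blk hUV hVU (hhe h hh) hh.1.1 (by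
      by_cases h0 : (h * e).rank = 0
      · exact Or.inl h0
      · exact Or.inr (hcon h hh hx h0))
  have hcomm : ∀ Z : Matrix (Fin n) (Fin n) K, x ^ N * (U * Z * V) = U * Z * V * x ^ N := by
    intro Z
    refine Pool.Agent.H76RM.zar_commute (fun y hy => ?_) hN
    refine Submonoid.closure_induction (motive := fun y _ => y * (U * Z * V) = U * Z * V * y) ?_ ?_ ?_ hy
    · rintro _ ⟨h, hh, hx, t, -, rfl⟩
      obtain ⟨P, hP⟩ : ∃ P, P = V * h * U := ⟨_, rfl⟩
      have hU : h * U = U * P := by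
        calc h * U = h * (e * U) := by rw [hUV, Matrix.mul_assoc U V U, hVU, Matrix.mul_one]
          _ = e * h * U := by rw [← Matrix.mul_assoc, hhe h hh]
          _ = U * P := by rw [hUV, hP]; simp only [Matrix.mul_assoc]
      have hV : V * h = P * V := by
        calc V * h = (V * e) * h := by rw [hUV, ← Matrix.mul_assoc, hVU, Matrix.one_mul]
          _ = V * (h * e) := by rw [Matrix.mul_assoc, ← hhe h hh]
          _ = P * V := by rw [hUV, hP]; simp only [Matrix.mul_assoc]
      have h1 : h * (U * Z * V) = U * Z * V * h := by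
        calc h * (U * Z * V) = (h * U) * Z * V := by simp only [Matrix.mul_assoc]
          _ = U * (P * Z) * V := by rw [hU]; simp only [Matrix.mul_assoc]
          _ = U * (Z * P) * V := by
            rcases htriv h hh hx with h2 | h2
            · rw [hP, h2, Matrix.zero_mul Z, Matrix.mul_zero Z]
            · rw [hP, h2, Matrix.one_mul Z, Matrix.mul_one Z]
          _ = U * Z * (P * V) := by simp only [Matrix.mul_assoc]
          _ = U * Z * V * h := by rw [← hV]; simp only [Matrix.mul_assoc]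
      rw [add_mul, mul_add, one_mul, mul_one, smul_mul_assoc, mul_smul_comm, h1]
    · rw [one_mul, mul_one]
    · intro a c _ _ ha hc
      rw [mul_assoc, hc, ← mul_assoc, ha, mul_assoc]
  have hpow : ∀ N : ℕ, x ^ N * U = U * Matrix.diagonal (fun k => d k ^ N) := by
    intro N
    induction N with
    | zero =>
      have h1 : Matrix.diagonal (fun k => d k ^ 0) = (1 : Matrix (Fin n) (Fin n) K) := by
        rw [← Matrix.diagonal_one]
        exact congrArg Matrix.diagonal (funext fun k => pow_zero (d k))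
      rw [pow_zero, Matrix.one_mul, h1, Matrix.mul_one]
    | succ N ih =>
      rw [pow_succ x, Matrix.mul_assoc, hec.eig, ← Matrix.mul_assoc, ih, Matrix.mul_assoc, Matrix.diagonal_mul_diagonal]
      exact congrArg (fun f => U * Matrix.diagonal f) (funext fun k => (pow_succ (d k) N).symm)
  have hxN : x ^ N * e = e * x ^ N := by
    have h1 : Commute (x ^ N) e := (Commute.pow_left (show Commute x e from hxe.symm) N)
    exact h1
  have hpowV : V * x ^ N = Matrix.diagonal (fun k => d k ^ N) * V := by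
    calc V * x ^ N = V * e * x ^ N := by rw [hUV, ← Matrix.mul_assoc, hVU, Matrix.one_mul]
      _ = V * (x ^ N * U) * V := by rw [Matrix.mul_assoc, ← hxN, hUV]; simp only [Matrix.mul_assoc]
      _ = (V * U) * Matrix.diagonal (fun k => d k ^ N) * V := by rw [hpow]; simp only [Matrix.mul_assoc]
      _ = _ := by rw [hVU, Matrix.one_mul]
  have hdd : ∀ k l : Fin n, d k ^ N = d l ^ N := by
    intro k l
    have h1 := hcomm (Matrix.single k l 1)
    have h2 : Matrix.diagonal (fun k => d k ^ N) * Matrix.single k l (1 : K) =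
        Matrix.single k l (1 : K) * Matrix.diagonal (fun k => d k ^ N) := by
      have h3 : V * (x ^ N * (U * Matrix.single k l (1 : K) * V)) * U =
          V * (U * Matrix.single k l (1 : K) * V * x ^ N) * U := by rw [h1]
      have h4 : V * (x ^ N * (U * Matrix.single k l (1 : K) * V)) * U =
          (V * U) * (Matrix.diagonal (fun k => d k ^ N) * Matrix.single k l (1 : K)) * (V * U) := by
        calc V * (x ^ N * (U * Matrix.single k l (1 : K) * V)) * U =
            V * (x ^ N * U) * Matrix.single k l (1 : K) * V * U := by simp only [Matrix.mul_assoc]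
          _ = _ := by rw [hpow]; simp only [Matrix.mul_assoc]
      have h5 : V * (U * Matrix.single k l (1 : K) * V * x ^ N) * U =
          (V * U) * (Matrix.single k l (1 : K) * Matrix.diagonal (fun k => d k ^ N)) * (V * U) := by
        calc V * (U * Matrix.single k l (1 : K) * V * x ^ N) * U =
            V * U * Matrix.single k l (1 : K) * (V * x ^ N) * U := by simp only [Matrix.mul_assoc]
          _ = _ := by rw [hpowV]; simp only [Matrix.mul_assoc]
      rw [h4, h5, hVU, Matrix.one_mul, Matrix.one_mul, Matrix.mul_one, Matrix.mul_one] at h3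
      exact h3
    have h3 := congrFun (congrFun h2 k) l
    rw [Matrix.diagonal_mul, Matrix.mul_diagonal, Matrix.single_apply_same, mul_one, one_mul] at h3
    exact h3
  have h1 := ht ⟨0, by omega⟩ ⟨1, by omega⟩ N hN0 (hdd _ _)
  exact absurd (congrArg Fin.val h1) (by norm_num)

end

variable {L : Type*} [Field L] [CharZero L] {K : Type} [Field K] [CharZero K] [IsAlgClosed K] [Algebra L K]
  {G : Type*} [Group G]

/-- **The situation at one prime, version 5.** -/
theorem mk_sit5 [Nonempty ι] {ψ : Matrix ι ι ℚ}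
    (hψ : ψᵀ = -ψ) (hψ0 : ψ.det ≠ 0) (D : Subalgebra ℚ (Matrix ι ι ℚ))
    (ρ : G →* Matrix.GeneralLinearGroup ι L)
    (lin : ∀ σ : G, ∀ d ∈ D, (ρ σ).1 * d.map (algebraMap ℚ L) =
      d.map (algebraMap ℚ L) * (ρ σ).1)
    (sim : ∀ σ : G, ∃ c : L, (ρ σ).1ᵀ * ψ.map (algebraMap ℚ L) * (ρ σ).1 =
      c • ψ.map (algebraMap ℚ L))
    (semis : ∀ H : Subgroup G, H.FiniteIndex → ∀ W : Submodule K (ι → K),
      (∀ s ∈ img K ρ H, ∀ w ∈ W, s *ᵥ w ∈ W) →
      ∃ W' : Submodule K (ι → K), (∀ s ∈ img K ρ H, ∀ w ∈ W', s *ᵥ w ∈ W') ∧ IsCompl W W')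
    (commt : ∀ H : Subgroup G, H.FiniteIndex → ∀ y : Matrix ι ι K,
      (∀ s ∈ img K ρ H, y * s = s * y) → y ∈ spanK K D)
    (gen : ∀ g : G, (ρ g).1.map (algebraMap L K) ∈ tgen K ρ)
    {M : Type*} [Field M] [CharZero M] {m : ℕ} {cl : Fin m → Cl} {bar : Fin m → Fin m}
    {e : Fin m → Matrix ι ι M} {u₀ : Matrix ι ι M} {F : Fin m → M[X]}
    (hspl : Splits D ψ cl bar e u₀) {x : Matrix ι ι K} (hF : FrobT K ρ e F x)
    (hx : x ∈ tgen K ρ) {q : ℚ}
    (hmult : xᵀ * ψ.map (algebraMap ℚ K) * x = algebraMap ℚ K q • ψ.map (algebraMap ℚ K))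
    {H₀ : Subgroup G} (hfin : H₀.FiniteIndex) (hprime : (H76RM.van (img K ρ H₀)).IsPrime)
    {Ω : Type*} [Field Ω] [IsAlgClosed Ω] (j : M →+* Ω) (i : Ω →+* K)
    (bal : ∀ h ∈ properProj K ρ, ∀ b, cl b ≠ .n → 2 * (h * (e b).map (i.comp j)).rank = (e b).rank)
    {a : ∀ b, Fin (e b).rank → Ω} (ha : ∀ b, Function.Injective (a b))
    (hroot : ∀ b, ∀ y : Ω, (F b).eval₂ j y = 0 ↔ ∃ k, y = a b k)
    (ht : ∀ b, ∀ k l : Fin (e b).rank, ∀ N : ℕ, N ≠ 0 → a b k ^ N = a b l ^ N → k = l)
    (four : ∀ b, cl b = .o → (e b).rank ≠ 4 ∧ (e b).rank ≠ 8)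
    (hfull : ∀ b, ∀ L : Submodule K (Module.End K (Fin (e b).rank → K)), TM L → Yo L = YS (a b) →
        (cl b = .s → ∀ J : Matrix (Fin (e b).rank) (Fin (e b).rank) K, Jᵀ = -J → IsUnit J.det →
          (∀ X ∈ L, adjE J X = -X) → ∀ X, adjE J X = -X → X ∈ L) ∧
        (cl b = .o → ∀ J : Matrix (Fin (e b).rank) (Fin (e b).rank) K, Jᵀ = J → IsUnit J.det →
          (∀ X ∈ L, adjE J X = -X) → ∀ X, adjE J X = -X → X ∈ L) ∧
        (cl b = .n → ∀ X : Module.End K (Fin (e b).rank → K),
          LinearMap.trace K (Fin (e b).rank → K) X = 0 → X ∈ L))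
    (six : ∀ b c, cl b = .o → cl c = .n → (e b).rank = 6 → (e c).rank = 4 →
      ∀ f f' : Fin (e b).rank → Fin (e c).rank, (∀ i, f i ≠ f' i) →
        ∃ k l, a b k * a c (f l) * a c (f' l) ≠ a b l * a c (f k) * a c (f' k))
    (twi : ∀ b c, c ≠ b → c ≠ bar b → 2 ≤ (e b).rank → (e c).rank = (e b).rank →
      (∀ h ∈ properProj K ρ, (h * (e b).map (i.comp j)).rank = (h * (e c).map (i.comp j)).rank) ∨
      ∀ π : Fin (e b).rank → Fin (e c).rank, ∃ k k', a c (π k) * a b k' ≠ a c (π k') * a b k)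
    (twd : ∀ b c, c ≠ b → c ≠ bar b → 2 ≤ (e b).rank → (e c).rank = (e b).rank →
      (∀ h ∈ properProj K ρ, (h * (e b).map (i.comp j)).rank + (h * (e c).map (i.comp j)).rank = (e b).rank) ∨
      ∀ π : Fin (e b).rank → Fin (e c).rank, ∃ k k', a c (π k) * a b k ≠ a c (π k') * a b k') :
    ∃ (U : ∀ b, Matrix ι (Fin (e b).rank) K) (V : ∀ b, Matrix (Fin (e b).rank) ι K),
      Sit5 (ψ.map (algebraMap ℚ K)) (u₀.map (i.comp j)) (spanK K D) (img K ρ H₀) (properProj K ρ) x bar
        (fun b => (e b).map (i.comp j)) (fun b => (e b).rank) U V (fun b k => i (a b k)) := by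
  classical
  obtain ⟨hJ, hdet0⟩ := gram_basic hψ hψ0 K
  have hsplK : Splits D ψ cl bar (fun c => (e c).map (i.comp j)) (u₀.map (i.comp j)) :=
    hspl.map (i.comp j)
  have hspl4 := hsplK.split4
  obtain ⟨φ', g₀⟩ := mk_phT (K := K) hψ hψ0 D ρ lin sim semis commt gen hF hfin hprime
  have g := H76Z.ph_unit g₀ hsplK.umem
  have hloc := fun b => mk_locU hψ hψ0 D ρ lin sim semis commt gen hspl hF hx hmult hfin hprime j i b
    (ha b) (hroot b) (ht b)
  choose U V hL hLs hLo hLn using hloc
  have hus : ∀ s ∈ img K ρ H₀, s * u₀.map (i.comp j) = u₀.map (i.comp j) * s := fun s hs =>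
    g₀.sh.SD s hs _ hsplK.umem
  have hdet : IsUnit (ψ.map (algebraMap ℚ K) * u₀.map (i.comp j)).det := by
    rw [Matrix.det_mul]
    exact hdet0.mul hsplK.unit
  have hLc : ∀ b, LcN (ψ.map (algebraMap ℚ K) * u₀.map (i.comp j)) (img K ρ H₀) (U b) (V b) =
      LcN (ψ.map (algebraMap ℚ K)) (img K ρ H₀) (U b) (V b) := fun b =>
    H76Z.lcN_unit g₀.sh.one hus hsplK.unit (U b) (V b)
  have heP : ∀ b, (e b).map (i.comp j) * U b = U b := by
    intro b
    rw [(hL b).UV, Matrix.mul_assoc, (hL b).VU, Matrix.mul_one]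
  have htr : ∀ b, ∀ A : Matrix ι ι K, (U b)ᵀ * A * U b =
      (U b)ᵀ * (((e b).map (i.comp j))ᵀ * A * (e b).map (i.comp j)) * U b := by
    intro b A
    have h1 : (U b)ᵀ * ((e b).map (i.comp j))ᵀ = (U b)ᵀ := by rw [← Matrix.transpose_mul, heP]
    calc (U b)ᵀ * A * U b = ((U b)ᵀ * ((e b).map (i.comp j))ᵀ) * A * ((e b).map (i.comp j) * U b) := by
          rw [h1, heP]
      _ = _ := by simp only [Matrix.mul_assoc]
  have heven : ∀ b, cl b ≠ .n → ∀ h ∈ properProj K ρ, Even (e b).rank := by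
    intro b hb h hh
    rw [← bal h hh b hb]
    exact even_two_mul _
  -- the form on a component is monomial
  have hxu : x * u₀.map (i.comp j) = u₀.map (i.comp j) * x := g₀.φD _ hsplK.umem
  have hsimJ : xᵀ * (ψ.map (algebraMap ℚ K) * u₀.map (i.comp j)) * x =
      algebraMap ℚ K q • (ψ.map (algebraMap ℚ K) * u₀.map (i.comp j)) := by
    calc xᵀ * (ψ.map (algebraMap ℚ K) * u₀.map (i.comp j)) * x =
        (xᵀ * ψ.map (algebraMap ℚ K) * x) * u₀.map (i.comp j) := by
          rw [Matrix.mul_assoc _ _ x, Matrix.mul_assoc _ (u₀.map (i.comp j)) x, ← hxu]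
          simp only [Matrix.mul_assoc]
      _ = _ := by rw [hmult, Matrix.smul_mul]
  have hDJ : ∀ b, Matrix.diagonal (fun k => i (a b k)) * ((U b)ᵀ * (ψ.map (algebraMap ℚ K) * u₀.map (i.comp j)) * U b) *
      Matrix.diagonal (fun k => i (a b k)) =
      algebraMap ℚ K q • ((U b)ᵀ * (ψ.map (algebraMap ℚ K) * u₀.map (i.comp j)) * U b) := by
    intro b
    have h1 := (hL b).ec.eig
    calc Matrix.diagonal (fun k => i (a b k)) * ((U b)ᵀ * (ψ.map (algebraMap ℚ K) * u₀.map (i.comp j)) * U b) *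
          Matrix.diagonal (fun k => i (a b k)) =
        (U b * Matrix.diagonal (fun k => i (a b k)))ᵀ * (ψ.map (algebraMap ℚ K) * u₀.map (i.comp j)) *
          (U b * Matrix.diagonal (fun k => i (a b k))) := by
          rw [Matrix.transpose_mul, Matrix.diagonal_transpose]
          simp only [Matrix.mul_assoc]
      _ = (U b)ᵀ * (xᵀ * (ψ.map (algebraMap ℚ K) * u₀.map (i.comp j)) * x) * U b := by
          rw [← h1, Matrix.transpose_mul]
          simp only [Matrix.mul_assoc]
      _ = _ := by rw [hsimJ, Matrix.mul_smul, Matrix.smul_mul]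
  have hmon : ∀ b, bar b = b → (∀ k l, ((U b)ᵀ * (ψ.map (algebraMap ℚ K) * u₀.map (i.comp j)) * U b) k l ≠ 0 →
      ((U b)ᵀ * (ψ.map (algebraMap ℚ K) * u₀.map (i.comp j)) * U b) l k ≠ 0) →
      ∃ π, Mon ((U b)ᵀ * (ψ.map (algebraMap ℚ K) * u₀.map (i.comp j)) * U b) π := by
    intro b hb hs
    obtain ⟨hdb, -⟩ := H76Z.form_inv (b := b) hspl4 (hL b).UV (hL b).VU g hb hdet (hL b).pos
    exact mon_of hs hdb (hL b).ec.inj (hL b).ec.ne (c := algebraMap ℚ K q) (diag_sim (hDJ b))
  have hbarn : ∀ b, bar b = b ↔ cl b ≠ .n := hspl.self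
  refine ⟨U, V, ?_⟩
  have hnt : ∀ b, 2 ≤ (e b).rank → ∃ h ∈ properProj K ρ, h * x = x * h ∧
      (h * (e b).map (i.comp j)).rank ≠ 0 ∧ (h * (e b).map (i.comp j)).rank ≠ (e b).rank := by
    intro b hb
    refine exists_nt (hL b).UV (hL b).VU (hL b).ec (hL b).ex hb (fun k l N hN h => ht b k l N hN ?_)
      (fun h hh => ((hL b).par h hh).2.1) hF.torgen
    apply i.injective
    rw [map_pow, map_pow]
    exact h
  refine
    { one := img_one ρ H₀
      mul := img_mul ρ H₀
      SD := g₀.sh.SD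
      commt := g₀.sh.commt
      hi := g₀.sh.hi
      hs := g₀.sh.hs
      hz := g₀.sh.hz
      gen := g₀.sh.gen
      spl := hspl4
      hu := hsplK.umem
      hJ := hdet0
      hu0 := hsplK.unit
      UV := fun b => (hL b).UV
      VU := fun b => (hL b).VU
      pos := fun b => (hL b).pos
      ec := fun b => (hL b).ec
      hx := hx
      hh := hnt
      irr := fun b => (hL b).ts.cmp.irr
      full := ?_
      six := ?_
      twi := ?_
      twd := ?_ }
  · intro b hb2
    obtain ⟨f1, f2, f3⟩ := hfull b _ (hL b).ts (hL b).yo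
    have hsk : bar b = b → IsUnit ((U b)ᵀ * (ψ.map (algebraMap ℚ K) * u₀.map (i.comp j)) * U b).det ∧
        ∀ X ∈ LcN (ψ.map (algebraMap ℚ K)) (img K ρ H₀) (U b) (V b),
          adjE ((U b)ᵀ * (ψ.map (algebraMap ℚ K) * u₀.map (i.comp j)) * U b) X = -X := by
      intro hb
      obtain ⟨h1, h2⟩ := H76Z.form_inv (b := b) hspl4 (hL b).UV (hL b).VU g hb hdet (hL b).pos
      exact ⟨h1, by rw [← hLc]; exact h2⟩
    cases hcl : cl b with
    | s =>
      have hb : bar b = b := (hbarn b).2 (by rw [hcl]; decide)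
      obtain ⟨h1, h2⟩ := hsk hb
      have h3 : ((U b)ᵀ * (ψ.map (algebraMap ℚ K) * u₀.map (i.comp j)) * U b)ᵀ =
          -((U b)ᵀ * (ψ.map (algebraMap ℚ K) * u₀.map (i.comp j)) * U b) := by
        rw [Matrix.transpose_mul, Matrix.transpose_mul, Matrix.transpose_transpose, ← Matrix.mul_assoc,
          htr, hsplK.alt b hcl, Matrix.mul_neg, Matrix.neg_mul, ← htr]
      obtain ⟨π, hπ⟩ := hmon b hb (by
        intro k l hkl h0
        apply hkl
        have h4 := congrFun (congrFun h3 k) l
        rw [Matrix.transpose_apply, Matrix.neg_apply, h0] at h4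
        rw [← neg_eq_zero, ← h4])
      exact FV.s hb π h3 h1 hπ (fun X => ⟨h2 X, f1 hcl _ h3 h1 h2 X⟩) (by rw [Fintype.card_fin]; exact hb2)
    | o =>
      have hb : bar b = b := (hbarn b).2 (by rw [hcl]; decide)
      obtain ⟨h1, h2⟩ := hsk hb
      have h3 : ((U b)ᵀ * (ψ.map (algebraMap ℚ K) * u₀.map (i.comp j)) * U b)ᵀ =
          ((U b)ᵀ * (ψ.map (algebraMap ℚ K) * u₀.map (i.comp j)) * U b) := by
        rw [Matrix.transpose_mul, Matrix.transpose_mul, Matrix.transpose_transpose, ← Matrix.mul_assoc,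
          htr, hsplK.sym b hcl, ← htr]
      obtain ⟨π, hπ⟩ := hmon b hb (by
        intro k l hkl h0
        apply hkl
        have h4 := congrFun (congrFun h3 k) l
        rw [Matrix.transpose_apply, h0] at h4
        exact h4.symm)
      obtain ⟨h4, h8⟩ := four b hcl
      have h5 : (e b).rank ≠ 2 := by
        intro h6
        exact so_two (by rw [Fintype.card_fin, h6]) h3 h1 h2 (hL b).ts.cmp.irr
      have h6 := (hL b).pos
      obtain ⟨h₀, hh₀, hh₀x, hr0, hr1⟩ := hnt b hb2
      have hclb : cl b ≠ .n := by rw [hcl]; decide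
      obtain ⟨r, hr⟩ := heven b hclb h₀ hh₀
      -- the involution has no fixed points
      have hsq : ∀ k, π k = k → i (a b k) * i (a b k) = algebraMap ℚ K q := by
        intro k hk
        have h7 := congrFun (congrFun (hDJ b) k) k
        rw [Matrix.mul_diagonal, Matrix.diagonal_mul, Matrix.smul_apply, smul_eq_mul] at h7
        have h9 := hπ.ne k
        rw [hk] at h9
        refine mul_right_cancel₀ h9 ?_
        rw [← h7]
        ring
      have hne : ∀ k, π k ≠ k := by
        intro k hk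
        have huniq : ∀ l, π l = l → l = k := by
          intro l hl
          refine ht b l k 2 two_ne_zero (i.injective ?_)
          rw [map_pow, map_pow, pow_two, pow_two, hsq l hl, hsq k hk]
        have h7 : ∑ x ∈ Finset.univ.erase k, (1 : ZMod 2) = 0 :=
          Finset.sum_involution (fun x _ => π x) (fun _ _ => by decide)
            (fun x hx _ hfix => (Finset.mem_erase.1 hx).1 (huniq x hfix))
            (fun x hx => Finset.mem_erase.2 ⟨fun h => (Finset.mem_erase.1 hx).1 (by rw [← hπ.inv x, h, hk]),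
              Finset.mem_univ _⟩) (fun x _ => hπ.inv x)
        rw [Finset.sum_const, nsmul_eq_mul, mul_one, Finset.card_erase_of_mem (Finset.mem_univ _), Finset.card_univ,
          Fintype.card_fin, ZMod.natCast_eq_zero_iff] at h7
        omega
      refine FV.o hb π h3 h1 hπ hne (fun X => ⟨h2 X, f2 hcl _ h3 h1 h2 X⟩) ?_ ?_
      · rw [Fintype.card_fin]
        omega
      · rw [Fintype.card_fin]
        exact h8
    | n =>
      have hb : bar b ≠ b := fun h => (hbarn b).1 h hcl
      refine FV.n hb (fun X => ⟨fun h => h.2, f3 hcl X⟩) ?_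
      rw [Fintype.card_fin]
      exact hb2
  · intro b c hb hc hJb h6 h4 f f' hff
    have hclb : cl b ≠ .n := (hbarn b).1 hb
    have hclc : cl c = .n := by
      by_contra h
      exact hc ((hbarn c).2 h)
    have hclo : cl b = .o := by
      cases hcl : cl b with
      | o => rfl
      | n => exact absurd hcl hclb
      | s =>
        exfalso
        have h3 : ((U b)ᵀ * (ψ.map (algebraMap ℚ K) * u₀.map (i.comp j)) * U b)ᵀ =
            -((U b)ᵀ * (ψ.map (algebraMap ℚ K) * u₀.map (i.comp j)) * U b) := by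
          rw [Matrix.transpose_mul, Matrix.transpose_mul, Matrix.transpose_transpose, ← Matrix.mul_assoc,
            htr, hsplK.alt b hcl, Matrix.mul_neg, Matrix.neg_mul, ← htr]
        obtain ⟨h1, -⟩ := H76Z.form_inv (b := b) hspl4 (hL b).UV (hL b).VU g hb hdet (hL b).pos
        have h5 : (U b)ᵀ * (ψ.map (algebraMap ℚ K) * u₀.map (i.comp j)) * U b = 0 := by
          have h7 : (2 : K) • ((U b)ᵀ * (ψ.map (algebraMap ℚ K) * u₀.map (i.comp j)) * U b) = 0 := by
            rw [two_smul]
            exact eq_neg_iff_add_eq_zero.1 (hJb.symm.trans h3)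
          exact (smul_eq_zero.1 h7).resolve_left two_ne_zero
        have : Nonempty (Fin (e b).rank) := ⟨⟨0, (hL b).pos⟩⟩
        rw [h5, Matrix.det_zero] at h1
        exact not_isUnit_zero h1
    obtain ⟨k, l, h1⟩ := six b c hclo hclc h6 h4 f f' hff
    refine ⟨k, l, fun h => h1 (i.injective ?_)⟩
    rw [map_mul, map_mul, map_mul, map_mul]
    exact h
  · intro b c hbc hbc' hb2 hn
    rcases twi b c hbc hbc' hb2 hn with h1 | h1
    · exact Or.inl h1
    · right
      intro π
      obtain ⟨k, k', h2⟩ := h1 π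
      refine ⟨k, k', fun h => h2 (i.injective ?_)⟩
      rw [map_mul, map_mul]
      exact h
  · intro b c hbc hbc' hb2 hn
    rcases twd b c hbc hbc' hb2 hn with h1 | h1
    · exact Or.inl h1
    · right
      intro π
      obtain ⟨k, k', h2⟩ := h1 π
      refine ⟨k, k', fun h => h2 (i.injective ?_)⟩
      rw [map_mul, map_mul]
      exact h

end Pool.Agent.H34V
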