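import Pool.Agent.Lib.H34V.P01
import Pool.Agent.Lib.H34V.P02
import Pool.Agent.Lib.H34V.N08
import Pool.Agent.Lib.H45U.W11
import Pool.Agent.Lib.H76Q.G12

/-!
# P03: the fifth version over an abstract group
-/

set_option autoImplicit false
set_option linter.unusedSectionVars false
namespace Pool.Agent.H34V
open Module Matrix Polynomial Pool.Agent.H53Toric
open Pool.Agent.H25U
open Pool.Agent.H76P hiding Hs Yo pt pt_apply wc IsWt
open Pool.Agent.H76Q
open Pool.Agent.H76Y hiding CmpN TM LocN GoodN Cls Core3 PartN MumN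
open Pool.Agent.H76Z hiding LocN GoodN Cls Core3
open Pool.Agent.H34Z
open Pool.Agent.H45U
open Pool.Agent.H76U (cmp preL Lb Split4 IsSplitting typeGrp)
open Pool.Agent.H76RM (spanK similD)

variable {ι : Type*} [Fintype ι] [DecidableEq ι] {ψ : Matrix ι ι ℚ}
    {D : Subalgebra ℚ (Matrix ι ι ℚ)} {M : Type*} [Field M] [NumberField M]
    {m : ℕ} {cl : Fin m → Cl} {bar : Fin m → Fin m} {e : Fin m → Matrix ι ι M} {u₀ : Matrix ι ι M} {G : Type*} [Group G]
    {ρ : ∀ (l : ℕ) [Fact l.Prime], G →* Matrix.GeneralLinearGroup ι ℚ_[l]}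
    {p : ℕ} [Fact p.Prime] {σ : G} {q : ℚ} {F : Fin m → M[X]}
    {φ μ ν : Matrix ι ι (AlgebraicClosure ℚ_[p])} {v : AlgebraicClosure ℚ_[p] → ℚ}
    {Δ : Set (AlgebraicClosure ℚ_[p] ≃+* AlgebraicClosure ℚ_[p])}
    {Ω : Type*} [Field Ω] [CharZero Ω] [IsAlgClosed Ω] [Algebra.IsAlgebraic ℚ Ω] {j : M →+* Ω}
    {R : Finset Ω} {N : Set ℕ} {hd : Fin m → Ω → ℕ} {ub : Fin m → Prop}

/-- **The fifth version over an abstract group**: from the Lie algebras of the components (the
conclusion of `Core5.comp`) to the monodromy groups at every prime.  `hodge`: the relations between the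
types are the same at all primes; `six`, `dir`, `dual`: no exceptional relations between the eigenvalues
of two components. -/
theorem final_of5 (C : Core5 ψ D cl bar e u₀ ρ p σ q F φ μ ν v Δ j R N hd ub)
    (four : ∀ b, cl b = .o → (e b).rank ≠ 4 ∧ (e b).rank ≠ 8)
    {a : ∀ b, Fin (e b).rank → Ω} (ha : ∀ b, Function.Injective (a b))
    (hroot : ∀ b, ∀ y : Ω, (F b).eval₂ j y = 0 ↔ ∃ k, y = a b k)
    (hf : ∀ b, ∀ (K : Type) [Field K] [CharZero K] [IsAlgClosed K]
        (L : Submodule K (Module.End K (Fin (e b).rank → K))), TM L → Yo L = YS (a b) →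
        (cl b = .s → ∀ J : Matrix (Fin (e b).rank) (Fin (e b).rank) K, Jᵀ = -J → IsUnit J.det →
          (∀ X ∈ L, adjE J X = -X) → ∀ X, adjE J X = -X → X ∈ L) ∧
        (cl b = .o → ∀ J : Matrix (Fin (e b).rank) (Fin (e b).rank) K, Jᵀ = J → IsUnit J.det →
          (∀ X ∈ L, adjE J X = -X) → ∀ X, adjE J X = -X → X ∈ L) ∧
        (cl b = .n → ∀ X : Module.End K (Fin (e b).rank → K),
          LinearMap.trace K (Fin (e b).rank → K) X = 0 → X ∈ L))
    (l : ℕ) [Fact l.Prime] (i : Ω →+* AlgebraicClosure ℚ_[l])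
    (hodge : ∀ (z : Fin m → ℤ) (z₀ : ℤ),
      (∀ h ∈ properProj (AlgebraicClosure ℚ_[l]) (ρ l), ∑ b, z b * ((h * (e b).map (i.comp j)).rank : ℤ) + z₀ = 0) ↔
        ∀ r ∈ R, ∑ b, z b * (hd b r : ℤ) + z₀ = 0)
    (six : ∀ b c, cl b = .o → cl c = .n → (e b).rank = 6 → (e c).rank = 4 →
      ∀ f f' : Fin (e b).rank → Fin (e c).rank, (∀ i, f i ≠ f' i) →
        ∃ k l, a b k * a c (f l) * a c (f' l) ≠ a b l * a c (f k) * a c (f' k))
    (dir : ∀ b c, c ≠ b → c ≠ bar b → 2 ≤ (e b).rank → (e c).rank = (e b).rank →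
      (∀ r ∈ R, hd b r = hd c r) ∨
      ∀ π : Fin (e b).rank → Fin (e c).rank, ∃ k k', a c (π k) * a b k' ≠ a c (π k') * a b k)
    (dual : ∀ b c, c ≠ b → c ≠ bar b → 2 ≤ (e b).rank → (e c).rank = (e b).rank →
      (∀ r ∈ R, hd b r + hd c r = (e b).rank) ∨
      ∀ π : Fin (e b).rank → Fin (e c).rank, ∃ k k', a c (π k) * a b k ≠ a c (π k') * a b k')
    (H : Subgroup G) (hH : H.FiniteIndex) :
    monodromy (AlgebraicClosure ℚ_[l]) (ρ l) H =
      typeGrp (AlgebraicClosure ℚ_[l]) ψ D (fun b => (e b).map (i.comp j)) {n | ∃ r ∈ R, ∀ b, n b = hd b r} := by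
  have hspl : Splits D ψ cl bar (fun b => (e b).map (i.comp j)) (u₀.map (i.comp j)) := C.hspl.map (i.comp j)
  have hsig : ∀ (z : Fin m → ℤ) (z₀ : ℤ),
      (∀ n ∈ {n : Fin m → ℕ | ∃ r ∈ R, ∀ b, n b = hd b r}, ∑ b, z b * (n b : ℤ) + z₀ = 0) ↔
        ∀ r ∈ R, ∑ b, z b * (hd b r : ℤ) + z₀ = 0 := by
    intro z z₀
    constructor
    · intro h r hr
      exact h (fun b => hd b r) ⟨r, hr, fun b => rfl⟩
    · rintro h n ⟨r, hr, hn⟩
      rw [← h r hr]
      congr 1
      exact Finset.sum_congr rfl fun b _ => by rw [hn b]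
  rcases isEmpty_or_nonempty ι with hι | hι
  · have huniq : ∀ y z : Matrix ι ι (AlgebraicClosure ℚ_[l]), y = z := by
      intro y z
      ext i
      exact (hι.false i).elim
    have hm : IsEmpty (Fin m) := ⟨fun b => hspl.ne_zero b (huniq _ _)⟩
    obtain ⟨r, hr⟩ : ∃ r, r ∈ R := by
      obtain ⟨i'⟩ := w9_exists_i p Ω
      obtain ⟨r, hr, -⟩ := C.Rval i'
      exact ⟨r, hr⟩
    ext x
    constructor
    · rintro ⟨hx, -⟩
      refine ⟨⟨hx, fun d _ => huniq _ _, 0, huniq _ _⟩, fun z z₀ h c _ => ?_⟩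
      have h1 := h (fun b => hd b r) ⟨r, hr, fun b => rfl⟩
      rw [Finset.univ_eq_empty, Finset.sum_empty, zero_add] at h1
      rw [Finset.univ_eq_empty, Finset.prod_empty, h1, zpow_zero, one_mul]
    · rintro ⟨⟨hx, -, -⟩, -⟩
      refine ⟨hx, ?_⟩
      rw [huniq x 1]
      exact subset_zar _ (img_one (ρ l) H)
  apply Set.Subset.antisymm
  · exact mono_le5 C.hψ C.hψ0 D (ρ l) (C.lin l) (C.sim l) hspl.mem hspl.idem
      (fun g => subset_zar _ (C.gen l g)) (fun z z₀ h => (hodge z z₀).2 ((hsig z z₀).1 h)) H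
  · rintro w ⟨⟨hw, hwD, c, hc⟩, hwchar⟩
    refine ⟨hw, ?_⟩
    obtain ⟨H₀, hle, hfin, hprime⟩ := Pool.Agent.H76RM.exists_prime (K := AlgebraicClosure ℚ_[l]) (ρ l) H hH
    have hsub : img (AlgebraicClosure ℚ_[l]) (ρ l) H₀ ⊆ img (AlgebraicClosure ℚ_[l]) (ρ l) H := by
      rintro _ ⟨σ, hσ, rfl⟩
      exact ⟨σ, hle hσ, rfl⟩
    apply zar_mono hsub
    have hbal' : ∀ h ∈ properProj (AlgebraicClosure ℚ_[l]) (ρ l), ∀ b, cl b ≠ .n →
        2 * (h * (e b).map (i.comp j)).rank = (e b).rank := fun h hh b hb => C.bal l h hh _ b hb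
    have ht : ∀ b, ∀ k l : Fin (e b).rank, ∀ N : ℕ, N ≠ 0 → a b k ^ N = a b l ^ N → k = l :=
      fun b k l' N hN h => ha b (C.tor b ((hroot b _).2 ⟨k, rfl⟩) ((hroot b _).2 ⟨l', rfl⟩) hN h)
    -- from the types at `p` to the projectors at `l`
    have hdir : ∀ b c, c ≠ b → c ≠ bar b → 2 ≤ (e b).rank → (e c).rank = (e b).rank →
        (∀ h ∈ properProj (AlgebraicClosure ℚ_[l]) (ρ l),
          (h * (e b).map (i.comp j)).rank = (h * (e c).map (i.comp j)).rank) ∨
        ∀ π : Fin (e b).rank → Fin (e c).rank, ∃ k k', a c (π k) * a b k' ≠ a c (π k') * a b k := by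
      intro b c hbc hbc' hb2 hn
      refine (dir b c hbc hbc' hb2 hn).imp_left fun h1 h hh => ?_
      have h2 := (hodge (Pi.single b 1 - Pi.single c 1) 0).2 (fun r hr => by
        simp only [Pi.sub_apply, sub_mul, Finset.sum_sub_distrib, add_zero]
        rw [Finset.sum_eq_single b (fun x _ hx => by rw [Pi.single_eq_of_ne hx, zero_mul])
            (fun hx => absurd (Finset.mem_univ _) hx),
          Finset.sum_eq_single c (fun x _ hx => by rw [Pi.single_eq_of_ne hx, zero_mul])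
            (fun hx => absurd (Finset.mem_univ _) hx), Pi.single_eq_same, Pi.single_eq_same, h1 r hr, sub_self]) h hh
      simp only [Pi.sub_apply, sub_mul, Finset.sum_sub_distrib, add_zero] at h2
      rw [Finset.sum_eq_single b (fun x _ hx => by rw [Pi.single_eq_of_ne hx, zero_mul])
            (fun hx => absurd (Finset.mem_univ _) hx),
          Finset.sum_eq_single c (fun x _ hx => by rw [Pi.single_eq_of_ne hx, zero_mul])
            (fun hx => absurd (Finset.mem_univ _) hx), Pi.single_eq_same, Pi.single_eq_same, one_mul, one_mul,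
            sub_eq_zero] at h2
      exact Nat.cast_injective h2
    have hdual : ∀ b c, c ≠ b → c ≠ bar b → 2 ≤ (e b).rank → (e c).rank = (e b).rank →
        (∀ h ∈ properProj (AlgebraicClosure ℚ_[l]) (ρ l),
          (h * (e b).map (i.comp j)).rank + (h * (e c).map (i.comp j)).rank = (e b).rank) ∨
        ∀ π : Fin (e b).rank → Fin (e c).rank, ∃ k k', a c (π k) * a b k ≠ a c (π k') * a b k' := by
      intro b c hbc hbc' hb2 hn
      refine (dual b c hbc hbc' hb2 hn).imp_left fun h1 h hh => ?_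
      have h2 := (hodge (Pi.single b 1 + Pi.single c 1) (-((e b).rank : ℤ))).2 (fun r hr => by
        simp only [Pi.add_apply, add_mul, Finset.sum_add_distrib]
        rw [Finset.sum_eq_single b (fun x _ hx => by rw [Pi.single_eq_of_ne hx, zero_mul])
            (fun hx => absurd (Finset.mem_univ _) hx),
          Finset.sum_eq_single c (fun x _ hx => by rw [Pi.single_eq_of_ne hx, zero_mul])
            (fun hx => absurd (Finset.mem_univ _) hx), Pi.single_eq_same, Pi.single_eq_same, one_mul, one_mul,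
            ← h1 r hr]
        push_cast
        ring) h hh
      simp only [Pi.add_apply, add_mul, Finset.sum_add_distrib] at h2
      rw [Finset.sum_eq_single b (fun x _ hx => by rw [Pi.single_eq_of_ne hx, zero_mul])
            (fun hx => absurd (Finset.mem_univ _) hx),
          Finset.sum_eq_single c (fun x _ hx => by rw [Pi.single_eq_of_ne hx, zero_mul])
            (fun hx => absurd (Finset.mem_univ _) hx), Pi.single_eq_same, Pi.single_eq_same, one_mul, one_mul] at h2
      omega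
    -- the situation
    obtain ⟨x, U, V, g⟩ : ∃ (x : Matrix ι ι (AlgebraicClosure ℚ_[l]))
        (U : ∀ b, Matrix ι (Fin (e b).rank) (AlgebraicClosure ℚ_[l]))
        (V : ∀ b, Matrix (Fin (e b).rank) ι (AlgebraicClosure ℚ_[l])),
        Sit5 (ψ.map (algebraMap ℚ (AlgebraicClosure ℚ_[l]))) (u₀.map (i.comp j)) (spanK (AlgebraicClosure ℚ_[l]) D)
          (img (AlgebraicClosure ℚ_[l]) (ρ l) H₀) (properProj (AlgebraicClosure ℚ_[l]) (ρ l)) x bar
          (fun b => (e b).map (i.comp j)) (fun b => (e b).rank) U V (fun b k => i (a b k)) := by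
      by_cases hl : l = p
      · subst hl
        exact ⟨φ, mk_sit5 C.hψ C.hψ0 D (ρ l) (C.lin l) (C.sim l) (C.semis l) (C.commt l) (C.gen l) C.hspl
          C.frobp C.crys.phigen C.multp hfin hprime j i hbal' ha hroot ht four
          (fun b L hT hY => hf b _ L hT hY) six hdir hdual⟩
      · have hmult := sim_map (K := AlgebraicClosure ℚ_[l]) (C.mult l hl)
        have h1 : algebraMap ℚ_[l] (AlgebraicClosure ℚ_[l]) (algebraMap ℚ ℚ_[l] q) =
            algebraMap ℚ (AlgebraicClosure ℚ_[l]) q := by simp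
        rw [h1] at hmult
        exact ⟨_, mk_sit5 C.hψ C.hψ0 D (ρ l) (C.lin l) (C.sim l) (C.semis l) (C.commt l) (C.gen l) C.hspl
          (C.frob l hl) (C.gen l σ) hmult hfin hprime j i hbal' ha hroot ht four
          (fun b L hT hY => hf b _ L hT hY) six hdir hdual⟩
    have hc0 : c ≠ 0 := by
      rintro rfl
      rw [zero_smul] at hc
      have h3 := congrArg Matrix.det hc
      rw [Matrix.det_mul, Matrix.det_mul, Matrix.det_transpose, Matrix.det_zero] at h3
      exact (mul_ne_zero (mul_ne_zero hw g.hJ.ne_zero) hw) h3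
    refine g.group_mem (fun h hh t ht => ?_) hw (Pool.Agent.H76RM.comm_span hwD) hc0 hc (fun z z₀ hz => ?_)
    · exact (hodgeProj_finite (ρ l) H₀ hh.1).2 t ht
    · exact hwchar z z₀ ((hsig z z₀).2 ((hodge z z₀).1 hz)) c hc

end Pool.Agent.H34V
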