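import Pool.Agent.Lib.H34V.VD
import Pool.Agent.Lib.H34Z.A04
import Pool.Agent.Lib.H34Z.A08

/-!
# V01: diagonal pairs, roots
-/

set_option autoImplicit false
set_option linter.unusedSectionVars false
namespace Pool.Agent.H34V
open Module Matrix Pool.Agent.H53Toric Pool.Agent.H76P Pool.Agent.H34Z

variable {κ κ' : Type*} [Fintype κ] [DecidableEq κ] [Fintype κ'] [DecidableEq κ'] {K : Type*} [Field K] [CharZero K]
  {𝓛 : Submodule K (Module.End K (κ → K) × Module.End K (κ' → K))}
  {L : Submodule K (Module.End K (κ → K))} {L' : Submodule K (Module.End K (κ' → K))}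
  {d ε : κ → K} {d' ε' : κ' → K}

theorem v01_cnj {κ : Type*} [Fintype κ] [DecidableEq κ] {K : Type*} [Field K] {d : κ → K} (hne : ∀ k, d k ≠ 0) (g : κ → K) :
    dg d * dg g * dg (fun k => (d k)⁻¹) = dg g := by
  rw [dg_mul, dg_mul]
  refine congrArg dg ?_
  funext k
  simp only [Pi.mul_apply]
  rw [mul_comm (d k), mul_assoc, mul_inv_cancel₀ (hne k), mul_one]

theorem v01_diag {κ : Type*} [Fintype κ] [DecidableEq κ] {K : Type*} [Field K] [CharZero K] {d : κ → K} (hne : ∀ k, d k ≠ 0)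
    (hinj : Function.Injective d) {X : Module.End K (κ → K)} (hX : dg d * X * dg (fun k => (d k)⁻¹) = X) :
    ∃ g, X = dg g := by
  refine ⟨fun a => X (Pi.single a 1) a, H25Y.ext_entry fun a b => ?_⟩
  rw [H25Y.dg_single, Pi.smul_apply, smul_eq_mul]
  by_cases hab : a = b
  · subst hab
    rw [Pi.single_eq_same, mul_one]
  · rw [Pi.single_eq_of_ne hab, mul_zero]
    have h1 := congrFun (congrArg (fun T : Module.End K (κ → K) => T (Pi.single b 1)) hX) a
    simp only [Module.End.mul_apply] at h1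
    rw [dg_apply, H25Y.dg_single, map_smul, Pi.smul_apply, smul_eq_mul] at h1
    have h2 : (d a - d b) * X (Pi.single b 1) a = 0 := by
      have h3 : d b * (d a * ((d b)⁻¹ * X (Pi.single b 1) a)) = d b * X (Pi.single b 1) a := by rw [h1]
      have h4 : d b * (d a * ((d b)⁻¹ * X (Pi.single b 1) a)) = d a * X (Pi.single b 1) a := by
        rw [mul_left_comm, mul_inv_cancel_left₀ (hne b)]
      rw [sub_mul, ← h3, h4, sub_self]
    rcases mul_eq_zero.1 h2 with h3 | h3
    · exact absurd (hinj (sub_eq_zero.1 h3)) hab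
    · exact h3

theorem v01_uniq (h : Gz 𝓛 L L' d d') {X : Module.End K (κ → K)} {X' Y' : Module.End K (κ' → K)}
    (h1 : (X, X') ∈ 𝓛) (h2 : (X, Y') ∈ 𝓛) : X' = Y' := by
  have h3 := 𝓛.sub_mem h1 h2
  rw [Prod.mk_sub_mk, sub_self] at h3
  exact sub_eq_zero.1 (h.right _ h3)

theorem v01_const {κ : Type*} [Fintype κ] [DecidableEq κ] {K : Type*} [Field K] (e : κ → K) (c : K)
    (E : Module.End K (κ → K)) :
    dg (fun k => e k - c) * E - E * dg (fun k => e k - c) = dg e * E - E * dg e := by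
  have h1 : dg (fun k => e k - c) = dg e - c • (1 : Module.End K (κ → K)) := by
    refine LinearMap.ext fun v => funext fun a => ?_
    rw [LinearMap.sub_apply, LinearMap.smul_apply, Pi.sub_apply, Pi.smul_apply, dg_apply, dg_apply,
      Module.End.one_apply, smul_eq_mul, sub_mul]
  rw [h1, sub_mul, mul_sub, smul_mul_assoc, mul_smul_comm, one_mul, mul_one]
  abel

theorem v01_lr {κ : Type*} [Fintype κ] [DecidableEq κ] {K : Type*} [Field K] [CharZero K] (g : κ → K)
    (X : Module.End K (κ → K)) (a b : κ) :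
    (dg g * X - X * dg g) (Pi.single b 1) a = (g a - g b) * X (Pi.single b 1) a := by
  rw [LinearMap.sub_apply, Pi.sub_apply, Module.End.mul_apply, Module.End.mul_apply, dg_apply, H25Y.dg_single,
    map_smul, Pi.smul_apply, smul_eq_mul, sub_mul]

/-- PROOF. As `H34Z.Gr.diag` (H34Z/A09.lean), which does not use the involutions. -/
theorem Gz.diag (h : Gz 𝓛 L L' d d') {g : κ → K} {X' : Module.End K (κ' → K)} (hX : (dg g, X') ∈ 𝓛) :
    ∃ g', X' = dg g' := by
  have h1 := h.cnj _ _ hX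
  rw [v01_cnj h.ne] at h1
  have h3 := 𝓛.sub_mem h1 hX
  rw [Prod.mk_sub_mk, sub_self] at h3
  exact v01_diag h.ne' h.inj' (sub_eq_zero.1 (h.right _ h3))

/-- The coroots: `(dg δ, dg δ')` is a diagonal pair, `δ`, `δ'` differ from `ε`, `ε'` by constants.
PROOF. As in `H34Z.Gr.fun` (H34Z/A09.lean): `E, F ∈ L` with `Trip E F ε g`, `(E, E'), (F, F') ∈ 𝓛`, `[E', F'] = dg g'`.  `[dg δ, E] = [dg ε, E] = 2 E` (a constant
commutes), so `[dg ε', E'] = [dg δ', E'] = 2 E'` (`h.lie`, `h.right`); the same for `F'`.  So `Trip E' F' ε' g'`, and `trip_val`. -/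
theorem Gz.cor (h : Gz 𝓛 L L' d d') {c c' : K} (hε : (dg (fun k => ε k - c), dg (fun k => ε' k - c')) ∈ 𝓛)
    (hv : ∀ k, ε' k = 1 ∨ ε' k = -1) {g : κ → K} {g' : κ' → K} (hg : Cor L ε g) (hgg : (dg g, dg g') ∈ 𝓛) (k : κ') :
    (ε' k = 1 → g' k = 0 ∨ g' k = 1) ∧ (ε' k = -1 → g' k = 0 ∨ g' k = -1) := by
  obtain ⟨E, hE, F, hF, t⟩ := hg
  obtain ⟨E', hE'⟩ := (h.fst _).1 hE
  obtain ⟨F', hF'⟩ := (h.fst _).1 hF
  have t' : Trip E' F' ε' g' := by
    constructor
    · have h3 := h.lie _ hε _ hE'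
      simp only at h3
      rw [v01_const, v01_const, t.e] at h3
      have h4 := 𝓛.smul_mem (2 : K) hE'
      rw [Prod.smul_mk] at h4
      exact v01_uniq h h3 h4
    · have h3 := h.lie _ hε _ hF'
      simp only at h3
      rw [v01_const, v01_const, t.f] at h3
      have h4 := 𝓛.smul_mem (-2 : K) hF'
      rw [Prod.smul_mk] at h4
      exact v01_uniq h h3 h4
    · have h3 := h.lie _ hE' _ hF'
      simp only at h3
      rw [t.co] at h3
      exact v01_uniq h h3 hgg
    · have h3 := h.lie _ hgg _ hE'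
      simp only at h3
      rw [t.he] at h3
      have h4 := 𝓛.smul_mem (2 : K) hE'
      rw [Prod.smul_mk] at h4
      exact v01_uniq h h3 h4
    · have h3 := h.lie _ hgg _ hF'
      simp only at h3
      rw [t.hf] at h3
      have h4 := 𝓛.smul_mem (-2 : K) hF'
      rw [Prod.smul_mk] at h4
      exact v01_uniq h h3 h4
  exact trip_val t' hv k

/-- PROOF. `E = phi (Matrix.single i j 1)` is in `L` (trace zero), `(E, E') ∈ 𝓛`, `E' ≠ 0` (`h.left`).  For a diagonal pair `(g, g')`: `[dg g, E] = (g i - g j) • E`,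
so `[dg g', E'] = (g i - g j) • E'` (`h.lie`, `h.right`).  Let `E' (Pi.single l 1) k ≠ 0`: then `(g' k - g' l) = g i - g j` for all diagonal pairs.  `k ≠ l`: otherwise
`g i = g j` for all `g` with `∑ g = 0`, but `g = 1_i - 1_j` has `g i - g j = 2 ≠ 0` (`trace_dg`, `h.fst`, `Gz.diag`). -/
theorem Gz.root (h : Gz 𝓛 L L' d d') (hL : ∀ X, X ∈ L ↔ LinearMap.trace K (κ → K) X = 0) {i j : κ} (hij : i ≠ j) :
    ∃ k l, k ≠ l ∧ ∀ g g', (dg g, dg g') ∈ 𝓛 → g i - g j = g' k - g' l := by
  have hphi : ∀ b a : κ, phi (Matrix.single i j (1 : K)) (Pi.single b 1) a =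
      if a = i ∧ b = j then 1 else 0 := by
    intro b a
    rw [phi_apply, Matrix.mulVec_single_one, Matrix.col_apply, Matrix.single_apply]
    by_cases h1 : i = a <;> by_cases h2 : j = b <;> simp [h1, h2, eq_comm]
  have htr : LinearMap.trace K (κ → K) (phi (Matrix.single i j (1 : K))) = 0 := by
    have e : phi (Matrix.single i j (1 : K)) = Matrix.toLin' (Matrix.single i j (1 : K)) := by
      refine LinearMap.ext fun v => ?_
      rw [phi_apply, Matrix.toLin'_apply]
    rw [e, Matrix.trace_toLin'_eq, Matrix.trace_single_eq_of_ne i j _ hij]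
  obtain ⟨E', hE'⟩ := (h.fst _).1 ((hL _).2 htr)
  have hne : E' ≠ 0 := by
    intro h0
    rw [h0] at hE'
    have h1 := h.left _ hE'
    have h2 := hphi j i
    rw [h1, LinearMap.zero_apply, Pi.zero_apply, if_pos ⟨rfl, rfl⟩] at h2
    exact zero_ne_one h2
  obtain ⟨k, l, hkl⟩ : ∃ k l, E' (Pi.single l 1) k ≠ 0 := by
    by_contra hcon
    push Not at hcon
    refine hne (H25Y.ext_entry fun a b => ?_)
    rw [hcon a b, LinearMap.zero_apply, Pi.zero_apply]
  have hall : ∀ g g', (dg g, dg g') ∈ 𝓛 → g i - g j = g' k - g' l := by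
    intro g g' hgg
    have h1 := h.lie _ hgg _ hE'
    simp only at h1
    have h2 : dg g * phi (Matrix.single i j (1 : K)) - phi (Matrix.single i j (1 : K)) * dg g =
        (g i - g j) • phi (Matrix.single i j (1 : K)) := by
      refine H25Y.ext_entry fun a b => ?_
      rw [v01_lr, LinearMap.smul_apply, Pi.smul_apply, smul_eq_mul, hphi]
      by_cases hab : a = i ∧ b = j
      · rw [if_pos hab, hab.1, hab.2]
      · rw [if_neg hab, mul_zero, mul_zero]
    rw [h2] at h1
    have h4 := 𝓛.smul_mem (g i - g j) hE'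
    rw [Prod.smul_mk] at h4
    have h5 := v01_uniq h h1 h4
    have h6 := congrFun (congrArg (fun T : Module.End K (κ' → K) => T (Pi.single l 1)) h5) k
    rw [v01_lr, LinearMap.smul_apply, Pi.smul_apply, smul_eq_mul] at h6
    exact (mul_right_cancel₀ hkl h6).symm
  refine ⟨k, l, ?_, hall⟩
  rintro rfl
  have h1 : dg (Pi.single i (1 : K) - Pi.single j 1) ∈ L := by
    rw [hL, trace_dg]
    simp
  obtain ⟨X', hX'⟩ := (h.fst _).1 h1
  obtain ⟨g', rfl⟩ := h.diag hX'
  have h2 := hall _ _ hX'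
  rw [sub_self, Pi.sub_apply, Pi.sub_apply, Pi.single_eq_same, Pi.single_eq_same,
    Pi.single_eq_of_ne hij, Pi.single_eq_of_ne hij.symm] at h2
  norm_num at h2

/-- PROOF. For `g' = 1_a - 1_b` (`h.snd`, `trace_dg`, `h.symm.diag`: there is `g` with `(dg g, dg g') ∈ 𝓛`): `u a - u b = w a - w b`, so `u - w` is a constant `t`, and
`Fintype.card κ' * t = ∑ u - ∑ w = 0`, so `t = 0` (`κ'` is not empty, otherwise nothing is to be proved). -/
theorem Gz.vec (h : Gz 𝓛 L L' d d') (hL' : ∀ X, X ∈ L' ↔ LinearMap.trace K (κ' → K) X = 0) {u w : κ' → K}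
    (hs : ∑ k, u k = ∑ k, w k) (huw : ∀ g g', (dg g, dg g') ∈ 𝓛 → ∑ k, u k * g' k = ∑ k, w k * g' k) : u = w := by
  have hab : ∀ a b : κ', u a - u b = w a - w b := by
    intro a b
    have h1 : dg (Pi.single a (1 : K) - Pi.single b 1) ∈ L' := by
      rw [hL', trace_dg]
      simp
    obtain ⟨X, hX⟩ := (h.snd _).1 h1
    obtain ⟨g, hg⟩ := Gz.diag h.symm (mem_sw.2 hX)
    rw [hg] at hX
    have h2 := huw _ _ hX
    simp only [Pi.sub_apply, mul_sub, Finset.sum_sub_distrib, Pi.single_apply, mul_ite, mul_one, mul_zero,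
      Finset.sum_ite_eq', Finset.mem_univ, if_true] at h2
    exact h2
  funext a
  have h3 : ∑ k, (u k - w k) = 0 := by
    rw [Finset.sum_sub_distrib, hs, sub_self]
  have h4 : ∀ k, u k - w k = u a - w a := fun k => by
    linear_combination hab k a
  rw [Finset.sum_congr rfl fun k _ => h4 k, Finset.sum_const, Finset.card_univ, nsmul_eq_mul] at h3
  have h5 : (Fintype.card κ' : K) ≠ 0 := by
    have : Nonempty κ' := ⟨a⟩
    exact_mod_cast Fintype.card_ne_zero
  rcases mul_eq_zero.1 h3 with h6 | h6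
  · exact absurd h6 h5
  · exact sub_eq_zero.1 h6

end Pool.Agent.H34V
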