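import Pool.Agent.Lib.H34V.V01

/-!
# V02: two linear blocks: the weights
-/

set_option autoImplicit false
set_option linter.unusedSectionVars false
namespace Pool.Agent.H34V
open Module Matrix Pool.Agent.H53Toric Pool.Agent.H76P Pool.Agent.H34Z

section v02aux
variable {κ κ' : Type*} [Fintype κ] [DecidableEq κ] [Fintype κ'] [DecidableEq κ'] {K : Type*} [Field K] [CharZero K]

theorem v02_vec1 {D : (κ → K) → (κ' → K) → Prop}
    (vec : ∀ u w : κ' → K, ∑ k, u k = ∑ k, w k →
      (∀ g g', D g g' → ∑ k, u k * g' k = ∑ k, w k * g' k) → u = w)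
    {a b : κ'} (h : ∀ g g', D g g' → g' a = g' b) : a = b := by
  have h0 := vec (Pi.single a 1) (Pi.single b 1) (by simp)
    (fun g g' hg => by simpa [Pi.single_apply] using h g g' hg)
  by_contra hne
  have h1 := congrFun h0 a
  rw [Pi.single_eq_same, Pi.single_eq_of_ne hne] at h1
  exact one_ne_zero h1

theorem v02_vec2 {D : (κ → K) → (κ' → K) → Prop}
    (vec : ∀ u w : κ' → K, ∑ k, u k = ∑ k, w k →
      (∀ g g', D g g' → ∑ k, u k * g' k = ∑ k, w k * g' k) → u = w)
    {a b c d : κ'} (h : ∀ g g', D g g' → g' a + g' b = g' c + g' d) (x : κ') :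
    (if x = a then (1 : K) else 0) + (if x = b then 1 else 0) =
      (if x = c then 1 else 0) + (if x = d then 1 else 0) := by
  have h0 := vec (fun x => (if x = a then (1 : K) else 0) + (if x = b then 1 else 0))
    (fun x => (if x = c then (1 : K) else 0) + (if x = d then 1 else 0))
    (by simp [Finset.sum_add_distrib])
    (fun g g' hg => by simpa [add_mul, Finset.sum_add_distrib] using h g g' hg)
  exact congrFun h0 x

theorem v02_vec3 {D : (κ → K) → (κ' → K) → Prop}
    (vec : ∀ u w : κ' → K, ∑ k, u k = ∑ k, w k →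
      (∀ g g', D g g' → ∑ k, u k * g' k = ∑ k, w k * g' k) → u = w)
    {a b c d e f : κ'} (h : ∀ g g', D g g' → g' a + g' b + g' c = g' d + g' e + g' f) (x : κ') :
    (if x = a then (1 : K) else 0) + (if x = b then 1 else 0) + (if x = c then 1 else 0) =
      (if x = d then 1 else 0) + (if x = e then 1 else 0) + (if x = f then 1 else 0) := by
  have h0 := vec (fun x => (if x = a then (1 : K) else 0) + (if x = b then 1 else 0) + (if x = c then 1 else 0))
    (fun x => (if x = d then (1 : K) else 0) + (if x = e then 1 else 0) + (if x = f then 1 else 0))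
    (by simp [Finset.sum_add_distrib])
    (fun g g' hg => by simpa [add_mul, Finset.sum_add_distrib] using h g g' hg)
  exact congrFun h0 x

theorem v02_three {a b ki li kj lj : κ'}
    (hu : ∀ x : κ', (if x = ki then (1 : K) else 0) + (if x = lj then 1 else 0) + (if x = b then 1 else 0) =
      (if x = li then 1 else 0) + (if x = kj then 1 else 0) + (if x = a then 1 else 0))
    (h1 : ki ≠ li) (h2 : kj ≠ lj) : ki = kj ∨ li = lj := by
  by_contra hcon
  push Not at hcon
  obtain ⟨hk, hl⟩ := hcon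
  have e1 := hu ki
  have hka : ki = a := by
    by_contra hka
    rw [if_pos rfl, if_neg h1, if_neg hk, if_neg hka] at e1
    split_ifs at e1 <;> norm_num at e1
  have e2 := hu lj
  rw [if_neg (Ne.symm hl), if_neg (Ne.symm h2), if_pos rfl, hka] at e2
  split_ifs at e2 <;> norm_num at e2

/-- Case (I), abstractly. -/
theorem v02_case (D : (κ → K) → (κ' → K) → Prop)
    (hs : ∀ g g', D g g' → ∑ k, g k = 0) (hs' : ∀ g g', D g g' → ∑ k, g' k = 0)
    (hex : ∀ g : κ → K, ∑ k, g k = 0 → ∃ g', D g g')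
    (vec : ∀ u w : κ' → K, ∑ k, u k = ∑ k, w k →
      (∀ g g', D g g' → ∑ k, u k * g' k = ∑ k, w k * g' k) → u = w)
    (root : ∀ k l : κ', k ≠ l → ∃ i j, i ≠ j ∧ ∀ g g', D g g' → g i - g j = g' k - g' l)
    (o : κ) (m : κ') (k : κ → κ') (hk : ∀ i, i ≠ o → k i ≠ m)
    (hR : ∀ i, i ≠ o → ∀ g g', D g g' → g i - g o = g' (k i) - g' m) :
    ∃ idx : κ' → κ, ∀ g g', D g g' → ∀ a, g' a = g (idx a) := by
  classical
  have hinj : ∀ i j, i ≠ o → j ≠ o → k i = k j → i = j := by
    intro i j hi hj hij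
    by_contra hne
    obtain ⟨g', hg'⟩ := hex (Pi.single i 1 - Pi.single j 1) (by simp)
    have e1 := hR i hi _ _ hg'
    have e2 := hR j hj _ _ hg'
    rw [hij] at e1
    rw [← e2] at e1
    simp only [Pi.sub_apply, Pi.single_eq_same, Pi.single_eq_of_ne hne, Pi.single_eq_of_ne (Ne.symm hne)] at e1
    norm_num at e1
  have hsurj : ∀ a, a ≠ m → ∃ i, i ≠ o ∧ k i = a := by
    intro a ha
    obtain ⟨i, j, hij, hr⟩ := root a m ha
    by_cases hj : j = o
    · subst hj
      refine ⟨i, hij, v02_vec1 vec (fun g g' hg => ?_)⟩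
      have e1 := hR i hij g g' hg
      have e2 := hr g g' hg
      linear_combination e2 - e1
    · exfalso
      by_cases hi : i = o
      · subst hi
        have h2 := v02_vec2 vec (a := m) (b := m) (c := a) (d := k j) (fun g g' hg => by
          have e1 := hR j hj g g' hg
          have e2 := hr g g' hg
          linear_combination e2 + e1) m
        rw [if_pos rfl, if_neg (Ne.symm ha), if_neg (Ne.symm (hk j hj))] at h2
        norm_num at h2
      · have h2 := v02_vec2 vec (a := k i) (b := m) (c := a) (d := k j) (fun g g' hg => by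
          have e1 := hR j hj g g' hg
          have e3 := hR i hi g g' hg
          have e2 := hr g g' hg
          linear_combination e2 + e1 - e3) m
        rw [if_pos rfl, if_neg (Ne.symm ha), if_neg (Ne.symm (hk j hj)), if_neg (Ne.symm (hk i hi))] at h2
        norm_num at h2
  have : Nonempty κ := ⟨o⟩
  choose! iv hiv1 hiv2 using hsurj
  have hivk : ∀ i, i ≠ o → iv (k i) = i := fun i hi =>
    hinj _ _ (hiv1 _ (hk i hi)) hi (hiv2 _ (hk i hi))
  have hsum : ∀ f : κ' → K, ∑ i ∈ Finset.univ.erase o, f (k i) = ∑ a ∈ Finset.univ.erase m, f a := by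
    intro f
    refine Finset.sum_bij' (fun i _ => k i) (fun a _ => iv a) ?_ ?_ ?_ ?_ ?_
    · intro i hi
      exact Finset.mem_erase.2 ⟨hk i (Finset.ne_of_mem_erase hi), Finset.mem_univ _⟩
    · intro a ha
      exact Finset.mem_erase.2 ⟨hiv1 a (Finset.ne_of_mem_erase ha), Finset.mem_univ _⟩
    · intro i hi
      exact hivk i (Finset.ne_of_mem_erase hi)
    · intro a ha
      exact hiv2 a (Finset.ne_of_mem_erase ha)
    · intro i hi
      rfl
  have hcard : (Fintype.card κ : K) = Fintype.card κ' := by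
    have h1 := hsum (fun _ => 1)
    simp only [Finset.sum_const, nsmul_eq_mul, mul_one, Finset.card_erase_of_mem (Finset.mem_univ _),
      Finset.card_univ] at h1
    have h2 : 0 < Fintype.card κ := Fintype.card_pos_iff.2 ⟨o⟩
    have h3 : 0 < Fintype.card κ' := Fintype.card_pos_iff.2 ⟨m⟩
    have h4 : Fintype.card κ - 1 = Fintype.card κ' - 1 := by exact_mod_cast h1
    have h5 : Fintype.card κ = Fintype.card κ' := by omega
    rw [h5]
  have hom : ∀ g g', D g g' → g' m = g o := by
    intro g g' hg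
    have e1 : ∑ i ∈ Finset.univ.erase o, (g i - g o) = ∑ a ∈ Finset.univ.erase m, (g' a - g' m) := by
      rw [← hsum (fun a => g' a - g' m)]
      exact Finset.sum_congr rfl (fun i hi => hR i (Finset.ne_of_mem_erase hi) g g' hg)
    have e2 : ∑ i ∈ Finset.univ.erase o, (g i - g o) = ∑ i, (g i - g o) := by
      rw [← Finset.sum_erase_add Finset.univ _ (Finset.mem_univ o), sub_self, add_zero]
    have e3 : ∑ a ∈ Finset.univ.erase m, (g' a - g' m) = ∑ a, (g' a - g' m) := by
      rw [← Finset.sum_erase_add Finset.univ _ (Finset.mem_univ m), sub_self, add_zero]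
    rw [e2, e3, Finset.sum_sub_distrib, Finset.sum_sub_distrib, hs g g' hg, hs' g g' hg, Finset.sum_const,
      Finset.sum_const, Finset.card_univ, Finset.card_univ, nsmul_eq_mul, nsmul_eq_mul, hcard] at e1
    have h3 : (Fintype.card κ' : K) ≠ 0 := by
      have : 0 < Fintype.card κ' := Fintype.card_pos_iff.2 ⟨m⟩
      exact_mod_cast this.ne'
    refine mul_left_cancel₀ h3 ?_
    linear_combination e1
  refine ⟨fun a => if a = m then o else iv a, fun g g' hg a => ?_⟩
  change g' a = g (if a = m then o else iv a)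
  by_cases ha : a = m
  · rw [if_pos ha, ha, hom g g' hg]
  · rw [if_neg ha]
    have e1 := hR (iv a) (hiv1 a ha) g g' hg
    rw [hiv2 a ha, hom g g' hg] at e1
    linear_combination -e1

end v02aux

variable {κ κ' : Type*} [Fintype κ] [DecidableEq κ] [Fintype κ'] [DecidableEq κ'] {K : Type*} [Field K] [CharZero K]
  {𝓛 : Submodule K (Module.End K (κ → K) × Module.End K (κ' → K))}
  {L : Submodule K (Module.End K (κ → K))} {L' : Submodule K (Module.End K (κ' → K))}
  {d ε : κ → K} {d' ε' : κ' → K}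

/-- PROOF. Write `R i j k l` for: `g i - g j = g' k - g' l` for all diagonal pairs.  (1) For `i ≠ j` there are `k ≠ l` with `R i j k l` (`Gz.root`).  (2) For `k ≠ l` there are
`i ≠ j` with `R i j k l` (`Gz.root` for `h.symm`).  (3) By `Gz.vec` a relation `g' a + g' b + .. = g' a' + g' b' + ..` with the same number of terms, valid for all diagonal
pairs, is an equality of multisets (compare `∑ 1_a`, as functions on `κ'`).
Fix `o : κ`.  For `i ≠ o` choose `k i ≠ l i` with `R i o (k i) (l i)`.  For `i ≠ j`, both `≠ o`: with `R i j a b`: `g' (k i) - g' (l i) - g' (k j) + g' (l j) = g' a - g' b`, so the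
multisets `{k i, l j, b}` and `{l i, k j, a}` are equal; as `k i ≠ l i`, `l j ≠ k j`, `a ≠ b`: if `k i ≠ k j` then `k i = a`, and `{l j, b} = {l i, k j}`, `l j = l i`.  So (4): `k i = k j` or
`l i = l j`; not both, since then `g i = g j` for all `g` of sum zero.
(5) All `l i` are equal or all `k i` are equal: suppose `l i ≠ l j`, so `k i = k j`; for another `r`: if `k r ≠ k i` then `l r = l i` and `l r = l j`, contradiction; so all
`k r` are equal.
Case (I) `l i = m` for all `i ≠ o` (if `κ = {o, i}` take `m = l i`): the `k i` are different (`Gz.vec`/(4)) and `≠ m`.  Every `a : κ'`, `a ≠ m`, is some `k i`: by (2) `R i j a m` for some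
`i ≠ j`; if `j = o` then `g' a - g' m = g' (k i) - g' m`, `a = k i`; if `i = o` then `g' a - g' m = g' m - g' (k j)`, impossible by (3) (`{a, k j} = {m, m}`); otherwise
`g' a - g' m = g' (k i) - g' (k j)`, `{a, k j} = {k i, m}`, `a = k i`.  So `k` is a bijection from `κ \ {o}` to `κ' \ {m}`.  Sum over `i ≠ o`: `∑ (g i - g o) = -n g o`
(`n = card κ`, `∑ g = 0`), `∑ (g' (k i) - g' m) = -n g' m` (`∑ g' = 0`, `card κ' = n`), so `g o = g' m` and `g i = g' (k i)`: `s = 1`, `idx m = o`, `idx (k i) = i`.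
Case (II) `k i = m` for all `i ≠ o`: in the same way every `a ≠ m` is some `l i`, `g i - g o = g' m - g' (l i)`, the sum gives `g o = -g' m`, `g i = -g' (l i)`: `s = -1`. -/
theorem Gz.wt (h : Gz 𝓛 L L' d d') (hL : ∀ X, X ∈ L ↔ LinearMap.trace K (κ → K) X = 0)
    (hL' : ∀ X, X ∈ L' ↔ LinearMap.trace K (κ' → K) X = 0) (h2 : 2 ≤ Fintype.card κ) :
    ∃ (idx : κ' → κ) (s : ℚ), (s = 1 ∨ s = -1) ∧
      ∀ g g', (dg g, dg g') ∈ 𝓛 → ∀ k, g' k = (s : K) * g (idx k) := by
  classical
  -- the basic facts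
  have hs : ∀ g g', (dg g, dg g') ∈ 𝓛 → ∑ k, g k = 0 := by
    intro g g' hg
    have h1 : dg g ∈ L := (h.fst _).2 ⟨_, hg⟩
    have h3 := (hL _).1 h1
    rwa [trace_dg] at h3
  have hs' : ∀ g g', (dg g, dg g') ∈ 𝓛 → ∑ k, g' k = 0 := by
    intro g g' hg
    have h1 : dg g' ∈ L' := (h.snd _).2 ⟨_, hg⟩
    have h3 := (hL' _).1 h1
    rwa [trace_dg] at h3
  have hex : ∀ g : κ → K, ∑ k, g k = 0 → ∃ g', (dg g, dg g') ∈ 𝓛 := by
    intro g hg
    have h1 : dg g ∈ L := (hL _).2 (by rw [trace_dg, hg])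
    obtain ⟨X', hX'⟩ := (h.fst _).1 h1
    obtain ⟨g', rfl⟩ := h.diag hX'
    exact ⟨g', hX'⟩
  have vec : ∀ u w : κ' → K, ∑ k, u k = ∑ k, w k →
      (∀ g g', (dg g, dg g') ∈ 𝓛 → ∑ k, u k * g' k = ∑ k, w k * g' k) → u = w :=
    fun u w h1 h3 => h.vec hL' h1 h3
  have root : ∀ k l : κ', k ≠ l → ∃ i j, i ≠ j ∧ ∀ g g', (dg g, dg g') ∈ 𝓛 → g i - g j = g' k - g' l := by
    intro k l hkl
    obtain ⟨i, j, hij, hr⟩ := h.symm.root hL' hkl
    exact ⟨i, j, hij, fun g g' hg => (hr g' g hg).symm⟩
  have hcard : 1 < Fintype.card κ := h2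
  obtain ⟨o, i0, hi0⟩ := Fintype.one_lt_card_iff.1 hcard
  -- the choice
  have hch : ∀ i, i ≠ o → ∃ p : κ' × κ', p.1 ≠ p.2 ∧ ∀ g g', (dg g, dg g') ∈ 𝓛 → g i - g o = g' p.1 - g' p.2 := by
    intro i hi
    obtain ⟨k, l, hkl, hr⟩ := h.root hL hi
    exact ⟨(k, l), hkl, hr⟩
  obtain ⟨k0, _, _, _⟩ := h.root hL hi0.symm
  have : Nonempty (κ' × κ') := ⟨(k0, k0)⟩
  choose! p hp1 hp2 using hch
  have h4 : ∀ i j, i ≠ o → j ≠ o → (p i).1 = (p j).1 ∨ (p i).2 = (p j).2 := by
    intro i j hi hj
    by_cases hij : i = j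
    · subst hij
      exact Or.inl rfl
    obtain ⟨a, b, _, hab⟩ := h.root hL hij
    refine v02_three (K := K) (a := a) (b := b) (v02_vec3 vec (fun g g' hg => ?_)) (hp1 i hi) (hp1 j hj)
    have e1 := hp2 i hi g g' hg
    have e2 := hp2 j hj g g' hg
    have e3 := hab g g' hg
    linear_combination e3 - e1 + e2
  by_cases hall : ∀ i, i ≠ o → (p i).2 = (p i0).2
  · obtain ⟨idx, hidx⟩ := v02_case (fun g g' => (dg g, dg g') ∈ 𝓛) hs hs' hex vec root o (p i0).2
      (fun i => (p i).1) (fun i hi => by rw [← hall i hi]; exact hp1 i hi)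
      (fun i hi g g' hg => by
        have e1 := hp2 i hi g g' hg
        rw [hall i hi] at e1
        exact e1)
    exact ⟨idx, 1, Or.inl rfl, fun g g' hg a => by
      rw [hidx g g' hg a]; simp⟩
  · push Not at hall
    obtain ⟨j, hj, hjl⟩ := hall
    have hj1 : (p j).1 = (p i0).1 := (h4 j i0 hj hi0.symm).resolve_right hjl
    have hall2 : ∀ r, r ≠ o → (p r).1 = (p i0).1 := by
      intro r hr
      by_contra hne
      have e1 := (h4 r i0 hr hi0.symm).resolve_left hne
      have e2 := (h4 r j hr hj).resolve_left (by rw [hj1]; exact hne)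
      exact hjl (by rw [← e2, e1])
    obtain ⟨idx, hidx⟩ := v02_case (fun g g' => (dg g, dg (-g')) ∈ 𝓛) (fun g g' hg => hs _ _ hg)
      (fun g g' hg => by
        have e1 := hs' _ _ hg
        simpa using e1)
      (fun g hg => by
        obtain ⟨g', hg'⟩ := hex g hg
        exact ⟨-g', by rwa [neg_neg]⟩)
      (fun u w h1 h3 => vec u w h1 (fun g g' hg => by
        have e1 := h3 g (-g') (by rwa [neg_neg])
        simpa using e1))
      (fun k l hkl => by
        obtain ⟨i, j, hij, hr⟩ := root l k hkl.symm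
        refine ⟨i, j, hij, fun g g' hg => ?_⟩
        have e1 := hr g _ hg
        simp only [Pi.neg_apply] at e1
        linear_combination e1)
      o (p i0).1 (fun i => (p i).2) (fun i hi => by rw [← hall2 i hi]; exact (hp1 i hi).symm)
      (fun i hi g g' hg => by
        have e1 := hp2 i hi g _ hg
        rw [hall2 i hi] at e1
        simp only [Pi.neg_apply] at e1
        linear_combination e1)
    refine ⟨idx, -1, Or.inr rfl, fun g g' hg a => ?_⟩
    have e1 := hidx g (-g') (by rwa [neg_neg]) a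
    simp only [Pi.neg_apply] at e1
    push_cast
    linear_combination -e1

end Pool.Agent.H34V
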