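import Pool.Agent.Lib.H34V.V02
import Pool.Agent.Lib.H34Z.A13

/-!
# V03: two linear blocks
-/

set_option autoImplicit false
set_option linter.unusedSectionVars false
namespace Pool.Agent.H34V
open Module Matrix Pool.Agent.H53Toric Pool.Agent.H76P Pool.Agent.H34Z

variable {κ κ' : Type*} [Fintype κ] [DecidableEq κ] [Fintype κ'] [DecidableEq κ'] {K : Type*} [Field K] [CharZero K]
  {𝓛 : Submodule K (Module.End K (κ → K) × Module.End K (κ' → K))}
  {L : Submodule K (Module.End K (κ → K))} {L' : Submodule K (Module.End K (κ' → K))}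
  {d ε : κ → K} {d' ε' : κ' → K}

theorem v03_neg (g : κ → K) : -(dg g : Module.End K (κ → K)) = dg (-g) := by
  refine LinearMap.ext fun v => funext fun a => ?_
  rw [LinearMap.neg_apply, Pi.neg_apply, dg_apply, dg_apply, Pi.neg_apply, neg_mul]

theorem v03_lt {X : Module.End K (κ → K)} {X' : Module.End K (κ' → K)} (h : (X, X') ∈ 𝓛) :
    (-(adjE (1 : Matrix κ κ K) X), X') ∈ Lt 𝓛 := by
  rw [mem_Lt, map_neg, neg_neg, adjE_one_one]
  exact h

theorem v03_dg {g : κ → K} {X' : Module.End K (κ' → K)} : (dg g, X') ∈ Lt 𝓛 ↔ (dg (-g), X') ∈ 𝓛 := by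
  rw [mem_Lt, adjE_one_dg, v03_neg]

/-- PROOF. As the case `n` of `H34Z.Gr.iso` (H34Z/A14.lean), with `Gz.wt`: if `s = 1`: `iso_n` for `𝓛` (any `k₀`; `hsepL`: for `k ≠ l` the function `1_k - 1_l` is in `L'`); if
`s = -1`: `iso_n` for `Lt 𝓛`, with `-s = 1`. -/
theorem Gz.iso (h : Gz 𝓛 L L' d d') [Nonempty κ'] (hL : ∀ X, X ∈ L ↔ LinearMap.trace K (κ → K) X = 0)
    (hL' : ∀ X, X ∈ L' ↔ LinearMap.trace K (κ' → K) X = 0) (h2 : 2 ≤ Fintype.card κ) (hirr : Irr L) (hirr' : Irr L') :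
    (∃ T : (κ → K) →ₗ[K] (κ' → K), Function.Bijective T ∧ ∀ p ∈ 𝓛, ∀ v, T (p.1 v) = p.2 (T v)) ∨
    ∃ T : (κ → K) →ₗ[K] (κ' → K), Function.Bijective T ∧
      ∀ p ∈ 𝓛, ∀ v, T (adjE (1 : Matrix κ κ K) p.1 v) = -p.2 (T v) := by
  obtain ⟨idx, s, hs, hg⟩ := h.wt hL hL' h2
  obtain ⟨k₀⟩ := (inferInstance : Nonempty κ')
  have hdiag : ∀ g : κ → K, ∑ i, g i = 0 → ∃ g' : κ' → K, (dg g, dg g') ∈ 𝓛 := by
    intro g hg0
    have h1 : dg g ∈ L := by
      rw [hL, trace_dg]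
      exact hg0
    obtain ⟨X', hX'⟩ := (h.fst _).1 h1
    obtain ⟨g', rfl⟩ := h.diag hX'
    exact ⟨g', hX'⟩
  have hsepL : ∀ k l : κ', (∀ g g', (dg g, dg g') ∈ 𝓛 → g' k = g' l) → k = l := by
    intro k l H
    by_contra hne'
    have h1 : (dg (fun i => Pi.single (M := fun _ : κ' => K) k (1 : K) i - Pi.single (M := fun _ : κ' => K) l (1 : K) i) : Module.End K (κ' → K)) ∈ L' := by
      rw [hL', trace_dg, Finset.sum_sub_distrib, Finset.sum_pi_single', Finset.sum_pi_single']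
      simp
    obtain ⟨X, hX⟩ := (h.snd _).1 h1
    obtain ⟨g, rfl⟩ := h.symm.diag (mem_sw.2 hX)
    have h3 := H g _ hX
    rw [Pi.single_eq_same, Pi.single_eq_same, Pi.single_eq_of_ne hne', Pi.single_eq_of_ne (Ne.symm hne')] at h3
    have h4 : (2 : K) = 0 := by linear_combination h3
    exact two_ne_zero h4
  have hirr2 : ∀ W : Submodule K (κ' → K), (∀ p ∈ 𝓛, ∀ w ∈ W, p.2 w ∈ W) → W = ⊥ ∨ W = ⊤ := by
    intro W hW
    refine hirr' W fun X' hX w hw => ?_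
    obtain ⟨X, hX'⟩ := (h.snd _).1 hX
    exact hW _ hX' w hw
  rcases hs with hs1 | hs1
  · left
    refine iso_n (idx := idx) (s := fun _ => s) h.lie ?_ hirr2 (fun p hp => (hL p.1).1 ((h.fst _).2 ⟨p.2, hp⟩)) hdiag h2 hsepL
      (fun _ => Or.inl hs1) hg (k₀ := k₀) hs1
    intro W hW
    refine hirr W fun X hX w hw => ?_
    obtain ⟨X', hX'⟩ := (h.fst _).1 hX
    exact hW _ hX' w hw
  · right
    obtain ⟨T, hT, hT2⟩ := iso_n (𝓛 := Lt 𝓛) (lt_lie h.lie) (fun W hW => hirr W fun X hX w hw => by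
        have h1 : -(adjE (1 : Matrix κ κ K) X) ∈ L := by
          rw [hL, map_neg, trace_adjE_one, (hL X).1 hX, neg_zero]
        obtain ⟨X', hX'⟩ := (h.fst _).1 h1
        exact hW (X, X') hX' w hw)
      (fun W hW => hirr2 W fun p hp w hw => hW _ (v03_lt hp) w hw)
      (fun p hp => by
        have h1 : (-(adjE (1 : Matrix κ κ K) p.1), p.2) ∈ 𝓛 := hp
        have h2 := (hL _).1 ((h.fst _).2 ⟨_, h1⟩)
        rw [map_neg, trace_adjE_one, neg_eq_zero] at h2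
        exact h2)
      (fun g hg0 => by
        obtain ⟨g', hg'⟩ := hdiag (-g) (by simp [hg0])
        exact ⟨g', v03_dg.2 hg'⟩) h2
      (fun k l H => hsepL k l fun g g' hgg => H (-g) g' (v03_dg.2 (by rw [neg_neg]; exact hgg)))
      (idx := idx) (s := fun _ => -s) (fun k => by
        left; rw [hs1, neg_neg])
      (fun g g' hgg k => by
        rw [hg (-g) g' (v03_dg.1 hgg) k, Pi.neg_apply]
        push_cast
        ring) (k₀ := k₀) (by rw [hs1, neg_neg])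
    refine ⟨T, hT, fun p hp v => ?_⟩
    have h3 := hT2 _ (v03_lt hp) v
    simp only [LinearMap.neg_apply, map_neg] at h3
    rw [← h3, neg_neg]

end Pool.Agent.H34V
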