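import Pool.Agent.Lib.H34V.VD

/-!
# V09: an orthogonal block of rank six and a linear block of rank four
-/

set_option autoImplicit false
set_option linter.unusedSectionVars false
namespace Pool.Agent.H34V
open Module Matrix Pool.Agent.H53Toric Pool.Agent.H76P Pool.Agent.H34Z

variable {κ κ' : Type*} [Fintype κ] [DecidableEq κ] [Fintype κ'] [DecidableEq κ'] {K : Type*} [Field K] [CharZero K]
  {𝓛 : Submodule K (Module.End K (κ → K) × Module.End K (κ' → K))}
  {L : Submodule K (Module.End K (κ → K))} {L' : Submodule K (Module.End K (κ' → K))}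
  {d : κ → K} {d' : κ' → K}

/-- The dimensions of the range and of the kernel of an idempotent with `tr (2P - 1) = 0`. -/
theorem v09_dims {P : Module.End K (κ' → K)} (hP : P * P = P) {m : ℕ} (h4 : Fintype.card κ' = 2 * m)
    (htr : LinearMap.trace K (κ' → K) ((2 : K) • P - 1) = 0) :
    Module.finrank K (LinearMap.range P) = m ∧ Module.finrank K (LinearMap.ker P) = m := by
  have h1 : LinearMap.trace K (κ' → K) P = (Module.finrank K (LinearMap.range P) : K) :=
    H53Toric.trace_idem hP
  rw [map_sub, map_smul, h1, LinearMap.trace_one, Module.finrank_fintype_fun_eq_card, h4] at htr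
  have h2 : Module.finrank K (LinearMap.range P) = m := by
    have h3 : (2 : K) * (Module.finrank K (LinearMap.range P) : K) = 2 * (m : K) := by
      rw [smul_eq_mul] at htr
      push_cast at htr
      exact sub_eq_zero.1 htr
    have h4 := mul_left_cancel₀ (two_ne_zero) h3
    exact_mod_cast h4
  have h5 := LinearMap.finrank_range_add_finrank_ker P
  rw [Module.finrank_fintype_fun_eq_card, h4, h2] at h5
  exact ⟨h2, by omega⟩

/-- The operators `X` with `P X = X`, `X P = 0` (from the kernel of `P` to its range): the dimension is `rank P * (n - rank P)`, here `2 * 2`.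
PROOF. The trace of an idempotent is the dimension of its range (`H76P.trace_idem`), so `E₁ = range P` has dimension `2` (`CharZero`) and `E₂ = ker P` has dimension
`4 - 2 = 2`.  The linear map `(E₂ →ₗ[K] E₁) → End`, `ψ ↦ E₁.subtype ∘ ψ ∘ (1 - P)` (`LinearMap.codRestrict` of `1 - P` to `E₂`) is injective with values in the submodule;
`Module.finrank_linearMap`: its source has dimension `4`; `LinearMap.finrank_le_finrank_of_injective`. -/
theorem dim_gl {P : Module.End K (κ' → K)} (hP : P * P = P) (h4 : Fintype.card κ' = 4)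
    (htr : LinearMap.trace K (κ' → K) ((2 : K) • P - 1) = 0) {W : Submodule K (Module.End K (κ' → K))}
    (hW : ∀ X, X ∈ W ↔ P * X = X ∧ X * P = 0) : 4 ≤ Module.finrank K W := by
  obtain ⟨hr, hk⟩ := v09_dims (m := 2) hP (by omega) htr
  have hPP : ∀ v, P (P v) = P v := fun v => LinearMap.congr_fun hP v
  let q : (κ' → K) →ₗ[K] LinearMap.ker P := LinearMap.codRestrict (LinearMap.ker P) (1 - P) (fun v => by
    rw [LinearMap.mem_ker, LinearMap.sub_apply, map_sub, hPP]
    exact sub_self _)
  have hq : ∀ v, (q v : κ' → K) = v - P v := fun v => rfl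
  let Φ : (LinearMap.ker P →ₗ[K] LinearMap.range P) →ₗ[K] W :=
    { toFun := fun ψ => ⟨(LinearMap.range P).subtype ∘ₗ ψ ∘ₗ q, by
        rw [hW]
        constructor
        · refine LinearMap.ext fun v => ?_
          obtain ⟨w, hw⟩ := (ψ (q v)).2
          change P (ψ (q v) : κ' → K) = (ψ (q v) : κ' → K)
          rw [← hw, hPP]
        · refine LinearMap.ext fun v => ?_
          change ((ψ (q (P v)) : LinearMap.range P) : κ' → K) = 0
          have h1 : q (P v) = 0 := by
            apply Subtype.ext
            rw [hq, hPP, sub_self]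
            rfl
          rw [h1, map_zero]
          rfl⟩
      map_add' := by
        intro a b
        apply Subtype.ext
        refine LinearMap.ext fun v => ?_
        rfl
      map_smul' := by
        intro c a
        apply Subtype.ext
        refine LinearMap.ext fun v => ?_
        rfl }
  have hΦ : Function.Injective Φ := by
    rw [injective_iff_map_eq_zero]
    intro ψ hψ
    refine LinearMap.ext fun v => ?_
    have h1 : ((Φ ψ : W) : Module.End K (κ' → K)) (v : κ' → K) = 0 := by
      rw [hψ]; rfl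
    have h2 : q (v : κ' → K) = v := by
      apply Subtype.ext
      rw [hq, LinearMap.mem_ker.1 v.2, sub_zero]
    have h3 : ((ψ (q (v : κ' → K)) : LinearMap.range P) : κ' → K) = 0 := h1
    rw [h2] at h3
    apply Subtype.ext
    exact h3
  have h5 := LinearMap.finrank_le_finrank_of_injective hΦ
  rw [Module.finrank_linearMap, hr, hk] at h5
  exact h5

/-- PROOF. `adjE J P = 1 - P` (`hs`), so the trace of `P` is `3` (`P` and `adjE J P` have the same trace: `J⁻¹ Pᵀ J`; or take the trace of `2P - 1`, which is equal to its negative), so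
`ker P` has dimension `6 - 3 = 3` (`H76P.trace_idem`, rank and nullity); let `v : Fin 3 → κ → K` be a basis of `ker P` (`Module.finBasisOfFinrankEq`).  For `X ∈ W` the form
`β (v, w) = v ⬝ᵥ (J *ᵥ X w)` is alternating (`adjE J X = -X`, `Jᵀ = J`: `β (w, v) = -β (v, w)`).  The linear map `X ↦ (β (v 0, v 1), β (v 0, v 2), β (v 1, v 2))` from `W` to `Fin 3 → K` is
injective: if it is zero then `β (v i, v j) = 0` for all `i, j`, so `β = 0` on `ker P`; for all `a, b`: `a ⬝ᵥ J X b = a ⬝ᵥ J P X (1 - P) b = ((1 - P) a) ⬝ᵥ J X ((1 - P) b) = 0` (the adjoint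
of `P` is `1 - P`), `J X = 0`, `X = 0`.  `LinearMap.finrank_le_finrank_of_injective`, `Module.finrank_fintype_fun_eq_card`. -/
theorem dim_so {J : Matrix κ κ K} (hJ : Jᵀ = J) (hdet : IsUnit J.det) {P : Module.End K (κ → K)} (hP : P * P = P)
    (h6 : Fintype.card κ = 6) (hs : adjE J ((2 : K) • P - 1) = -((2 : K) • P - 1)) {W : Submodule K (Module.End K (κ → K))}
    (hW : ∀ X ∈ W, adjE J X = -X ∧ P * X = X ∧ X * P = 0) : Module.finrank K W ≤ 3 := by
  have htr : LinearMap.trace K (κ → K) ((2 : K) • P - 1) = 0 := by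
    have h1 := adjE_tr hdet ((2 : K) • P - 1)
    rw [hs, map_neg] at h1
    exact self_eq_neg.1 h1.symm
  obtain ⟨hr, hk⟩ := v09_dims (m := 3) hP (by omega) htr
  obtain ⟨p, hp⟩ := (phi (ι := κ) (K := K)).surjective P
  -- `pᵀ J = J (1 - p)`
  have hpJ : pᵀ * J = J - J * p := by
    have h1 : ((2 : K) • P - 1) = phi ((2 : K) • p - 1) := by
      rw [map_sub, map_smul, map_one, hp]
    rw [h1, skew_iff hdet] at hs
    rw [Matrix.transpose_sub, Matrix.transpose_smul, Matrix.transpose_one, sub_mul, mul_sub, one_mul,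
      mul_one, smul_mul_assoc, mul_smul_comm] at hs
    have h2 : (2 : K) • (pᵀ * J) = (2 : K) • (J - J * p) := by
      rw [smul_sub, two_smul K J]
      have h3 : (2 : K) • (pᵀ * J) = (2 : K) • (pᵀ * J) - J + ((2 : K) • (J * p) - J) +
        (J + J - (2 : K) • (J * p)) := by abel
      rw [h3, hs, zero_add]
    exact smul_right_injective _ (two_ne_zero (α := K)) h2
  have hker : ∀ a : κ → K, a - P a ∈ LinearMap.ker P := by
    intro a
    rw [LinearMap.mem_ker, map_sub]
    have h1 : P (P a) = P a := LinearMap.congr_fun hP a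
    rw [h1, sub_self]
  -- the form
  have hanti : ∀ X ∈ W, ∀ a b, om J a (X b) = -om J b (X a) := by
    intro X hX a b
    obtain ⟨x, rfl⟩ := (phi (ι := κ) (K := K)).surjective X
    have h1 := (hW _ hX).1
    rw [skew_iff hdet] at h1
    have h2 : (J * x)ᵀ = -(J * x) := by
      rw [Matrix.transpose_mul, hJ]
      exact eq_neg_of_add_eq_zero_left h1
    rw [om_apply, om_apply, phi_apply, phi_apply, Matrix.mulVec_mulVec, Matrix.mulVec_mulVec,
      Matrix.dotProduct_mulVec b, ← Matrix.mulVec_transpose, h2, Matrix.neg_mulVec, neg_dotProduct,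
      neg_neg, dotProduct_comm]
  have hproj : ∀ X ∈ W, ∀ a b, om J a (X b) = om J (a - P a) (X (b - P b)) := by
    intro X hX a b
    obtain ⟨-, h1, h2⟩ := hW _ hX
    have h3 : X (P b) = 0 := LinearMap.congr_fun h2 b
    rw [map_sub X, h3, sub_zero, map_sub (om J), LinearMap.sub_apply]
    have h4 : om J (P a) (X b) = 0 := by
      have h5 : X b = P (X b) := (LinearMap.congr_fun h1 b).symm
      rw [h5, ← hp, phi_apply, phi_apply, om_apply, Matrix.mulVec_mulVec, dotProduct_comm,
        Matrix.dotProduct_mulVec, ← Matrix.mulVec_transpose, Matrix.mulVec_mulVec]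
      have h6 : pᵀ * (J * p) = 0 := by
        rw [← mul_assoc, hpJ, sub_mul]
        have h7 : J * p * p = J * p := by
          rw [mul_assoc]
          congr 1
          apply (phi (ι := κ) (K := K)).injective
          rw [map_mul, hp, hP]
        rw [h7, sub_self]
      rw [h6, Matrix.zero_mulVec, zero_dotProduct]
    rw [h4, sub_zero]
  let v := Module.finBasisOfFinrankEq K (LinearMap.ker P) hk
  let T : W →ₗ[K] (Fin 3 → K) :=
    { toFun := fun X => ![om J (v 0 : κ → K) ((X : Module.End K (κ → K)) (v 1 : κ → K)),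
        om J (v 0 : κ → K) ((X : Module.End K (κ → K)) (v 2 : κ → K)),
        om J (v 1 : κ → K) ((X : Module.End K (κ → K)) (v 2 : κ → K))]
      map_add' := by
        intro a b
        ext i
        fin_cases i <;> simp
      map_smul' := by
        intro c a
        ext i
        fin_cases i <;> simp }
  have hT : Function.Injective T := by
    rw [injective_iff_map_eq_zero]
    rintro ⟨X, hX⟩ h0
    have e01 : om J (v 0 : κ → K) (X (v 1 : κ → K)) = 0 := congrFun h0 0
    have e02 : om J (v 0 : κ → K) (X (v 2 : κ → K)) = 0 := congrFun h0 1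
    have e12 : om J (v 1 : κ → K) (X (v 2 : κ → K)) = 0 := congrFun h0 2
    have hself : ∀ a, om J a (X a) = 0 := fun a => self_eq_neg.1 (hanti X hX a a)
    have hall : ∀ i j, om J (v i : κ → K) (X (v j : κ → K)) = 0 := by
      intro i j
      fin_cases i <;> fin_cases j
      · exact hself _
      · exact e01
      · exact e02
      · exact (hanti X hX _ _).trans (by rw [neg_eq_zero]; exact e01)
      · exact hself _
      · exact e12
      · exact (hanti X hX _ _).trans (by rw [neg_eq_zero]; exact e02)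
      · exact (hanti X hX _ _).trans (by rw [neg_eq_zero]; exact e12)
      · exact hself _
    have hB : (om J).compl₁₂ (LinearMap.ker P).subtype (X ∘ₗ (LinearMap.ker P).subtype) = 0 := by
      refine LinearMap.ext_basis v v (fun i j => ?_)
      exact hall i j
    have hz : ∀ a b, om J a (X b) = 0 := by
      intro a b
      rw [hproj X hX a b]
      exact LinearMap.congr_fun (LinearMap.congr_fun hB ⟨a - P a, hker a⟩) ⟨b - P b, hker b⟩
    obtain ⟨x, rfl⟩ := (phi (ι := κ) (K := K)).surjective X
    have hJx : J * x = 0 := by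
      ext i j
      have h1 := hz (Pi.single i 1) (Pi.single j 1)
      rw [om_apply, phi_apply, Matrix.mulVec_mulVec, single_one_dotProduct, Matrix.mulVec_single_one] at h1
      exact h1
    have hx : x = 0 := by
      have h1 : J⁻¹ * (J * x) = 0 := by rw [hJx, mul_zero]
      rwa [← mul_assoc, Matrix.nonsing_inv_mul _ hdet, one_mul] at h1
    apply Subtype.ext
    change phi x = 0
    rw [hx, map_zero]
  have h5 := LinearMap.finrank_le_finrank_of_injective hT
  rw [Module.finrank_fintype_fun_eq_card, Fintype.card_fin] at h5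
  exact h5

/-- PROOF. Let `W` be the submodule of all `p ∈ 𝓛` with `P * p.1 = p.1`, `p.1 * P = 0` (as a submodule of the product), `W₁` its image under `LinearMap.fst`, `W₂` its image
under `LinearMap.snd`.  The first projection is injective on `W` (`h.right`), so `finrank W = finrank W₁ ≤ 3` (`dim_so`, `h.fst`, `hL`).
`W₂` is the set of all `X'` with `P' * X' = X'`, `X' * P' = 0`: let `p = (X, X') ∈ 𝓛`.  If `P X = X`, `X P = 0` then `[2P - 1, X] = 2 X`, so by `h.lie`, `h.right` (difference of
`([2P-1, X], [2P'-1, X'])` and `(2X, 2X')`) `P' X' - X' P' = X'`; multiply with `P'` from the right: `P' X' P' - X' P' = X' P'`, and from both sides: `0 = P' X' P'`; so `2 X' P' = 0`, `X' P' = 0`,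
`P' X' = X'`.  Conversely every such `X'` has trace zero (`LinearMap.trace_mul_comm`), so it is in `L'`, `(X, X') ∈ 𝓛` for some `X` (`h.snd`), and in the same way (`h.left`) `P X = X`,
`X P = 0`.  `dim_gl`: `4 ≤ finrank W₂ ≤ finrank W`, contradiction. -/
theorem six_false (h : Gz 𝓛 L L' d d') {J : Matrix κ κ K} (hJ : Jᵀ = J) (hdet : IsUnit J.det)
    (hL : ∀ X, X ∈ L ↔ adjE J X = -X) (h6 : Fintype.card κ = 6)
    (hL' : ∀ X, X ∈ L' ↔ LinearMap.trace K (κ' → K) X = 0) (h4 : Fintype.card κ' = 4)
    {P : Module.End K (κ → K)} {P' : Module.End K (κ' → K)} (hP : P * P = P) (hP' : P' * P' = P')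
    (hp : ((2 : K) • P - 1, (2 : K) • P' - 1) ∈ 𝓛) : False := by
  have hs : adjE J ((2 : K) • P - 1) = -((2 : K) • P - 1) := (hL _).1 ((h.fst _).2 ⟨_, hp⟩)
  have htr : LinearMap.trace K (κ' → K) ((2 : K) • P' - 1) = 0 := (hL' _).1 ((h.snd _).2 ⟨_, hp⟩)
  let W₂ : Submodule K (Module.End K (κ' → K)) :=
    { carrier := {X | P' * X = X ∧ X * P' = 0}
      add_mem' := by
        rintro a b ⟨h1, h2⟩ ⟨h3, h4⟩
        exact ⟨by rw [mul_add, h1, h3], by rw [add_mul, h2, h4, add_zero]⟩
      zero_mem' := ⟨mul_zero _, zero_mul _⟩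
      smul_mem' := by
        rintro c a ⟨h1, h2⟩
        exact ⟨by rw [mul_smul_comm, h1], by rw [smul_mul_assoc, h2, smul_zero]⟩ }
  have hW₂ : ∀ X, X ∈ W₂ ↔ P' * X = X ∧ X * P' = 0 := fun X => Iff.rfl
  let W₁ : Submodule K (Module.End K (κ → K)) :=
    { carrier := {X | adjE J X = -X ∧ P * X = X ∧ X * P = 0}
      add_mem' := by
        rintro a b ⟨h0, h1, h2⟩ ⟨h3, h4, h5⟩
        exact ⟨by rw [map_add, h0, h3, neg_add], by rw [mul_add, h1, h4], by rw [add_mul, h2, h5, add_zero]⟩
      zero_mem' := ⟨by simp, mul_zero _, zero_mul _⟩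
      smul_mem' := by
        rintro c a ⟨h0, h1, h2⟩
        exact ⟨by rw [map_smul, h0, smul_neg], by rw [mul_smul_comm, h1], by rw [smul_mul_assoc, h2, smul_zero]⟩ }
  have hW₁ : ∀ X ∈ W₁, adjE J X = -X ∧ P * X = X ∧ X * P = 0 := fun X hX => hX
  have hle2 := dim_gl hP' h4 htr hW₂
  have hle1 := dim_so hJ hdet hP h6 hs hW₁
  let W : Submodule K (Module.End K (κ → K) × Module.End K (κ' → K)) :=
    𝓛 ⊓ W₂.comap (LinearMap.snd K _ _)
  -- from `W` to `W₁`
  have hmem : ∀ p ∈ W, p.1 ∈ W₁ := by
    rintro ⟨X, X'⟩ ⟨h1, h2⟩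
    obtain ⟨h3, h5⟩ : P' * X' = X' ∧ X' * P' = 0 := h2
    refine ⟨(hL _).1 ((h.fst _).2 ⟨_, h1⟩), ?_⟩
    have h7 := h.lie _ hp _ h1
    have h8 := 𝓛.sub_mem h7 (𝓛.smul_mem (2 : K) h1)
    have e1 : (((2 : K) • P' - 1) * X' - X' * ((2 : K) • P' - 1)) - (2 : K) • X' = 0 := by
      rw [sub_mul, mul_sub, smul_mul_assoc, mul_smul_comm, h3, h5, smul_zero, one_mul, mul_one,
        zero_sub, sub_neg_eq_add, sub_add_cancel, sub_self]
    have e2 : (((2 : K) • P - 1) * X - X * ((2 : K) • P - 1)) - (2 : K) • X = 0 := by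
      apply h.left
      have h9 := h8
      rw [Prod.smul_mk, Prod.mk_sub_mk, e1] at h9
      exact h9
    have e3 : P * X - X * P = X := by
      have h9 : (2 : K) • (P * X - X * P) = (2 : K) • X := by
        rw [sub_mul, mul_sub, smul_mul_assoc, mul_smul_comm, one_mul, mul_one] at e2
        rw [smul_sub]
        have h10 : (2 : K) • (P * X) - (2 : K) • (X * P) =
          ((2 : K) • (P * X) - X - ((2 : K) • (X * P) - X) - (2 : K) • X) + (2 : K) • X := by abel
        rw [h10, e2, zero_add]
      exact smul_right_injective _ (two_ne_zero (α := K)) h9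
    have e4 : P * X * P = 0 := by
      have h9 : P * (P * X - X * P) = P * X := by rw [e3]
      rw [mul_sub, ← mul_assoc, hP, ← mul_assoc] at h9
      have h10 : P * X * P = P * X - (P * X - P * X * P) := by abel
      rw [h10, h9, sub_self]
    have e5 : X * P = 0 := by
      have h9 : (P * X - X * P) * P = X * P := by rw [e3]
      rw [sub_mul, e4, mul_assoc, hP, zero_sub] at h9
      have h10 : (2 : K) • (X * P) = (2 : K) • (0 : Module.End K (κ → K)) := by
        rw [two_smul, smul_zero]
        nth_rewrite 1 [← h9]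
        exact neg_add_cancel _
      exact smul_right_injective _ (two_ne_zero (α := K)) h10
    exact ⟨by rw [e5, sub_zero] at e3; exact e3, e5⟩
  let T : W →ₗ[K] W₁ := LinearMap.codRestrict W₁ (LinearMap.fst K _ _ ∘ₗ W.subtype)
    (fun p => hmem p.1 p.2)
  have hT : Function.Injective T := by
    rw [injective_iff_map_eq_zero]
    rintro ⟨⟨X, X'⟩, hX⟩ h0
    have h1 : X = 0 := congrArg Subtype.val h0
    subst h1
    have h2 : X' = 0 := h.right _ hX.1
    subst h2
    rfl
  have hfin1 := LinearMap.finrank_le_finrank_of_injective hT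
  have hsub : W₂ ≤ W.map (LinearMap.snd K _ _) := by
    intro X' hX'
    obtain ⟨h1, h2⟩ := hX'
    have h3 : LinearMap.trace K (κ' → K) X' = 0 := by
      rw [← h1, LinearMap.trace_mul_comm, h2, map_zero]
    obtain ⟨X, hX⟩ := (h.snd _).1 ((hL' _).2 h3)
    exact ⟨(X, X'), ⟨hX, ⟨h1, h2⟩⟩, rfl⟩
  have hfin2 : Module.finrank K W₂ ≤ Module.finrank K W :=
    (Submodule.finrank_mono hsub).trans (Submodule.finrank_map_le _ _)
  omega

end Pool.Agent.H34V
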