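import Pool.Agent.Lib.H34V.V01
import Pool.Agent.Lib.H34Z.A01
import Pool.Agent.Lib.H34Z.A03

/-!
# V10: roots of an orthogonal block and of a linear block
-/

set_option autoImplicit false
set_option linter.unusedSectionVars false
namespace Pool.Agent.H34V
open Module Matrix Pool.Agent.H53Toric Pool.Agent.H76P Pool.Agent.H34Z

variable {κ κ' : Type*} [Fintype κ] [DecidableEq κ] [Fintype κ'] [DecidableEq κ'] {K : Type*} [Field K] [CharZero K]
  {𝓛 : Submodule K (Module.End K (κ → K) × Module.End K (κ' → K))}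
  {L : Submodule K (Module.End K (κ → K))} {L' : Submodule K (Module.End K (κ' → K))}
  {d : κ → K} {d' : κ' → K} {J : Matrix κ κ K} {π : κ → κ}

theorem v10_phi (Y : Matrix κ κ K) (a b : κ) : phi Y (Pi.single b 1) a = Y a b := by
  rw [phi_apply, Matrix.mulVec_single_one, Matrix.col_apply]

/-- entries of skew operators -/
theorem v10_entry (hdet : IsUnit J.det) (hm : Mon J π) {X : Module.End K (κ → K)}
    (hX : adjE J X = -X) (a b : κ) :
    X (Pi.single b 1) a * J a (π a) = -(J b (π b) * X (Pi.single (π a) 1) (π b)) := by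
  obtain ⟨Y, rfl⟩ := (phi (ι := κ) (K := K)).surjective X
  rw [skew_iff hdet] at hX
  have s1 : (Yᵀ * J) b (π a) = Y a b * J a (π a) := by
    rw [Matrix.mul_apply, Finset.sum_eq_single a]
    · rfl
    · intro c _ hc
      rw [hm.col (by rw [hm.inv]; exact hc), mul_zero]
    · intro hh
      exact absurd (Finset.mem_univ _) hh
  have s2 : (J * Y) b (π a) = J b (π b) * Y (π b) (π a) := by
    rw [Matrix.mul_apply, Finset.sum_eq_single (π b)]
    · intro c _ hc
      rw [hm.zero b c hc, zero_mul]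
    · intro hh
      exact absurd (Finset.mem_univ _) hh
  have h1 := congrFun (congrFun hX b) (π a)
  rw [Matrix.add_apply, Matrix.zero_apply, s1, s2] at h1
  rw [v10_phi, v10_phi]
  linear_combination h1

theorem v10_g (hm : Mon J π) (a i : κ) :
    (Pi.single a (1 : K) - Pi.single (π a) 1 : κ → K) (π i) = -(Pi.single a (1 : K) - Pi.single (π a) 1 : κ → K) i := by
  have e1 : (π i = a) = (i = π a) :=
    propext ⟨fun h => by rw [← h, hm.inv], fun h => by rw [h, hm.inv]⟩
  have e2 : (π i = π a) = (i = a) :=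
    propext ⟨fun h => by rw [← hm.inv i, h, hm.inv], fun h => by rw [h]⟩
  simp only [Pi.sub_apply, Pi.single_apply, e1, e2]
  ring

theorem v10_pair (h : Gz 𝓛 L L' d d') (hdet : IsUnit J.det) (hm : Mon J π)
    (hL : ∀ X, X ∈ L ↔ adjE J X = -X) (a : κ) :
    ∃ g', (dg (Pi.single a (1 : K) - Pi.single (π a) 1), dg g') ∈ 𝓛 := by
  obtain ⟨X', hX'⟩ := (h.fst _).1 ((hL _).2 ((dg_skew hm hdet _).2 fun i => v10_g (K := K) hm a i))
  obtain ⟨g', rfl⟩ := h.diag hX'
  exact ⟨g', hX'⟩

theorem v10_skew (h : Gz 𝓛 L L' d d') (hdet : IsUnit J.det) (hm : Mon J π)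
    (hL : ∀ X, X ∈ L ↔ adjE J X = -X) {g : κ → K} {X' : Module.End K (κ' → K)} (hg : (dg g, X') ∈ 𝓛) (i : κ) :
    g (π i) = -g i :=
  (dg_skew hm hdet g).1 ((hL _).1 ((h.fst _).2 ⟨_, hg⟩)) i

theorem v10_tr (h : Gz 𝓛 L L' d d') {E : Module.End K (κ → K)} {E' : Module.End K (κ' → K)}
    (hE : (E, E') ∈ 𝓛) {k l : κ'} (hkl : E' (Pi.single l 1) k ≠ 0) {g : κ → K} {g' : κ' → K}
    (hgg : (dg g, dg g') ∈ 𝓛) {s : K} (hs : dg g * E - E * dg g = s • E) : g' k - g' l = s := by
  have h1 := h.lie _ hgg _ hE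
  simp only at h1
  rw [hs] at h1
  have h4 := 𝓛.smul_mem s hE
  rw [Prod.smul_mk] at h4
  have h5 := v01_uniq h h1 h4
  have h6 := congrFun (congrArg (fun T : Module.End K (κ' → K) => T (Pi.single l 1)) h5) k
  rw [v01_lr, LinearMap.smul_apply, Pi.smul_apply, smul_eq_mul] at h6
  exact mul_right_cancel₀ hkl h6

theorem v10_ne {E : Module.End K (κ' → K)} (hE : E ≠ 0) : ∃ k l, E (Pi.single l 1) k ≠ 0 := by
  by_contra hcon
  push Not at hcon
  refine hE (H25Y.ext_entry fun a b => ?_)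
  rw [hcon a b, LinearMap.zero_apply, Pi.zero_apply]

/-- A root of the orthogonal algebra is a root of the other algebra.
PROOF. `E = phi (J i' i • single i j 1 - J j j' • single j' i' 1)` with `i' = π i`, `j' = π j` (up to the sign and the constants: see the element `E` in the proof of `H34Z.cor_o`, H34Z/A03, with
`j'` in place of `j`; the condition is `Eᵀ J + J E = 0`, `skew_iff hdet`) is in `L`, it is not zero since `(i, j) ≠ (j', i')` (`j ≠ i'`).  Let `(E, E') ∈ 𝓛` (`h.fst`), `E' ≠ 0` (`h.left`), and choose an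
entry `E' (Pi.single l 1) k ≠ 0`.  For a diagonal pair: `g (π a) = -g a` (`dg_skew`), so `[dg g, E] = (g i - g j) • E`, and `[dg g', E'] = (g i - g j) • E'` (`h.lie`, `h.right`, as in `Gz.root`,
V01), so `g' k - g' l = g i - g j`.  `k ≠ l`: otherwise `g i = g j` for all diagonal pairs, but `g = 1_i - 1_(π i)` is one (`dg_skew`, `h.fst`, `Gz.diag`) and has `g i = 1`, `g j = 0`.
The conjugate of `E` with `d` has the entries `d i / d j` times the old one at `(i, j)` and `d j' / d i'` times the old one at `(j', i')`; it is in `L` (`h.cnj`, `h.fst`), so skew, so both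
factors are equal and the conjugate is `(d i / d j) • E`; by `h.cnj`, `h.right` the conjugate of `E'` is `(d i / d j) • E'`, so `d' k / d' l = d i / d j`. -/
theorem so_root (h : Gz 𝓛 L L' d d') (hJ : Jᵀ = J) (hdet : IsUnit J.det) (hm : Mon J π) (hne : ∀ i, π i ≠ i)
    (hL : ∀ X, X ∈ L ↔ adjE J X = -X) {i j : κ} (hij : i ≠ j) (hji : j ≠ π i) :
    ∃ k l, k ≠ l ∧ (∀ g g', (dg g, dg g') ∈ 𝓛 → g i - g j = g' k - g' l) ∧ d i * d' l = d j * d' k := by
  obtain ⟨M, hM⟩ : ∃ M, M = a03_M J π i (π j) := ⟨_, rfl⟩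
  have hEL : phi M ∈ L := by
    rw [hL, skew_iff hdet, hM]
    exact a03_skew hm hJ i (π j)
  obtain ⟨E', hE'⟩ := (h.fst _).1 hEL
  have hMe : ∀ a b, M a b = (if a = i ∧ b = j then J (π j) j else 0) -
      (if a = π j ∧ b = π i then J i (π i) else 0) := by
    intro a b
    rw [hM]
    unfold a03_M
    rw [hm.inv, Matrix.sub_apply, Matrix.single_apply, Matrix.single_apply]
    congr 1
    · exact if_congr ⟨fun h1 => ⟨h1.1.symm, h1.2.symm⟩, fun h1 => ⟨h1.1.symm, h1.2.symm⟩⟩ rfl rfl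
    · exact if_congr ⟨fun h1 => ⟨h1.1.symm, h1.2.symm⟩, fun h1 => ⟨h1.1.symm, h1.2.symm⟩⟩ rfl rfl
  have hij' : i ≠ π j := fun h1 => hji (by rw [h1, hm.inv])
  have hMij : M i j = J (π j) j := by
    rw [hMe, if_pos ⟨rfl, rfl⟩, if_neg (fun h1 => hij' h1.1), sub_zero]
  have hJj : J (π j) j ≠ 0 := by
    have h1 := hm.ne (π j)
    rwa [hm.inv] at h1
  have hMij0 : M i j ≠ 0 := by rw [hMij]; exact hJj
  have hE'0 : E' ≠ 0 := by
    intro h0
    rw [h0] at hE'
    have h1 := h.left _ hE'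
    apply hMij0
    rw [← v10_phi M i j, h1]
    rfl
  obtain ⟨k, l, hkl⟩ := v10_ne hE'0
  have hbr : ∀ g g', (dg g, dg g') ∈ 𝓛 → dg g * phi M - phi M * dg g = (g i - g j) • phi M := by
    intro g g' hgg
    have h1 := v10_skew h hdet hm hL hgg
    rw [a03_dg, ← map_mul, ← map_mul, ← map_sub, ← map_smul, hM,
      a03_brM g i (π j) (g i - g j) (by rw [hm.inv]) (by rw [h1, h1]; ring)]
  have hall : ∀ g g', (dg g, dg g') ∈ 𝓛 → g i - g j = g' k - g' l :=
    fun g g' hgg => (v10_tr h hE' hkl hgg (hbr g g' hgg)).symm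
  refine ⟨k, l, ?_, hall, ?_⟩
  · rintro rfl
    obtain ⟨g', hg'⟩ := v10_pair h hdet hm hL i
    have h1 := hall _ _ hg'
    rw [sub_self, Pi.sub_apply, Pi.sub_apply, Pi.single_eq_same, Pi.single_eq_of_ne (hne i).symm,
      Pi.single_eq_of_ne hij.symm, Pi.single_eq_of_ne hji] at h1
    norm_num at h1
  · have hc := h.cnj _ _ hE'
    have hce : ∀ a b, (dg d * phi M * dg (fun k => (d k)⁻¹)) (Pi.single b 1) a =
        d a * M a b * (d b)⁻¹ := by
      intro a b
      rw [Module.End.mul_apply, Module.End.mul_apply, H25Y.dg_single, map_smul, map_smul,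
        Pi.smul_apply, smul_eq_mul, dg_apply, v10_phi]
      ring
    have hce' : (dg d' * E' * dg (fun k => (d' k)⁻¹)) (Pi.single l 1) k =
        d' k * E' (Pi.single l 1) k * (d' l)⁻¹ := by
      rw [Module.End.mul_apply, Module.End.mul_apply, H25Y.dg_single, map_smul, map_smul,
        Pi.smul_apply, smul_eq_mul, dg_apply]
      ring
    have hs := (hL _).1 ((h.fst _).2 ⟨_, hc⟩)
    have e1 := v10_entry hdet hm hs i j
    have e2 := v10_entry hdet hm ((hL _).1 hEL) i j
    rw [hce, hce] at e1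
    rw [v10_phi, v10_phi] at e2
    have hα : d i * (d j)⁻¹ = d (π j) * (d (π i))⁻¹ := by
      have h2 : M i j * J i (π i) ≠ 0 := mul_ne_zero hMij0 (hm.ne i)
      apply mul_right_cancel₀ h2
      linear_combination e1 - d (π j) * (d (π i))⁻¹ * e2
    have hcs : dg d * phi M * dg (fun k => (d k)⁻¹) = (d i * (d j)⁻¹) • phi M := by
      refine H25Y.ext_entry fun a b => ?_
      rw [hce, LinearMap.smul_apply, Pi.smul_apply, smul_eq_mul, v10_phi, hMe]
      by_cases h1 : a = i ∧ b = j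
      · obtain ⟨rfl, rfl⟩ := h1
        ring
      · by_cases h2 : a = π j ∧ b = π i
        · obtain ⟨rfl, rfl⟩ := h2
          rw [hα]
          ring
        · rw [if_neg h1, if_neg h2]
          ring
    rw [hcs] at hc
    have h4 := 𝓛.smul_mem (d i * (d j)⁻¹) hE'
    rw [Prod.smul_mk] at h4
    have h5 := v01_uniq h hc h4
    have h6 := congrFun (congrArg (fun T : Module.End K (κ' → K) => T (Pi.single l 1)) h5) k
    rw [hce', LinearMap.smul_apply, Pi.smul_apply, smul_eq_mul] at h6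
    have h7 : d' k * (d' l)⁻¹ = d i * (d j)⁻¹ := by
      apply mul_right_cancel₀ hkl
      linear_combination h6
    have h8 := h.ne j
    have h9 := h.ne' l
    field_simp at h7
    linear_combination -h7

/-- PROOF. `k = l`: then `g i = 0` for all diagonal pairs, but `g = 1_i - 1_(π i)` belongs to one.  `k ≠ l`: `E' = phi (single k l 1) ∈ L'` (trace zero); let `(X, E') ∈ 𝓛` (`h.snd`), `X ≠ 0`
(`h.right`), and `X (Pi.single b 1) a ≠ 0`.  As in `so_root` `g a - g b = g' k - g' l = 2 g i` for all diagonal pairs (`v01_lr`, `h.lie`, `h.left`).  `a ≠ b` (otherwise `g i = 0`, see above).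
`b ≠ π a`: `X` is skew: with `X = phi Y`: `Yᵀ J + J Y = 0` at the entry `(b, b)` for `b = π a`: `2 J b a * Y a b = 0` (`J` is monomial and symmetric), but `Y a b ≠ 0`, `J b a ≠ 0`.
`g = 1_a - 1_(π a)` belongs to a diagonal pair and has `g a = 1`, `g b = 0`, so `2 g i = 1`; but `g i ∈ {0, 1, -1}`. -/
theorem no_two (h : Gz 𝓛 L L' d d') (hJ : Jᵀ = J) (hdet : IsUnit J.det) (hm : Mon J π) (hne : ∀ i, π i ≠ i)
    (hL : ∀ X, X ∈ L ↔ adjE J X = -X) (hL' : ∀ X, X ∈ L' ↔ LinearMap.trace K (κ' → K) X = 0) {i : κ} {k l : κ'}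
    (hR : ∀ g g', (dg g, dg g') ∈ 𝓛 → 2 * g i = g' k - g' l) : False := by
  have hz : ¬ ∀ g g', (dg g, dg g') ∈ 𝓛 → 2 * g i = 0 := by
    intro h0
    obtain ⟨g', hg'⟩ := v10_pair h hdet hm hL i
    have h1 := h0 _ _ hg'
    rw [Pi.sub_apply, Pi.single_eq_same, Pi.single_eq_of_ne (hne i).symm] at h1
    norm_num at h1
  have hkl : k ≠ l := by
    rintro rfl
    exact hz fun g g' hgg => by rw [hR g g' hgg, sub_self]
  have htr : LinearMap.trace K (κ' → K) (phi (Matrix.single k l (1 : K))) = 0 := by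
    have e : phi (Matrix.single k l (1 : K)) = Matrix.toLin' (Matrix.single k l (1 : K)) := by
      refine LinearMap.ext fun v => ?_
      rw [phi_apply, Matrix.toLin'_apply]
    rw [e, Matrix.trace_toLin'_eq, Matrix.trace_single_eq_of_ne k l _ hkl]
  obtain ⟨X, hX⟩ := (h.snd _).1 ((hL' _).2 htr)
  have hX0 : X ≠ 0 := by
    intro h0
    rw [h0] at hX
    have h1 := h.right _ hX
    have h2 := v10_phi (Matrix.single k l (1 : K)) k l
    rw [h1, Matrix.single_apply_same, LinearMap.zero_apply, Pi.zero_apply] at h2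
    exact zero_ne_one h2
  obtain ⟨a, b, hab⟩ := v10_ne hX0
  have hall : ∀ g g', (dg g, dg g') ∈ 𝓛 → g a - g b = 2 * g i := by
    intro g g' hgg
    refine v10_tr (s := 2 * g i) h.symm (mem_sw.2 hX) hab (mem_sw.2 hgg) ?_
    rw [hR g g' hgg, a03_dg, ← map_mul, ← map_mul, ← map_sub, a03_br, map_smul]
  have hab' : a ≠ b := by
    rintro rfl
    exact hz fun g g' hgg => by rw [← hall g g' hgg, sub_self]
  have hs := (hL _).1 ((h.fst _).2 ⟨_, hX⟩)
  have hb : b ≠ π a := by
    rintro rfl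
    have e1 := v10_entry hdet hm hs a (π a)
    rw [hm.inv] at e1
    have e2 : J (π a) a = J a (π a) := by
      have := congrFun (congrFun hJ a) (π a)
      rwa [Matrix.transpose_apply] at this
    rw [e2] at e1
    have e3 : (2 : K) * (X (Pi.single (π a) 1) a * J a (π a)) = 0 := by linear_combination e1
    rcases mul_eq_zero.1 e3 with e4 | e4
    · exact two_ne_zero e4
    · exact mul_ne_zero hab (hm.ne a) e4
  obtain ⟨g', hg'⟩ := v10_pair h hdet hm hL a
  have h1 := hall _ _ hg'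
  rw [Pi.sub_apply, Pi.sub_apply, Pi.sub_apply, Pi.single_eq_same, Pi.single_eq_of_ne (hne a).symm,
    Pi.single_eq_of_ne hab'.symm, Pi.single_eq_of_ne hb, Pi.single_apply, Pi.single_apply] at h1
  by_cases c1 : i = a
  · rw [if_pos c1, if_neg (fun c2 => hne a (c2.symm.trans c1))] at h1
    norm_num at h1
  · by_cases c2 : i = π a
    · rw [if_neg c1, if_pos c2] at h1
      have h2 : (3 : K) = 0 := by linear_combination h1
      exact three_ne_zero h2
    · rw [if_neg c1, if_neg c2] at h1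
      norm_num at h1

end Pool.Agent.H34V
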